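import Pool.Agent.H86.Collapse

/-!
# Formulas for narrow and uniformly narrow forcings; general forced facts
-/

set_option linter.unusedVariables false
set_option linter.unusedSectionVars false

universe u v w

namespace Pool.Agent.H86

section Formulas

variable {N : Type v} {Ω : Type w} (L : LogicStr N Ω)

/-- `R` is a partial order on `P` with largest element `t` -/
def fOrder (P R t : N) : Ω :=
  L.and (L.mem t P) <|
  L.and (L.all fun p => L.all fun q => L.imp (fRel L R p q) (L.and (L.mem p P) (L.mem q P))) <|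
  L.and (L.all fun p => L.imp (L.mem p P) (fRel L R p p)) <|
  L.and (L.all fun p => L.all fun q => L.imp (fRel L R p q) (L.imp (fRel L R q p) (L.eq p q))) <|
  L.and (L.all fun p => L.all fun q => L.all fun r =>
    L.imp (fRel L R p q) (L.imp (fRel L R q r) (fRel L R p r)))
  (L.all fun p => L.imp (L.mem p P) (fRel L R p t))

/-- `p` and `q` are compatible -/
def fCompat (P R p q : N) : Ω :=
  L.ex fun r => L.and (L.mem r P) (L.and (fRel L R r p) (fRel L R r q))

/-- `f` is a partial compatibility homomorphism from `P` to the ordinals -/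
def fPHom (P R f : N) : Ω :=
  L.and (fFun L f) <|
  L.and (L.all fun x => L.all fun y => L.imp (fRel L f x y) (L.and (L.mem x P) (fOrd L y)))
  (L.all fun x => L.all fun y => L.all fun x' => L.all fun y' =>
    L.imp (fRel L f x y) (L.imp (fRel L f x' y') (L.imp (fCompat L P R x x') (L.eq y y'))))

/-- `F` is a sequence of length `μ` of partial compatibility homomorphisms -/
def fSeq (P R F μ : N) : Ω :=
  L.and (fFun L F) <|
  L.and (L.all fun i => L.iff (L.mem i μ) (L.ex fun f => fRel L F i f))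
  (L.all fun i => L.all fun f => L.imp (fRel L F i f) (fPHom L P R f))

/-- `F(i)(x) = y` -/
def fVal (F i x y : N) : Ω := L.ex fun f => L.and (fRel L F i f) (fRel L f x y)

/-- weak form of narrowness: there is an injective function defined at all values -/
def fNarrowW (P R θ : N) : Ω :=
  L.all fun μ => L.imp (fOrd L μ) (L.all fun F => L.imp (fSeq L P R F μ)
    (L.ex fun h => L.and (fFun L h) (L.and (fInj L h)
      (L.and
        (L.all fun i => L.all fun x => L.all fun y => L.imp (fVal L F i x y)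
          (L.ex fun z => fRel L h y z))
        (L.all fun y => L.all fun z => L.imp (fRel L h y z) (L.or (L.mem z θ) (L.mem z μ)))))))

/-- uniform narrowness -/
def fUnif (P R θ : N) : Ω :=
  L.ex fun G => L.and (fFun L G) (L.all fun f => L.imp (fPHom L P R f)
    (L.imp (L.ex fun α => L.and (fOrd L α)
        (L.all fun y => L.iff (L.mem y α) (L.ex fun p => fRel L f p y)))
      (L.ex fun g => L.and (fRel L G f g) (L.and (fFun L g) (L.and (fInj L g)
        (L.and
          (L.all fun y => L.iff (L.ex fun z => fRel L g y z) (L.ex fun p => fRel L f p y))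
          (L.all fun y => L.all fun z => L.imp (fRel L g y z) (L.mem z θ))))))))

/-- `θ` is the first infinite ordinal -/
def fOmega (θ : N) : Ω :=
  L.and (fOrd L θ) <|
  L.and (L.ex fun e => L.and (L.mem e θ) (L.all fun z => L.imp (L.mem z e) L.bot)) <|
  L.and (L.all fun y => L.imp (L.mem y θ) (L.ex fun s => L.and (L.mem s θ)
    (L.all fun z => L.iff (L.mem z s) (L.or (L.mem z y) (L.eq z y)))))
  (L.all fun y => L.imp (L.mem y θ) (L.or (L.all fun z => L.imp (L.mem z y) L.bot)
    (L.ex fun x => L.and (L.mem x y) (L.all fun z => L.iff (L.mem z y)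
      (L.or (L.mem z x) (L.eq z x))))))

end Formulas

namespace SymSys

variable {Q : Type u} [Preorder Q] [OrderTop Q] {G : Type u} [Group G] [MulAction G Q]
variable (S : SymSys Q G)

open Name

theorem R_relN {ι : Type u} {a b : ι → Name Q} {c : ι → Q} {h : S.HS (relN ι a b c)}
    {X Y : S.HN} {p : Q} : S.R ⟨relN ι a b c, h⟩ X Y p ↔
      ∀ q ≤ p, ∃ r ≤ q, ∃ i, r ≤ c i ∧ feq X.1 (a i) r ∧ feq Y.1 (b i) r := fmem_relN

theorem HS_chk {ι : Type u} (a b : ι → Ordinal.{u}) :
    S.HS (relN ι (fun i => oName Q (a i)) (fun i => oName Q (b i)) fun _ => ⊤) := by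
  apply S.HS_relN (fun i => S.HS_oName _) (fun i => S.HS_oName _)
  exact ⟨⊤, S.large_top, S.supp_relN fun g hg i =>
    ⟨i, fun q => S.supp_oName _ g hg q, fun q => S.supp_oName _ g hg q, le_top⟩⟩

theorem supp_chk {ι : Type u} (a b : ι → Ordinal.{u}) (H : Subgroup G) :
    S.Supp H (relN ι (fun i => oName Q (a i)) (fun i => oName Q (b i)) fun _ => ⊤) :=
  S.supp_relN fun g hg i =>
    ⟨i, fun q => S.supp_oName _ g trivial q, fun q => S.supp_oName _ g trivial q, le_top⟩

/-- The canonical name of a ground model relation between ordinals. -/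
noncomputable def chk {ι : Type u} (a b : ι → Ordinal.{u}) : S.HN := ⟨_, S.HS_chk a b⟩

theorem R_chk {ι : Type u} {a b : ι → Ordinal.{u}} {X Y : S.HN} {p : Q} :
    S.R (S.chk a b) X Y p ↔
      ∀ q ≤ p, ∃ r ≤ q, ∃ i, feq X.1 (oName Q (a i)) r ∧ feq Y.1 (oName Q (b i)) r := by
  unfold chk
  rw [S.R_relN]
  simp only [le_top, true_and]

theorem R_chk_hO {ι : Type u} {a b : ι → Ordinal.{u}} {α β : Ordinal.{u}} {p : Q} :
    S.R (S.chk a b) (S.hO α) (S.hO β) p ↔ ∃ i, a i = α ∧ b i = β := by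
  rw [S.R_chk]
  constructor
  · intro h
    obtain ⟨r, _, i, h1, h2⟩ := h p le_rfl
    exact ⟨i, (feq_oName_iff.1 h1).symm, (feq_oName_iff.1 h2).symm⟩
  · rintro ⟨i, rfl, rfl⟩ q hq
    exact ⟨q, le_rfl, i, feq_refl _ _, feq_refl _ _⟩

/-- A name all of whose elements are pairs, functional. -/
theorem fFun_relN {ι : Type u} {a b : ι → S.HN} {c : ι → Q}
    {h : S.HS (relN ι (fun i => (a i).1) (fun i => (b i).1) c)} {p : Q}
    (hf : ∀ i j, ∀ r ≤ p, r ≤ c i → r ≤ c j → feq (a i).1 (a j).1 r → feq (b i).1 (b j).1 r) :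
    (fFun S.FS ⟨_, h⟩).holds p := by
  constructor
  · intro Z q hq hZ r hr
    obtain ⟨s, hs, i, h1, h2⟩ := hZ r hr
    refine ⟨s, hs, a i, fun t ht => ⟨t, le_rfl, b i, ?_⟩⟩
    rw [S.holds_fPr]
    exact feq_mono ht h2
  · intro X Y Y' q hq h1 q' hq' h2
    rw [holds_fRel, S.R_relN] at h1 h2
    refine feq_reg fun r hr => ?_
    obtain ⟨s, hs, i, a1, a2, a3⟩ := h1 r (hr.trans hq')
    obtain ⟨t, ht, j, b1, b2, b3⟩ := h2 s (hs.trans hr)
    refine ⟨t, ht.trans hs, ?_⟩
    have := hf i j t (ht.trans (hs.trans (hr.trans (hq'.trans hq)))) (ht.trans a1) b1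
      (feq_trans (feq_symm (feq_mono ht a2)) b2)
    exact feq_trans (feq_mono ht a3) (feq_trans this (feq_symm b3))

theorem fInj_relN {ι : Type u} {a b : ι → S.HN} {c : ι → Q}
    {h : S.HS (relN ι (fun i => (a i).1) (fun i => (b i).1) c)} {p : Q}
    (hf : ∀ i j, ∀ r ≤ p, r ≤ c i → r ≤ c j → feq (b i).1 (b j).1 r → feq (a i).1 (a j).1 r) :
    (fInj S.FS ⟨_, h⟩).holds p := by
  intro X X' Y q hq h1 q' hq' h2
  rw [holds_fRel, S.R_relN] at h1 h2
  refine feq_reg fun r hr => ?_
  obtain ⟨s, hs, i, a1, a2, a3⟩ := h1 r (hr.trans hq')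
  obtain ⟨t, ht, j, b1, b2, b3⟩ := h2 s (hs.trans hr)
  refine ⟨t, ht.trans hs, ?_⟩
  have := hf i j t (ht.trans (hs.trans (hr.trans (hq'.trans hq)))) (ht.trans a1) b1
    (feq_trans (feq_symm (feq_mono ht a3)) b3)
  exact feq_trans (feq_mono ht a2) (feq_trans this (feq_symm b2))

theorem fFun_chk {ι : Type u} {a b : ι → Ordinal.{u}} {p : Q}
    (h : ∀ i j, a i = a j → b i = b j) : (fFun S.FS (S.chk a b)).holds p := by
  unfold chk
  refine S.fFun_relN (a := fun i => S.hO (a i)) (b := fun i => S.hO (b i)) (c := fun _ => ⊤) ?_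
  intro i j r _ _ _ hk
  have e := h i j (feq_oName_iff.1 hk)
  show feq (oName Q (b i)) (oName Q (b j)) r
  rw [e]; exact feq_refl _ _

theorem fInj_chk {ι : Type u} {a b : ι → Ordinal.{u}} {p : Q}
    (h : ∀ i j, b i = b j → a i = a j) : (fInj S.FS (S.chk a b)).holds p := by
  unfold chk
  refine S.fInj_relN (a := fun i => S.hO (a i)) (b := fun i => S.hO (b i)) (c := fun _ => ⊤) ?_
  intro i j r _ _ _ hk
  have e := h i j (feq_oName_iff.1 hk)
  show feq (oName Q (a i)) (oName Q (a j)) r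
  rw [e]; exact feq_refl _ _

theorem forced_omega (p : Q) : (fOmega S.FS (S.hO Ordinal.omega0)).holds p := by
  refine ⟨S.fOrd_hO _ p, ?_, ?_, ?_⟩
  · intro r hr
    refine ⟨r, le_rfl, S.hO 0, fmem_oName_of_lt Ordinal.omega0_pos r, ?_⟩
    intro Z s hs h
    obtain ⟨t, _, β, hβ, _⟩ := fmem_oName.1 h s le_rfl
    exact absurd hβ (not_lt_of_ge (zero_le (a := β)))
  · intro Y r hr hY s hs
    obtain ⟨t, ht, β, hβ, h⟩ := fmem_oName.1 hY s hs
    refine ⟨t, ht, S.hO (β + 1), ?_, fun Z => ⟨fun t' ht' h' => ?_, fun t' ht' h' => ?_⟩⟩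
    · exact fmem_oName_of_lt (Ordinal.isSuccLimit_omega0.add_one_lt hβ) t
    · intro a ha
      obtain ⟨b, hb, h2⟩ := fmem_oName_add_one.1 h' a ha
      have h3 : feq Y.1 (oName Q β) b := feq_mono (hb.trans (ha.trans ht')) h
      exact ⟨b, hb, h2.imp (fun h4 => fmem_congr_right (feq_symm h3) h4)
        (fun h4 => feq_trans h4 (feq_symm h3))⟩
    · show fmem Z.1 (oName Q (β + 1)) t'
      rw [fmem_oName_add_one]
      intro a ha
      obtain ⟨b, hb, h2⟩ := h' a ha
      have h3 : feq Y.1 (oName Q β) b := feq_mono (hb.trans (ha.trans ht')) h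
      exact ⟨b, hb, h2.imp (fun h4 => fmem_congr_right h3 h4) (fun h4 => feq_trans h4 h3)⟩
  · intro Y r hr hY s hs
    obtain ⟨t, ht, β, hβ, h⟩ := fmem_oName.1 hY s hs
    refine ⟨t, ht, ?_⟩
    obtain ⟨n, rfl⟩ := Ordinal.lt_omega0.1 hβ
    cases n with
    | zero =>
      left
      intro Z t' ht' hZ
      have h1 := fmem_congr_right (feq_mono ht' h) hZ
      obtain ⟨t, _, β, hβ, _⟩ := fmem_oName.1 h1 t' le_rfl
      simp only [Nat.cast_zero] at hβ
      exact absurd hβ (not_lt_of_ge (zero_le (a := β)))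
    | succ n =>
      right
      rw [Nat.cast_succ] at h
      intro t1 ht1
      refine ⟨t1, le_rfl, S.hO n, ?_, fun Z => ⟨fun t' ht' h' => ?_, fun t' ht' h' => ?_⟩⟩
      · exact fmem_congr_right (feq_symm (feq_mono ht1 h))
          (fmem_oName_of_lt (Order.lt_add_one_iff.2 le_rfl) t1)
      · exact fmem_oName_add_one.1 (fmem_congr_right (feq_mono (ht'.trans ht1) h) h')
      · exact fmem_congr_right (feq_symm (feq_mono (ht'.trans ht1) h))
          (fmem_oName_add_one.2 h')

end SymSys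

end Pool.Agent.H86
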