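import Pool.Agent.H86.Logic

/-!
# Models of ZF

`Sat E φ f` is satisfaction of the formula `φ` in the structure `(M, E)` under the assignment `f`.
`IsZFModel E` says that `(M, E)` satisfies all the Zermelo-Fraenkel statements (without choice).
-/

universe v

namespace Pool.Agent.H86

/-- Satisfaction of a formula in the structure `(M, E)`. -/
def Sat {M : Type v} (E : M → M → Prop) : Fml → (ℕ → M) → Prop
  | .mem i j, f => E (f i) (f j)
  | .eq i j, f => f i = f j
  | .bot, _ => False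
  | .imp φ ψ, f => Sat E φ f → Sat E ψ f
  | .and φ ψ, f => Sat E φ f ∧ Sat E ψ f
  | .or φ ψ, f => Sat E φ f ∨ Sat E ψ f
  | .iff φ ψ, f => (Sat E φ f ↔ Sat E ψ f)
  | .all k φ, f => ∀ x, Sat E φ (upd f k x)
  | .ex k φ, f => ∃ x, Sat E φ (upd f k x)

theorem sat_eq_eval {M : Type v} (E : M → M → Prop) (φ : Fml) :
    ∀ f, Sat E φ f = φ.eval (propStr E) f := by
  induction φ with
  | mem i j => intro f; rfl
  | eq i j => intro f; rfl
  | bot => intro f; rfl
  | imp φ ψ ih1 ih2 => intro f; simp only [Sat, ih1, ih2]; rfl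
  | and φ ψ ih1 ih2 => intro f; simp only [Sat, ih1, ih2]; rfl
  | or φ ψ ih1 ih2 => intro f; simp only [Sat, ih1, ih2]; rfl
  | iff φ ψ ih1 ih2 => intro f; simp only [Sat, ih1, ih2]; rfl
  | all k φ ih => intro f; simp only [Sat, ih]; rfl
  | ex k φ ih => intro f; simp only [Sat, ih]; rfl

/-- `(M, E)` is a model of Zermelo-Fraenkel set theory `ZF` (without choice): extensionality,
foundation, pairing, union, power set, infinity, and the schemas of separation and replacement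
for all first-order formulas with parameters (the assignment `f` supplies the parameters). -/
structure IsZFModel {M : Type v} (E : M → M → Prop) : Prop where
  ext : ∀ x y, (∀ z, E z x ↔ E z y) → x = y
  found : ∀ x, (∃ y, E y x) → ∃ y, E y x ∧ ∀ z, E z x → ¬ E z y
  pair : ∀ x y, ∃ z, ∀ w, E w z ↔ (w = x ∨ w = y)
  union : ∀ x, ∃ u, ∀ z, E z u ↔ ∃ y, E y x ∧ E z y
  power : ∀ x, ∃ p, ∀ z, E z p ↔ ∀ w, E w z → E w x
  inf : ∃ x, (∃ e, E e x ∧ ∀ z, ¬ E z e) ∧
    ∀ y, E y x → ∃ s, E s x ∧ ∀ z, E z s ↔ (E z y ∨ z = y)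
  sep : ∀ (φ : Fml) (f : ℕ → M) (a : M), ∃ b, ∀ x, E x b ↔ (E x a ∧ Sat E φ (upd f 0 x))
  repl : ∀ (φ : Fml) (f : ℕ → M) (a : M),
    (∀ x, E x a → ∃! y, Sat E φ (upd (upd f 0 x) 1 y)) →
      ∃ b, ∀ y, E y b ↔ ∃ x, E x a ∧ Sat E φ (upd (upd f 0 x) 1 y)

end Pool.Agent.H86
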