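import Pool.Agent.H86.Check

/-!
# Formulas about ordered pairs, relations and functions, and their forcing meaning
-/

set_option linter.unusedVariables false
set_option linter.unusedSectionVars false

universe u v w

namespace Pool.Agent.H86

section Formulas

variable {N : Type v} {Ω : Type w} (L : LogicStr N Ω)

/-- `z = {a, b}` -/
def fUPair (z a b : N) : Ω := L.all fun t => L.iff (L.mem t z) (L.or (L.eq t a) (L.eq t b))

/-- `z = (a, b)` (Kuratowski) -/
def fPr (z a b : N) : Ω := L.all fun w => L.iff (L.mem w z) (L.or (fUPair L w a a) (fUPair L w a b))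

/-- `(x, y) ∈ f` -/
def fRel (f x y : N) : Ω := L.ex fun z => L.and (fPr L z x y) (L.mem z f)

/-- `x` is transitive -/
def fTrans (x : N) : Ω := L.all fun y => L.imp (L.mem y x) (L.all fun z => L.imp (L.mem z y) (L.mem z x))

/-- `x` is an ordinal -/
def fOrd (x : N) : Ω := L.and (fTrans L x) (L.all fun y => L.imp (L.mem y x) (fTrans L y))

/-- `f` is a function (as a set of pairs) -/
def fFun (f : N) : Ω := L.and
  (L.all fun z => L.imp (L.mem z f) (L.ex fun x => L.ex fun y => fPr L z x y))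
  (L.all fun x => L.all fun y => L.all fun y' =>
    L.imp (fRel L f x y) (L.imp (fRel L f x y') (L.eq y y')))

/-- `f` is injective -/
def fInj (f : N) : Ω := L.all fun x => L.all fun x' => L.all fun y =>
    L.imp (fRel L f x y) (L.imp (fRel L f x' y) (L.eq x x'))

end Formulas

namespace SymSys

variable {Q : Type u} [Preorder Q] [OrderTop Q] {G : Type u} [Group G] [MulAction G Q]
variable (S : SymSys Q G)

open Name

/-- Extensionality with quantification over hereditarily symmetric names. -/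
theorem feq_of_forall (X Y : S.HN) (p : Q)
    (h : ∀ T : S.HN, ∀ q ≤ p, fmem T.1 X.1 q ↔ fmem T.1 Y.1 q) : feq X.1 Y.1 p := by
  rw [feq_iff_mem]
  refine ⟨fun i q' hq' hi => ?_, fun i q' hq' hi => ?_⟩
  · exact (h ⟨_, X.2.el i⟩ q' hq').1 (fmem_el hi)
  · exact (h ⟨_, Y.2.el i⟩ q' hq').2 (fmem_el hi)

theorem holds_fUPair {Z A B : S.HN} {p : Q} :
    (fUPair S.FS Z A B).holds p ↔ feq Z.1 (upair A.1 B.1) p := by
  constructor
  · intro h
    refine S.feq_of_forall Z (S.hupair A B) p fun T q hq => ?_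
    constructor
    · intro hT
      exact fmem_upair.2 ((h T).1 q hq hT)
    · intro hT
      exact (h T).2 q hq (fmem_upair.1 hT)
  · intro h T
    refine ⟨fun q hq hT => ?_, fun q hq hT => ?_⟩
    · exact fmem_upair.1 (fmem_congr_right (feq_mono hq h) hT)
    · exact fmem_congr_right (feq_symm (feq_mono hq h)) (fmem_upair.2 hT)

theorem holds_fPr {Z A B : S.HN} {p : Q} :
    (fPr S.FS Z A B).holds p ↔ feq Z.1 (opair A.1 B.1) p := by
  have key : ∀ (T : S.HN) (q : Q), (S.FS.or (fUPair S.FS T A A) (fUPair S.FS T A B)).holds q ↔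
      fmem T.1 (opair A.1 B.1) q := by
    intro T q
    unfold opair
    rw [fmem_upair]
    constructor
    · intro h q' hq'
      obtain ⟨r, hr, h'⟩ := h q' hq'
      rw [S.holds_fUPair, S.holds_fUPair] at h'
      exact ⟨r, hr, h'⟩
    · intro h q' hq'
      obtain ⟨r, hr, h'⟩ := h q' hq'
      rw [← S.holds_fUPair (Z := T), ← S.holds_fUPair (Z := T)] at h'
      exact ⟨r, hr, h'⟩
  constructor
  · intro h
    refine S.feq_of_forall Z (S.hopair A B) p fun T q hq => ?_
    constructor
    · intro hT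
      exact (key T q).1 ((h T).1 q hq hT)
    · intro hT
      exact (h T).2 q hq ((key T q).2 hT)
  · intro h T
    refine ⟨fun q hq hT => ?_, fun q hq hT => ?_⟩
    · exact (key T q).2 (fmem_congr_right (feq_mono hq h) hT)
    · exact fmem_congr_right (feq_symm (feq_mono hq h)) ((key T q).1 hT)

end SymSys

namespace Name

variable {Q : Type u} [Preorder Q] [OrderTop Q]

theorem upair_congr {A B A' B' : Name Q} {p : Q} (h1 : feq A A' p) (h2 : feq B B' p) :
    feq (upair A B) (upair A' B') p := by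
  rw [feq_iff_mem]
  constructor
  · rintro ⟨b⟩ q hq _
    rw [fmem_upair]
    intro r hr
    refine ⟨r, le_rfl, ?_⟩
    cases b
    · exact Or.inr (feq_mono (hr.trans hq) h2)
    · exact Or.inl (feq_mono (hr.trans hq) h1)
  · rintro ⟨b⟩ q hq _
    rw [fmem_upair]
    intro r hr
    refine ⟨r, le_rfl, ?_⟩
    cases b
    · exact Or.inr (feq_symm (feq_mono (hr.trans hq) h2))
    · exact Or.inl (feq_symm (feq_mono (hr.trans hq) h1))

theorem opair_congr {A B A' B' : Name Q} {p : Q} (h1 : feq A A' p) (h2 : feq B B' p) :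
    feq (opair A B) (opair A' B') p :=
  upair_congr (upair_congr h1 h1) (upair_congr h1 h2)

theorem fmem_upair_left (A B : Name Q) (p : Q) : fmem A (upair A B) p :=
  fmem_upair.2 fun q _ => ⟨q, le_rfl, Or.inl (feq_refl _ _)⟩

theorem fmem_upair_right (A B : Name Q) (p : Q) : fmem B (upair A B) p :=
  fmem_upair.2 fun q _ => ⟨q, le_rfl, Or.inr (feq_refl _ _)⟩

theorem feq_of_singleton {A B : Name Q} {p : Q} (h : fmem A (upair B B) p) : feq A B p := by
  rw [fmem_upair] at h
  exact feq_reg fun q hq => by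
    obtain ⟨r, hr, h' | h'⟩ := h q hq
    · exact ⟨r, hr, h'⟩
    · exact ⟨r, hr, h'⟩

theorem feq_opair_iff {A B C D : Name Q} {p : Q} :
    feq (opair A B) (opair C D) p ↔ feq A C p ∧ feq B D p := by
  constructor
  · intro h
    have hAC : feq A C p := by
      have h1 : fmem (upair A A) (opair C D) p :=
        fmem_congr_right h (fmem_upair_left _ _ p)
      unfold opair at h1
      rw [fmem_upair] at h1
      refine feq_reg fun q hq => ?_
      obtain ⟨r, hr, h' | h'⟩ := h1 q hq
      · exact ⟨r, hr, feq_symm (feq_of_singleton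
          (fmem_congr_right (feq_symm h') (fmem_upair_left C C r)))⟩
      · exact ⟨r, hr, feq_symm (feq_of_singleton
          (fmem_congr_right (feq_symm h') (fmem_upair_left C D r)))⟩
    refine ⟨hAC, feq_reg fun q hq => ?_⟩
    have h1 : fmem (upair A B) (opair C D) p := fmem_congr_right h (fmem_upair_right _ _ p)
    have h2 : fmem (upair C D) (opair A B) p :=
      fmem_congr_right (feq_symm h) (fmem_upair_right _ _ p)
    unfold opair at h1 h2
    rw [fmem_upair] at h1 h2
    obtain ⟨r1, hr1, h1'⟩ := h1 q hq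
    obtain ⟨r2, hr2, h2'⟩ := h2 r1 (hr1.trans hq)
    have hAC2 : feq A C r2 := feq_mono (hr2.trans (hr1.trans hq)) hAC
    -- in all cases `D` is `A` or `B`, and `B` is `C` or `D`
    have hD : ∃ r3 ≤ r2, feq D A r3 ∨ feq D B r3 := by
      rcases h2' with h' | h'
      · exact ⟨r2, le_rfl, Or.inl (feq_of_singleton
          (fmem_congr_right h' (fmem_upair_right C D r2)))⟩
      · exact fmem_upair.1 (fmem_congr_right h' (fmem_upair_right C D r2)) r2 le_rfl
    obtain ⟨r3, hr3, h3 | h3⟩ := hD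
    · have hB : ∃ r4 ≤ r3, feq B C r4 ∨ feq B D r4 := by
        rcases h1' with h' | h'
        · exact ⟨r3, le_rfl, Or.inl (feq_of_singleton
            (fmem_congr_right (feq_mono (hr3.trans hr2) h') (fmem_upair_right A B r3)))⟩
        · exact fmem_upair.1 (fmem_congr_right (feq_mono (hr3.trans hr2) h')
            (fmem_upair_right A B r3)) r3 le_rfl
      obtain ⟨r4, hr4, h4 | h4⟩ := hB
      · refine ⟨r4, hr4.trans (hr3.trans (hr2.trans hr1)), ?_⟩
        exact feq_trans h4 (feq_trans (feq_symm (feq_mono (hr4.trans hr3) hAC2))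
          (feq_symm (feq_mono hr4 h3)))
      · exact ⟨r4, hr4.trans (hr3.trans (hr2.trans hr1)), h4⟩
    · exact ⟨r3, hr3.trans (hr2.trans hr1), feq_symm h3⟩
  · rintro ⟨h1, h2⟩
    exact opair_congr h1 h2

/-- name of a relation: a family of pairs with conditions -/
def relN (ι : Type u) (a b : ι → Name Q) (c : ι → Q) : Name Q :=
  Name.mk ι (fun i => opair (a i) (b i)) c

theorem fmem_relN {ι : Type u} {a b : ι → Name Q} {c : ι → Q} {X Y : Name Q} {p : Q} :
    fmem (opair X Y) (relN ι a b c) p ↔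
      ∀ q ≤ p, ∃ r ≤ q, ∃ i, r ≤ c i ∧ feq X (a i) r ∧ feq Y (b i) r := by
  constructor
  · intro h q hq
    obtain ⟨r, hr, i, h1, h2⟩ := h q hq
    exact ⟨r, hr, i, h1, feq_opair_iff.1 h2⟩
  · intro h q hq
    obtain ⟨r, hr, i, h1, h2⟩ := h q hq
    exact ⟨r, hr, i, h1, feq_opair_iff.2 h2⟩

end Name

namespace SymSys

variable {Q : Type u} [Preorder Q] [OrderTop Q] {G : Type u} [Group G] [MulAction G Q]
variable (S : SymSys Q G)

open Name

/-- forcing that a pair belongs to a name -/
def R (F X Y : S.HN) (p : Q) : Prop := fmem (opair X.1 Y.1) F.1 p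

theorem R_mono {F X Y : S.HN} {p q : Q} (h : q ≤ p) (h1 : S.R F X Y p) : S.R F X Y q :=
  fmem_mono h h1

theorem R_reg {F X Y : S.HN} {p : Q} (h : ∀ q ≤ p, ∃ r ≤ q, S.R F X Y r) : S.R F X Y p :=
  fmem_reg h

theorem R_congr {F X Y F' X' Y' : S.HN} {p : Q} (h1 : feq F.1 F'.1 p) (h2 : feq X.1 X'.1 p)
    (h3 : feq Y.1 Y'.1 p) (h : S.R F X Y p) : S.R F' X' Y' p :=
  fmem_congr_left (opair_congr h2 h3) (fmem_congr_right h1 h)

theorem holds_fRel {F X Y : S.HN} {p : Q} : (fRel S.FS F X Y).holds p ↔ S.R F X Y p := by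
  constructor
  · intro h
    apply fmem_reg
    intro q hq
    obtain ⟨r, hr, Z, h1, h2⟩ := h q hq
    rw [S.holds_fPr] at h1
    exact ⟨r, hr, fmem_congr_left h1 h2⟩
  · intro h q hq
    exact ⟨q, le_rfl, S.hopair X Y, S.holds_fPr.2 (feq_refl _ _), fmem_mono hq h⟩

theorem HS_opair {X Y : Name Q} (hX : S.HS X) (hY : S.HS Y) : S.HS (opair X Y) :=
  S.HS_upair (S.HS_upair hX hX) (S.HS_upair hX hY)

/-- A supported relation name with hereditarily symmetric entries. -/
theorem HS_relN {ι : Type u} {a b : ι → Name Q} {c : ι → Q} (ha : ∀ i, S.HS (a i))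
    (hb : ∀ i, S.HS (b i)) (h : S.Sym (relN ι a b c)) : S.HS (relN ι a b c) := by
  rw [HS_def]
  exact ⟨h, fun i => S.HS_opair (ha i) (hb i)⟩

include S in
theorem act_upair_feq (g : G) (X Y : Name Q) (q : Q) :
    ((upair X Y).act g).feq (upair (X.act g) (Y.act g)) q := by
  rw [feq_def]
  constructor
  · rintro ⟨b⟩ q' _ _
    refine ⟨q', le_rfl, (⟨b⟩ : ULift Bool), le_top, ?_⟩
    show feq ((cond b X Y).act g) (cond b (X.act g) (Y.act g)) q'
    cases b
    · exact feq_refl _ _
    · exact feq_refl _ _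
  · rintro ⟨b⟩ q' _ _
    refine ⟨q', le_rfl, (⟨b⟩ : ULift Bool), ?_, ?_⟩
    · show q' ≤ g • (⊤ : Q)
      rw [S.le_smul]; exact le_top
    · show feq ((cond b X Y).act g) (cond b (X.act g) (Y.act g)) q'
      cases b
      · exact feq_refl _ _
      · exact feq_refl _ _

theorem supp_relN {H : Subgroup G} {ι : Type u} {a b : ι → Name Q} {c : ι → Q}
    (h : ∀ g ∈ H, ∀ i, ∃ j, (∀ q, ((a i).act g).feq (a j) q) ∧
      (∀ q, ((b i).act g).feq (b j) q) ∧ g • c i ≤ c j) : S.Supp H (relN ι a b c) := by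
  apply S.supp_of_sub
  intro g hg i
  obtain ⟨j, h1, h2, h3⟩ := h g hg i
  show ((opair (a i) (b i)).act g).fmem (relN ι a b c) (g • c i)
  have e : ∀ q, ((opair (a i) (b i)).act g).feq (opair ((a i).act g) ((b i).act g)) q := by
    have e0 : ∀ (X Y : Name Q) (q : Q), ((upair X Y).act g).feq (upair (X.act g) (Y.act g)) q :=
      S.act_upair_feq g
    intro q
    unfold opair
    exact feq_trans (e0 _ _ q) (upair_congr (e0 _ _ q) (e0 _ _ q))
  intro q hq
  exact ⟨q, le_rfl, j, hq.trans h3, feq_trans (e q) (opair_congr (h1 q) (h2 q))⟩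

end SymSys

end Pool.Agent.H86
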