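import Pool.Agent.H86.Sym

/-!
# Countable two-valued models from the forcing interpretation

We build simultaneously a decreasing sequence of conditions and a countable set of names such
that every formula with parameters in the set is decided and every forced existential statement
has a witness.  The quotient is a countable two-valued structure in which exactly the formulas
forced by the sequence hold.
-/

set_option linter.unusedVariables false
set_option linter.unusedSectionVars false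

universe u v w

namespace Pool.Agent.H86

deriving instance Countable for Fml

/-- `comp` of an update. -/
theorem upd_comp {N : Type v} {M : Type w} (F : N → M) (f : ℕ → N) (k : ℕ) (x : N) :
    (fun i => F (upd f k x i)) = upd (fun i => F (f i)) k (F x) := by
  funext j
  by_cases hj : j = k <;> simp [upd, hj]

namespace SymSys

variable {Q : Type u} [Preorder Q] [OrderTop Q] {G : Type u} [Group G] [MulAction G Q]
variable (S : SymSys Q G)

namespace Henkin

/-- A task: a formula, a bound variable, and finitely many indices of names. -/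
abbrev Task : Type := Fml × ℕ × List ℕ

instance : Nonempty Task := ⟨(.bot, 0, [])⟩

/-- enumeration of tasks -/
noncomputable def enum : ℕ → Task := (exists_surjective_nat Task).choose

theorem enum_surj : Function.Surjective enum := (exists_surjective_nat Task).choose_spec

/-- every task appears arbitrarily late -/
noncomputable def task (n : ℕ) : Task := enum (Nat.unpair n).1

theorem task_late (t : Task) (m : ℕ) : ∃ n, m ≤ n ∧ task n = t := by
  obtain ⟨a, ha⟩ := enum_surj t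
  refine ⟨Nat.pair a m, Nat.right_le_pair a m, ?_⟩
  simp [task, ha]

/-- assignment associated to a list of indices -/
def asg (X : ℕ → S.HN) (l : List ℕ) : ℕ → S.HN := fun i => X (l.getD i 0)

open Classical in
/-- one step of the construction -/
noncomputable def step (n : ℕ) (s : Q × (ℕ → S.HN)) : Q × (ℕ → S.HN) :=
  if h : ∃ r : Q × S.HN, r.1 ≤ s.1 ∧
      (((task n).1.imp .bot).eval S.FS (upd (asg S s.2 (task n).2.2) (task n).2.1 r.2)).holds r.1
  then (h.choose.1, upd s.2 (2 * n + 1) h.choose.2)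
  else s

/-- the construction -/
noncomputable def st (p₀ : Q) (x₀ : ℕ → S.HN) : ℕ → Q × (ℕ → S.HN)
  | 0 => (p₀, fun i => x₀ (i / 2))
  | n + 1 => step S n (st p₀ x₀ n)

variable (p₀ : Q) (x₀ : ℕ → S.HN)

/-- conditions -/
noncomputable def qs (n : ℕ) : Q := (st S p₀ x₀ n).1

/-- names -/
noncomputable def nms (i : ℕ) : S.HN := (st S p₀ x₀ (i + 1)).2 i

theorem qs_succ (n : ℕ) : qs S p₀ x₀ (n + 1) ≤ qs S p₀ x₀ n := by
  unfold qs
  rw [st, step]
  split_ifs with h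
  · exact h.choose_spec.1
  · exact le_rfl

theorem qs_anti {m n : ℕ} (h : m ≤ n) : qs S p₀ x₀ n ≤ qs S p₀ x₀ m := by
  induction n, h using Nat.le_induction with
  | base => exact le_rfl
  | succ n hn ih => exact (qs_succ S p₀ x₀ n).trans ih

theorem qs_zero : qs S p₀ x₀ 0 = p₀ := rfl

theorem st_snd_succ (n i : ℕ) (h : i ≠ 2 * n + 1) :
    (st S p₀ x₀ (n + 1)).2 i = (st S p₀ x₀ n).2 i := by
  rw [st, step]
  split_ifs with h'
  · exact upd_ne _ _ h
  · rfl

theorem st_eq_nms {m i : ℕ} (h : i < m) : (st S p₀ x₀ m).2 i = nms S p₀ x₀ i := by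
  induction m, h using Nat.le_induction with
  | base => rfl
  | succ m hm ih =>
    rw [st_snd_succ _ _ _ _ _ (by have : i + 1 ≤ m := hm; omega), ih]

theorem nms_even (j : ℕ) : nms S p₀ x₀ (2 * j) = x₀ j := by
  have : ∀ m, (st S p₀ x₀ m).2 (2 * j) = x₀ j := by
    intro m
    induction m with
    | zero => simp [st]
    | succ m ih => rw [st_snd_succ _ _ _ _ _ (by omega), ih]
  exact this _

/-- Truth in the sense of the generic sequence. -/
def Tr (φ : Fml) (f : ℕ → ℕ) : Prop :=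
  ∃ n, (φ.eval S.FS (fun i => nms S p₀ x₀ (f i))).holds (qs S p₀ x₀ n)

theorem key (φ : Fml) (k : ℕ) (f : ℕ → ℕ) :
    (∃ n, ∀ y, (φ.eval S.FS (upd (fun i => nms S p₀ x₀ (f i)) k y)).holds (qs S p₀ x₀ n)) ∨
    (∃ n j, ((φ.imp .bot).eval S.FS (upd (fun i => nms S p₀ x₀ (f i)) k
      (nms S p₀ x₀ j))).holds (qs S p₀ x₀ n)) := by
  classical
  set l : List ℕ := (List.range φ.bd).map f with hl
  obtain ⟨B, hB⟩ : ∃ B, ∀ i, l.getD i 0 < B := by
    refine ⟨(l.foldr max 0) + 1, fun i => ?_⟩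
    rcases lt_or_ge i l.length with h | h
    · rw [List.getD_eq_getElem _ _ h]
      have : ∀ (l : List ℕ) (a : ℕ), a ∈ l → a ≤ l.foldr max 0 := by
        intro l
        induction l with
        | nil => intro a ha; simp at ha
        | cons b l ih =>
          intro a ha
          rcases List.mem_cons.1 ha with rfl | ha
          · exact le_max_left _ _
          · exact (ih a ha).trans (le_max_right _ _)
      exact Nat.lt_succ_of_le (this l _ (List.getElem_mem h))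
    · rw [List.getD_eq_default _ _ h]; omega
  obtain ⟨n, hn, ht⟩ := task_late (φ, k, l) B
  have hasg : ∀ i < φ.bd, asg S (st S p₀ x₀ n).2 l i = nms S p₀ x₀ (f i) := by
    intro i hi
    unfold asg
    rw [st_eq_nms S p₀ x₀ ((hB i).trans_le hn)]
    congr 1
    rw [hl, List.getD_eq_getElem _ _ (by simpa using hi)]
    simp
  have hev : ∀ y, φ.eval S.FS (upd (asg S (st S p₀ x₀ n).2 l) k y) =
      φ.eval S.FS (upd (fun i => nms S p₀ x₀ (f i)) k y) := by
    intro y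
    apply Fml.eval_congr
    intro i hi
    by_cases hk : i = k
    · subst hk; simp
    · rw [upd_ne _ _ hk, upd_ne _ _ hk, hasg i hi]
  have hev' : ∀ y, (φ.imp .bot).eval S.FS (upd (asg S (st S p₀ x₀ n).2 l) k y) =
      (φ.imp .bot).eval S.FS (upd (fun i => nms S p₀ x₀ (f i)) k y) := by
    intro y
    simp only [Fml.eval]
    rw [hev y]
  by_cases h : ∃ r : Q × S.HN, r.1 ≤ (st S p₀ x₀ n).1 ∧
      (((task n).1.imp .bot).eval S.FS
        (upd (asg S (st S p₀ x₀ n).2 (task n).2.2) (task n).2.1 r.2)).holds r.1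
  · right
    refine ⟨n + 1, 2 * n + 1, ?_⟩
    have hst : st S p₀ x₀ (n + 1) = (h.choose.1, upd (st S p₀ x₀ n).2 (2 * n + 1) h.choose.2) := by
      rw [st, step, dif_pos h]
    have h1 : nms S p₀ x₀ (2 * n + 1) = h.choose.2 := by
      rw [← st_eq_nms S p₀ x₀ (m := 2 * n + 2) (by omega)]
      have : ∀ m, n + 1 ≤ m → (st S p₀ x₀ m).2 (2 * n + 1) = h.choose.2 := by
        intro m hm
        induction m, hm using Nat.le_induction with
        | base => rw [hst]; simp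
        | succ m hm ih => rw [st_snd_succ _ _ _ _ _ (by omega), ih]
      exact this _ (by omega)
    have h2 : qs S p₀ x₀ (n + 1) = h.choose.1 := by
      unfold qs; rw [hst]
    rw [h1, h2, ← hev']
    have h3 := h.choose_spec.2
    simp only [ht] at h3
    simpa only [ht] using h3
  · left
    refine ⟨n, fun y => ?_⟩
    rw [← hev]
    by_contra hc
    obtain ⟨r, hr, h'⟩ := Om.exists_not hc
    apply h
    refine ⟨(r, y), hr, ?_⟩
    simp only [ht]
    exact h'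

theorem tr_mono {φ : Fml} {f : ℕ → ℕ} {m n : ℕ} (h : m ≤ n)
    (h1 : (φ.eval S.FS (fun i => nms S p₀ x₀ (f i))).holds (qs S p₀ x₀ m)) :
    (φ.eval S.FS (fun i => nms S p₀ x₀ (f i))).holds (qs S p₀ x₀ n) :=
  (φ.eval S.FS _).mono (qs_anti S p₀ x₀ h) h1

theorem dec (φ : Fml) (f : ℕ → ℕ) : Tr S p₀ x₀ φ f ∨ Tr S p₀ x₀ (φ.imp .bot) f := by
  have hfresh : ∀ (ψ : Fml), ψ.bd ≤ φ.bd → ∀ y,
      ψ.eval S.FS (upd (fun i => nms S p₀ x₀ (f i)) φ.bd y) =
      ψ.eval S.FS (fun i => nms S p₀ x₀ (f i)) := by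
    intro ψ hψ y
    apply Fml.eval_congr
    intro i hi
    exact upd_ne _ _ (by omega)
  rcases key S p₀ x₀ φ φ.bd f with ⟨n, h⟩ | ⟨n, j, h⟩
  · left
    refine ⟨n, ?_⟩
    have := h (x₀ 0)
    rwa [hfresh φ le_rfl] at this
  · right
    refine ⟨n, ?_⟩
    rwa [hfresh (φ.imp .bot) (by simp [Fml.bd])] at h

theorem cons (φ : Fml) (f : ℕ → ℕ) (h1 : Tr S p₀ x₀ φ f) (h2 : Tr S p₀ x₀ (φ.imp .bot) f) :
    False := by
  obtain ⟨m, hm⟩ := h1
  obtain ⟨n, hn⟩ := h2
  have h1 := tr_mono S p₀ x₀ (le_max_left m n) hm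
  have h2 := tr_mono S p₀ x₀ (le_max_right m n) hn
  exact h2 _ le_rfl h1

theorem tr_imp (φ ψ : Fml) (f : ℕ → ℕ) :
    Tr S p₀ x₀ (φ.imp ψ) f ↔ (Tr S p₀ x₀ φ f → Tr S p₀ x₀ ψ f) := by
  constructor
  · rintro ⟨m, hm⟩ ⟨n, hn⟩
    have h1 := tr_mono S p₀ x₀ (le_max_left m n) hm
    have h2 := tr_mono S p₀ x₀ (le_max_right m n) hn
    exact ⟨max m n, h1 _ le_rfl h2⟩
  · intro h
    rcases dec S p₀ x₀ φ f with h1 | ⟨n, h1⟩
    · obtain ⟨n, hn⟩ := h h1
      exact ⟨n, fun q hq _ => (ψ.eval S.FS _).mono hq hn⟩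
    · exact ⟨n, fun q hq hq' => (h1 q hq hq').elim⟩

theorem tr_and (φ ψ : Fml) (f : ℕ → ℕ) :
    Tr S p₀ x₀ (φ.and ψ) f ↔ (Tr S p₀ x₀ φ f ∧ Tr S p₀ x₀ ψ f) := by
  constructor
  · rintro ⟨m, hm⟩
    exact ⟨⟨m, hm.1⟩, ⟨m, hm.2⟩⟩
  · rintro ⟨⟨m, hm⟩, ⟨n, hn⟩⟩
    exact ⟨max m n, tr_mono S p₀ x₀ (le_max_left m n) hm, tr_mono S p₀ x₀ (le_max_right m n) hn⟩

theorem tr_or (φ ψ : Fml) (f : ℕ → ℕ) :
    Tr S p₀ x₀ (φ.or ψ) f ↔ (Tr S p₀ x₀ φ f ∨ Tr S p₀ x₀ ψ f) := by
  constructor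
  · rintro ⟨m, hm⟩
    rcases dec S p₀ x₀ φ f with h1 | ⟨n1, h1⟩
    · exact Or.inl h1
    rcases dec S p₀ x₀ ψ f with h2 | ⟨n2, h2⟩
    · exact Or.inr h2
    exfalso
    set N := max m (max n1 n2)
    have a := tr_mono S p₀ x₀ (n := N) (le_max_left _ _) hm
    have b := tr_mono S p₀ x₀ (n := N) ((le_max_left _ _).trans (le_max_right _ _)) h1
    have c := tr_mono S p₀ x₀ (n := N) ((le_max_right _ _).trans (le_max_right _ _)) h2
    obtain ⟨r, hr, h3 | h3⟩ := a _ le_rfl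
    · exact b r hr h3
    · exact c r hr h3
  · rintro (⟨m, hm⟩ | ⟨m, hm⟩)
    · exact ⟨m, fun q hq => ⟨q, le_rfl, Or.inl ((φ.eval S.FS _).mono hq hm)⟩⟩
    · exact ⟨m, fun q hq => ⟨q, le_rfl, Or.inr ((ψ.eval S.FS _).mono hq hm)⟩⟩

theorem tr_iff (φ ψ : Fml) (f : ℕ → ℕ) :
    Tr S p₀ x₀ (φ.iff ψ) f ↔ (Tr S p₀ x₀ φ f ↔ Tr S p₀ x₀ ψ f) := by
  have h : Tr S p₀ x₀ (φ.iff ψ) f ↔ Tr S p₀ x₀ ((φ.imp ψ).and (ψ.imp φ)) f := Iff.rfl
  rw [h, tr_and, tr_imp, tr_imp]
  exact iff_iff_implies_and_implies.symm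

theorem tr_all (k : ℕ) (φ : Fml) (f : ℕ → ℕ) :
    Tr S p₀ x₀ (φ.all k) f ↔ ∀ j, Tr S p₀ x₀ φ (upd f k j) := by
  have hj : ∀ j, (fun i => nms S p₀ x₀ (upd f k j i)) =
      upd (fun i => nms S p₀ x₀ (f i)) k (nms S p₀ x₀ j) := fun j => upd_comp _ _ _ _
  constructor
  · rintro ⟨m, hm⟩ j
    refine ⟨m, ?_⟩
    rw [hj]
    exact hm _
  · intro h
    rcases key S p₀ x₀ φ k f with ⟨n, h1⟩ | ⟨n, j, h1⟩
    · exact ⟨n, h1⟩
    · exfalso
      refine cons S p₀ x₀ φ _ (h j) ⟨n, ?_⟩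
      rw [hj]
      exact h1

theorem tr_ex (k : ℕ) (φ : Fml) (f : ℕ → ℕ) :
    Tr S p₀ x₀ (φ.ex k) f ↔ ∃ j, Tr S p₀ x₀ φ (upd f k j) := by
  have hj : ∀ j, (fun i => nms S p₀ x₀ (upd f k j i)) =
      upd (fun i => nms S p₀ x₀ (f i)) k (nms S p₀ x₀ j) := fun j => upd_comp _ _ _ _
  constructor
  · rintro ⟨m, hm⟩
    rcases key S p₀ x₀ (φ.imp .bot) k f with ⟨n, h1⟩ | ⟨n, j, h1⟩
    · exfalso
      obtain ⟨r, hr, x, hx⟩ := hm (qs S p₀ x₀ (max m n)) (qs_anti _ _ _ (le_max_left _ _))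
      exact h1 x r (hr.trans (qs_anti _ _ _ (le_max_right _ _))) hx
    · refine ⟨j, n, ?_⟩
      rw [hj]
      by_contra hc
      obtain ⟨q, hq, hq'⟩ := Om.exists_not hc
      exact h1 q hq hq'
  · rintro ⟨j, m, hm⟩
    rw [hj] at hm
    exact ⟨m, fun q hq => ⟨q, le_rfl, _, (φ.eval S.FS _).mono hq hm⟩⟩

/-- the equivalence relation -/
def rel : Setoid ℕ where
  r := fun i j => ∃ n, (nms S p₀ x₀ i).1.feq (nms S p₀ x₀ j).1 (qs S p₀ x₀ n)
  iseqv :=
    { refl := fun i => ⟨0, Name.feq_refl _ _⟩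
      symm := fun ⟨n, h⟩ => ⟨n, Name.feq_symm h⟩
      trans := fun {i j k} ⟨m, h⟩ ⟨n, h'⟩ => ⟨max m n,
        Name.feq_trans (Name.feq_mono (qs_anti _ _ _ (le_max_left _ _)) h)
          (Name.feq_mono (qs_anti _ _ _ (le_max_right _ _)) h')⟩ }

/-- the model -/
def Mod : Type := Quotient (rel S p₀ x₀)

/-- the membership relation of the model -/
def modE : Mod S p₀ x₀ → Mod S p₀ x₀ → Prop :=
  Quotient.lift₂ (fun i j => ∃ n, (nms S p₀ x₀ i).1.fmem (nms S p₀ x₀ j).1 (qs S p₀ x₀ n)) (by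
    have : ∀ a b c d : ℕ, (rel S p₀ x₀).r a c → (rel S p₀ x₀).r b d →
        (∃ n, (nms S p₀ x₀ a).1.fmem (nms S p₀ x₀ b).1 (qs S p₀ x₀ n)) →
        ∃ n, (nms S p₀ x₀ c).1.fmem (nms S p₀ x₀ d).1 (qs S p₀ x₀ n) := by
      rintro a b c d ⟨m, hm⟩ ⟨n, hn⟩ ⟨k, hk⟩
      set N := max m (max n k)
      refine ⟨N, Name.fmem_congr_left (Name.feq_mono (qs_anti _ _ _ (le_max_left _ _)) hm)
        (Name.fmem_congr_right
          (Name.feq_mono (qs_anti _ _ _ ((le_max_left _ _).trans (le_max_right _ _))) hn)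
          (Name.fmem_mono (qs_anti _ _ _ ((le_max_right _ _).trans (le_max_right _ _))) hk))⟩
    intro a b c d hac hbd
    exact propext ⟨this a b c d hac hbd,
      this c d a b ((rel S p₀ x₀).symm hac) ((rel S p₀ x₀).symm hbd)⟩)

/-- projection -/
def pr (i : ℕ) : Mod S p₀ x₀ := Quotient.mk _ i

theorem pr_surj : Function.Surjective (pr S p₀ x₀) := Quotient.exists_rep

theorem sat_iff (φ : Fml) : ∀ f : ℕ → ℕ,
    φ.eval (propStr (modE S p₀ x₀)) (fun i => pr S p₀ x₀ (f i)) ↔ Tr S p₀ x₀ φ f := by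
  induction φ with
  | mem i j => intro f; exact Iff.rfl
  | eq i j =>
    intro f
    exact Quotient.eq (r := rel S p₀ x₀)
  | bot =>
    intro f
    constructor
    · intro h; exact h.elim
    · rintro ⟨n, h⟩; exact h
  | imp φ ψ ih1 ih2 =>
    intro f
    rw [tr_imp, ← ih1, ← ih2]; rfl
  | and φ ψ ih1 ih2 =>
    intro f
    rw [tr_and, ← ih1, ← ih2]; rfl
  | or φ ψ ih1 ih2 =>
    intro f
    rw [tr_or, ← ih1, ← ih2]; rfl
  | iff φ ψ ih1 ih2 =>
    intro f
    rw [tr_iff, ← ih1, ← ih2]; rfl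
  | all k φ ih =>
    intro f
    rw [tr_all]
    have h : (φ.all k).eval (propStr (modE S p₀ x₀)) (fun i => pr S p₀ x₀ (f i)) ↔
        ∀ x, φ.eval (propStr (modE S p₀ x₀)) (upd (fun i => pr S p₀ x₀ (f i)) k x) := Iff.rfl
    rw [h, (pr_surj S p₀ x₀).forall]
    refine forall_congr' fun j => ?_
    rw [← ih, upd_comp (pr S p₀ x₀)]
  | ex k φ ih =>
    intro f
    rw [tr_ex]
    have h : (φ.ex k).eval (propStr (modE S p₀ x₀)) (fun i => pr S p₀ x₀ (f i)) ↔
        ∃ x, φ.eval (propStr (modE S p₀ x₀)) (upd (fun i => pr S p₀ x₀ (f i)) k x) := Iff.rfl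
    rw [h, (pr_surj S p₀ x₀).exists]
    refine exists_congr fun j => ?_
    rw [← ih, upd_comp (pr S p₀ x₀)]

end Henkin

/-- **Existence of countable models.** Given a condition `p₀` and countably many hereditarily
symmetric names `x₀`, there is a two-valued structure, each element of which is named by some
hereditarily symmetric name, in which every formula forced by `p₀` holds. -/
theorem exists_model (p₀ : Q) (x₀ : ℕ → S.HN) :
    ∃ (M : Type) (E : M → M → Prop) (Nm : M → S.HN → Prop),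
      (∀ m, ∃ x, Nm m x) ∧ (∀ i, ∃ m, Nm m (x₀ i)) ∧
      ∀ (φ : Fml) (f : ℕ → M) (g : ℕ → S.HN), (∀ i, Nm (f i) (g i)) →
        (φ.eval S.FS g).holds p₀ → φ.eval (propStr E) f := by
  refine ⟨Henkin.Mod S p₀ x₀, Henkin.modE S p₀ x₀,
    fun m x => ∃ j, Henkin.pr S p₀ x₀ j = m ∧ Henkin.nms S p₀ x₀ j = x, ?_, ?_, ?_⟩
  · intro m
    obtain ⟨j, hj⟩ := Henkin.pr_surj S p₀ x₀ m
    exact ⟨_, j, hj, rfl⟩
  · intro i
    exact ⟨Henkin.pr S p₀ x₀ (2 * i), 2 * i, rfl, Henkin.nms_even S p₀ x₀ i⟩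
  · intro φ f g h hφ
    choose w hw1 hw2 using h
    have e1 : f = fun i => Henkin.pr S p₀ x₀ (w i) := funext fun i => (hw1 i).symm
    have e2 : g = fun i => Henkin.nms S p₀ x₀ (w i) := funext fun i => (hw2 i).symm
    rw [e1, Henkin.sat_iff]
    refine ⟨0, ?_⟩
    rw [← e2]
    exact hφ

end SymSys

end Pool.Agent.H86
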