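import Pool.Agent.H86.ZF

/-!
# Canonical names of ordinals, infinity, and the final model-existence theorem
-/

set_option linter.unusedVariables false
set_option linter.unusedSectionVars false

universe u v w

namespace Pool.Agent.H86

open Name

section ONames

variable (Q : Type u) [Preorder Q] [OrderTop Q]

/-- Canonical name of an ordinal. -/
noncomputable def oName (α : Ordinal.{u}) : Name Q :=
  Name.mk α.ToType (fun i => oName (Ordinal.ToType.toOrd i).1) (fun _ => ⊤)
termination_by α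
decreasing_by exact (Ordinal.ToType.toOrd i).2

variable {Q}

theorem fmem_oName {α : Ordinal.{u}} {X : Name Q} {p : Q} :
    fmem X (oName Q α) p ↔ ∀ q ≤ p, ∃ r ≤ q, ∃ β < α, feq X (oName Q β) r := by
  rw [oName]
  constructor
  · intro h q hq
    obtain ⟨r, hr, i, _, h2⟩ := h q hq
    exact ⟨r, hr, _, (Ordinal.ToType.toOrd i).2, h2⟩
  · intro h q hq
    obtain ⟨r, hr, β, hβ, h2⟩ := h q hq
    refine ⟨r, hr, Ordinal.ToType.mk ⟨β, hβ⟩, le_top, ?_⟩
    simpa [Ordinal.ToType.toOrd] using h2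

theorem fmem_oName_of_lt {α β : Ordinal.{u}} (h : β < α) (p : Q) :
    fmem (oName Q β) (oName Q α) p :=
  fmem_oName.2 fun q _ => ⟨q, le_rfl, β, h, feq_refl _ _⟩

theorem feq_oName_iff {α β : Ordinal.{u}} {p : Q} : feq (oName Q α) (oName Q β) p ↔ α = β := by
  constructor
  · intro h
    rcases lt_trichotomy α β with h1 | h1 | h1
    · exact (not_fmem_self _ _ (fmem_congr_right (feq_symm h) (fmem_oName_of_lt h1 p))).elim
    · exact h1
    · exact (not_fmem_self _ _ (fmem_congr_right h (fmem_oName_of_lt h1 p))).elim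
  · rintro rfl; exact feq_refl _ _

theorem fmem_oName_iff {α β : Ordinal.{u}} {p : Q} : fmem (oName Q β) (oName Q α) p ↔ β < α := by
  constructor
  · intro h
    obtain ⟨r, hr, γ, hγ, h2⟩ := fmem_oName.1 h p le_rfl
    rw [feq_oName_iff.1 h2]; exact hγ
  · intro h; exact fmem_oName_of_lt h p

theorem fmem_oName_add_one {α : Ordinal.{u}} {X : Name Q} {p : Q} :
    fmem X (oName Q (α + 1)) p ↔
      ∀ q ≤ p, ∃ r ≤ q, fmem X (oName Q α) r ∨ feq X (oName Q α) r := by
  constructor
  · intro h q hq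
    obtain ⟨r, hr, β, hβ, h2⟩ := fmem_oName.1 h q hq
    refine ⟨r, hr, ?_⟩
    rcases (Order.lt_add_one_iff.1 hβ).lt_or_eq with h3 | rfl
    · exact Or.inl (fmem_congr_left (feq_symm h2) (fmem_oName_of_lt h3 r))
    · exact Or.inr h2
  · intro h
    apply fmem_reg
    intro q hq
    obtain ⟨r, hr, h1 | h1⟩ := h q hq
    · refine ⟨r, hr, fmem_oName.2 fun s hs => ?_⟩
      obtain ⟨t, ht, β, hβ, h2⟩ := fmem_oName.1 h1 s hs
      exact ⟨t, ht, β, hβ.trans (Order.lt_add_one_iff.2 le_rfl), h2⟩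
    · exact ⟨r, hr, fmem_congr_left (feq_symm h1)
        (fmem_oName_of_lt (Order.lt_add_one_iff.2 le_rfl) r)⟩

end ONames

section ZFproof

/-- Every structure in which all forced sentences (with parameters) hold is a model of ZF. -/
theorem zf_of_true {M : Type v} {E : M → M → Prop}
    (h1 : fExt (propStr E)) (h2 : fFound (propStr E)) (h3 : fPair (propStr E))
    (h4 : fUnion (propStr E)) (h5 : fPower (propStr E)) (h6 : fInf (propStr E))
    (h7 : ∀ (φ : Fml) (f : ℕ → M), (cSep φ).eval (propStr E) f)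
    (h8 : ∀ (φ : Fml) (f : ℕ → M), (cColl φ).eval (propStr E) f) : IsZFModel E := by
  have hsep : ∀ (φ : Fml) (f : ℕ → M) (a : M), ∃ b, ∀ x,
      E x b ↔ (E x a ∧ Sat E φ (upd f 0 x)) := by
    intro φ f a
    have := h7 φ f
    rw [eval_cSep] at this
    obtain ⟨b, hb⟩ := this a
    refine ⟨b, fun x => ?_⟩
    rw [sat_eq_eval]
    exact hb x
  refine ⟨h1, h2, h3, h4, h5, h6, hsep, ?_⟩
  intro φ f a ha
  have hc := h8 φ f
  rw [eval_cColl] at hc
  obtain ⟨b, hb⟩ := hc a (fun x hx => by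
    obtain ⟨y, hy, _⟩ := ha x hx
    rw [sat_eq_eval] at hy
    exact ⟨y, hy⟩)
  set n := max φ.bd 2 with hn
  have hn1 : φ.bd ≤ n := le_max_left _ _
  have hn2 : 2 ≤ n := le_max_right _ _
  obtain ⟨c, hc⟩ := hsep
    (.ex n (.and (.eq n 0) (.ex 0 (.and (.mem 0 (n + 1)) (.ex 1 (.and (.eq 1 n) φ))))))
    (upd f (n + 1) a) b
  refine ⟨c, fun y => ?_⟩
  rw [hc]
  have key : Sat E (.ex n (.and (.eq n 0) (.ex 0 (.and (.mem 0 (n + 1))
      (.ex 1 (.and (.eq 1 n) φ)))))) (upd (upd f (n + 1) a) 0 y) ↔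
      ∃ x, E x a ∧ Sat E φ (upd (upd f 0 x) 1 y) := by
    have e1 : n ≠ 0 := by omega
    have e2 : (1 : ℕ) ≠ n := by omega
    have e3 : n ≠ 1 := by omega
    have e4 : ¬ (0 = n) := by omega
    simp only [Sat, upd_same]
    constructor
    · rintro ⟨z, hz, x, hx, w, hw, hφ⟩
      have hz' : z = y := by simpa [upd, e4] using hz
      subst hz'
      have hx' : E x a := by simpa [upd] using hx
      have hw' : w = z := by simpa [upd, e1, e3] using hw
      subst hw'
      refine ⟨x, hx', ?_⟩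
      rw [sat_eq_eval] at hφ ⊢
      rwa [Fml.eval_congr (propStr E) φ _ (upd (upd f 0 x) 1 w)] at hφ
      intro i hi
      by_cases i1 : i = 1
      · subst i1; simp
      rw [upd_ne _ _ i1, upd_ne _ _ i1]
      by_cases i0 : i = 0
      · subst i0; simp
      rw [upd_ne _ _ i0, upd_ne _ _ i0, upd_ne _ _ (by omega), upd_ne _ _ i0,
        upd_ne _ _ (by omega)]
    · rintro ⟨x, hx, hφ⟩
      refine ⟨y, ?_, x, ?_, y, ?_, ?_⟩
      · simp [upd, e4]
      · simpa [upd] using hx
      · simp [upd, e1, e3]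
      · rw [sat_eq_eval] at hφ ⊢
        rwa [Fml.eval_congr (propStr E) φ _ (upd (upd f 0 x) 1 y)]
        intro i hi
        by_cases i1 : i = 1
        · subst i1; simp
        rw [upd_ne _ _ i1, upd_ne _ _ i1]
        by_cases i0 : i = 0
        · subst i0; simp
        rw [upd_ne _ _ i0, upd_ne _ _ i0, upd_ne _ _ (by omega), upd_ne _ _ i0,
          upd_ne _ _ (by omega)]
  rw [key]
  constructor
  · exact fun h => h.2
  · rintro ⟨x, hx, hφ⟩
    refine ⟨?_, x, hx, hφ⟩
    obtain ⟨y', hy', hφ'⟩ := hb x hx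
    obtain ⟨z, _, hz⟩ := ha x hx
    have e1 : y = z := hz y hφ
    have e2 : y' = z := hz y' (by show Sat E φ _; rw [sat_eq_eval]; exact hφ')
    rw [e1, ← e2]; exact hy'

end ZFproof

namespace SymSys

variable {Q : Type u} [Preorder Q] [OrderTop Q] {G : Type u} [Group G] [MulAction G Q]
variable (S : SymSys Q G)

theorem supp_oName (α : Ordinal.{u}) : S.Supp ⊤ (oName Q α) := by
  induction α using WellFoundedLT.induction with
  | ind α ih =>
    rw [oName]
    apply S.supp_top
    intro g hg i q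
    exact ⟨i, ih _ (Ordinal.ToType.toOrd i).2 g hg q⟩

theorem HS_oName (α : Ordinal.{u}) : S.HS (oName Q α) := by
  induction α using WellFoundedLT.induction with
  | ind α ih =>
    have := S.supp_oName α
    rw [oName] at this ⊢
    rw [HS_def]
    exact ⟨⟨⊤, S.large_top, this⟩, fun i => ih _ (Ordinal.ToType.toOrd i).2⟩

/-- The canonical name of an ordinal as a hereditarily symmetric name. -/
noncomputable def hO (α : Ordinal.{u}) : S.HN := ⟨oName Q α, S.HS_oName α⟩

theorem forced_inf (p : Q) : (fInf S.FS).holds p := by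
  intro q hq
  refine ⟨q, le_rfl, S.hO Ordinal.omega0, ?_, ?_⟩
  · intro r hr
    refine ⟨r, le_rfl, S.hO 0, fmem_oName_of_lt Ordinal.omega0_pos r, ?_⟩
    intro Z s hs h
    obtain ⟨t, _, β, hβ, _⟩ := fmem_oName.1 h s le_rfl
    exact absurd hβ (not_lt_of_ge (zero_le (a := β)))
  · intro Y r hr hY s hs
    obtain ⟨t, ht, β, hβ, h⟩ := fmem_oName.1 hY s hs
    refine ⟨t, ht, S.hO (β + 1), ?_, fun Z => ⟨fun t' ht' h' => ?_, fun t' ht' h' => ?_⟩⟩
    · exact fmem_oName_of_lt (Ordinal.isSuccLimit_omega0.add_one_lt hβ) t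
    · intro a ha
      obtain ⟨b, hb, h2⟩ := fmem_oName_add_one.1 h' a ha
      have h3 : feq Y.1 (oName Q β) b := feq_mono (hb.trans (ha.trans ht')) h
      exact ⟨b, hb, h2.imp (fun h4 => fmem_congr_right (feq_symm h3) h4)
        (fun h4 => feq_trans h4 (feq_symm h3))⟩
    · show fmem Z.1 (oName Q (β + 1)) t'
      rw [fmem_oName_add_one]
      intro a ha
      obtain ⟨b, hb, h2⟩ := h' a ha
      have h3 : feq Y.1 (oName Q β) b := feq_mono (hb.trans (ha.trans ht')) h
      exact ⟨b, hb, h2.imp (fun h4 => fmem_congr_right h3 h4) (fun h4 => feq_trans h4 h3)⟩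

/-- **Main existence theorem.** Given a condition `p₀` and countably many hereditarily
symmetric names `x₀`, there is a countable model of ZF, each element of which is named by some
hereditarily symmetric name, in which every formula forced by `p₀` holds. -/
theorem exists_zf_model (p₀ : Q) (x₀ : ℕ → S.HN) :
    ∃ (M : Type) (E : M → M → Prop) (Nm : M → S.HN → Prop),
      IsZFModel E ∧ (∀ m, ∃ x, Nm m x) ∧ (∀ i, ∃ m, Nm m (x₀ i)) ∧
      ∀ (φ : Fml) (f : ℕ → M) (g : ℕ → S.HN), (∀ i, Nm (f i) (g i)) →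
        (φ.eval S.FS g).holds p₀ → φ.eval (propStr E) f := by
  obtain ⟨M, E, Nm, h1, h2, h3⟩ := S.exists_model p₀ x₀
  refine ⟨M, E, Nm, ?_, h1, h2, h3⟩
  choose g hg using h1
  obtain ⟨m, _⟩ := h2 0
  have hs : ∀ φ : Fml, (∀ g : ℕ → S.HN, (φ.eval S.FS g).holds p₀) →
      ∀ f : ℕ → M, φ.eval (propStr E) f :=
    fun φ hφ f => h3 φ f (fun i => g (f i)) (fun i => hg _) (hφ _)
  refine zf_of_true ?_ ?_ ?_ ?_ ?_ ?_ ?_ ?_
  · exact hs (fExt codeStr 0) (fun _ => S.forced_ext p₀) (fun _ => m)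
  · exact hs (fFound codeStr 0) (fun _ => S.forced_found p₀) (fun _ => m)
  · exact hs (fPair codeStr 0) (fun _ => S.forced_pair p₀) (fun _ => m)
  · exact hs (fUnion codeStr 0) (fun _ => S.forced_union p₀) (fun _ => m)
  · exact hs (fPower codeStr 0) (fun _ => S.forced_power p₀) (fun _ => m)
  · exact hs (fInf codeStr 0) (fun _ => S.forced_inf p₀) (fun _ => m)
  · exact fun φ => hs (cSep φ) (fun g => S.forced_sep φ g p₀)
  · exact fun φ => hs (cColl φ) (fun g => S.forced_coll φ g p₀)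

end SymSys

end Pool.Agent.H86
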