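import Pool.Agent.H86.Narrow

/-!
# A Cohen-type symmetric model: a dense set of generic cuts of the rationals
-/

set_option linter.unusedVariables false
set_option linter.unusedSectionVars false

universe u v w

namespace Pool.Agent.H86

open Name

section Formulas

variable {N : Type v} {Ω : Type w} (L : LogicStr N Ω)

/-- `O` is (the graph of) a strict dense linear order without endpoints on the set `w` -/
def fDLO (w O : N) : Ω :=
  L.and (L.all fun x => L.all fun y => L.imp (fRel L O x y) (L.and (L.mem x w) (L.mem y w))) <|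
  L.and (L.all fun x => L.imp (fRel L O x x) L.bot) <|
  L.and (L.all fun x => L.all fun y => L.all fun z =>
    L.imp (fRel L O x y) (L.imp (fRel L O y z) (fRel L O x z))) <|
  L.and (L.all fun x => L.all fun y => L.imp (L.mem x w) (L.imp (L.mem y w)
    (L.or (fRel L O x y) (L.or (L.eq x y) (fRel L O y x))))) <|
  L.and (L.all fun x => L.all fun y => L.imp (fRel L O x y)
    (L.ex fun z => L.and (fRel L O x z) (fRel L O z y)))
  (L.all fun x => L.imp (L.mem x w)
    (L.and (L.ex fun y => fRel L O x y) (L.ex fun y => fRel L O y x)))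

/-- `c` is a cut of `(w, O)` -/
def fCut (w O c : N) : Ω :=
  L.and (L.all fun x => L.imp (L.mem x c) (L.mem x w)) <|
  L.and (L.ex fun x => L.mem x c) <|
  L.and (L.ex fun x => L.and (L.mem x w) (L.imp (L.mem x c) L.bot)) <|
  L.and (L.all fun x => L.all fun y => L.imp (L.mem x c) (L.imp (fRel L O y x) (L.mem y c)))
  (L.all fun x => L.imp (L.mem x c) (L.ex fun y => L.and (L.mem y c) (fRel L O x y)))

/-- `D` is a dense set of non-principal cuts -/
def fDense (w O D : N) : Ω :=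
  L.and (L.all fun d => L.imp (L.mem d D) (fCut L w O d)) <|
  L.and (L.all fun x => L.all fun y => L.imp (fRel L O x y)
    (L.ex fun d => L.and (L.mem d D) (L.and (L.mem x d) (L.imp (L.mem y d) L.bot))))
  (L.all fun d => L.imp (L.mem d D) (L.all fun x => L.imp (L.mem x w)
    (L.imp (L.all fun y => L.iff (L.mem y d) (fRel L O y x)) L.bot)))

/-- every function from `w` to `D` is bounded -/
def fBdd (w D : N) : Ω :=
  L.all fun g => L.imp (fFun L g) (L.imp (L.all fun k => L.imp (L.mem k w)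
      (L.ex fun d => fRel L g k d))
    (L.imp (L.all fun k => L.all fun d => L.imp (fRel L g k d) (L.and (L.mem k w) (L.mem d D)))
      (L.ex fun m => L.and (L.mem m w) (L.all fun k => L.all fun d =>
        L.imp (fRel L g k d) (L.imp (L.mem m d) L.bot)))))

end Formulas

/-- Conditions: finite partial functions from `ℕ` to rational intervals. -/
@[ext] structure CC : Type where
  f : ℕ → Option (ℚ × ℚ)
  fin : {i | f i ≠ none}.Finite
  lt : ∀ i s, f i = some s → s.1 < s.2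

namespace CC

instance : Preorder CC where
  le := fun p q => ∀ i s, q.f i = some s → ∃ t, p.f i = some t ∧ s.1 ≤ t.1 ∧ t.2 ≤ s.2
  le_refl := fun p i s h => ⟨s, h, le_rfl, le_rfl⟩
  le_trans := fun p q r h1 h2 i s h => by
    obtain ⟨t, ht, a, b⟩ := h2 i s h
    obtain ⟨u, hu, c, d⟩ := h1 i t ht
    exact ⟨u, hu, a.trans c, d.trans b⟩

theorem le_def {p q : CC} : p ≤ q ↔
    ∀ i s, q.f i = some s → ∃ t, p.f i = some t ∧ s.1 ≤ t.1 ∧ t.2 ≤ s.2 := Iff.rfl

instance : OrderTop CC where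
  top := ⟨fun _ => none, by simp, by simp⟩
  le_top := fun p x γ h => by simp at h

abbrev Gp : Type := Equiv.Perm ℕ

noncomputable instance : MulAction Gp CC where
  smul := fun g p => ⟨fun i => p.f (g⁻¹ i), by
      refine (p.fin.image g).subset ?_
      intro x hx
      exact ⟨g⁻¹ x, hx, by simp⟩, fun i s h => p.lt (g⁻¹ i) s h⟩
  one_smul := fun p => by
    ext i : 2
    rfl
  mul_smul := fun g h p => by
    ext i : 2
    show p.f ((g * h)⁻¹ i) = p.f (h⁻¹ (g⁻¹ i))
    simp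

theorem smul_f (g : Gp) (p : CC) (i : ℕ) : (g • p).f i = p.f (g⁻¹ i) := rfl

/-- pointwise stabiliser of a finite set -/
def Fix (e : Finset ℕ) : Subgroup Gp where
  carrier := {g | ∀ i ∈ e, g i = i}
  one_mem' := fun i _ => rfl
  mul_mem' := fun {a b} ha hb i hi => by
    show a (b i) = i
    rw [hb i hi, ha i hi]
  inv_mem' := fun {a} ha i hi => by
    show a⁻¹ i = i
    rw [Equiv.Perm.inv_eq_iff_eq, ha i hi]

theorem mem_Fix {e : Finset ℕ} {g : Gp} : g ∈ Fix e ↔ ∀ i ∈ e, g i = i := Iff.rfl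

theorem Fix_anti {e e' : Finset ℕ} (h : e ⊆ e') : Fix e' ≤ Fix e :=
  fun g hg i hi => hg i (h hi)

/-- the symmetric system -/
noncomputable def sys : SymSys CC Gp where
  smul_mono := fun g p q h i s hi => h _ _ hi
  large := fun H => ∃ e, Fix e ≤ H
  large_top := ⟨∅, le_top⟩
  large_inf := by
    classical
    rintro H K ⟨e, he⟩ ⟨e', he'⟩
    exact ⟨e ∪ e', le_inf ((Fix_anti Finset.subset_union_left).trans he)
      ((Fix_anti Finset.subset_union_right).trans he')⟩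
  large_conj := by
    classical
    rintro g H ⟨e, he⟩
    refine ⟨Fix (e.image g), ⟨_, le_rfl⟩, fun k hk => he fun i hi => ?_⟩
    show g⁻¹ (k (g i)) = i
    rw [hk (g i) (Finset.mem_image_of_mem g hi)]
    simp

theorem exists_fix (X : sys.HN) : ∃ e, sys.Supp (Fix e) X.1 := by
  obtain ⟨H, ⟨e, he⟩, h⟩ := X.2.sym
  exact ⟨e, h.mono he⟩

open Classical in
/-- change the value at one index -/
noncomputable def set (p : CC) (i : ℕ) (s : ℚ × ℚ) (h : s.1 < s.2) : CC where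
  f := fun j => if j = i then some s else p.f j
  fin := by
    refine (p.fin.union (Set.finite_singleton i)).subset ?_
    intro j hj
    by_cases hji : j = i
    · exact Or.inr hji
    · left
      simpa [hji] using hj
  lt := fun j t ht => by
    by_cases hji : j = i
    · rw [if_pos hji] at ht; cases ht; exact h
    · rw [if_neg hji] at ht; exact p.lt j t ht

theorem set_f_same (p : CC) (i : ℕ) (s : ℚ × ℚ) (h : s.1 < s.2) : (p.set i s h).f i = some s := by
  simp [set]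

theorem set_f_ne (p : CC) {i j : ℕ} (s : ℚ × ℚ) (h : s.1 < s.2) (hj : j ≠ i) :
    (p.set i s h).f j = p.f j := by simp [set, hj]

theorem set_le (p : CC) (i : ℕ) (s : ℚ × ℚ) (h : s.1 < s.2)
    (hs : ∀ t, p.f i = some t → t.1 ≤ s.1 ∧ s.2 ≤ t.2) : p.set i s h ≤ p := by
  intro j t ht
  by_cases hj : j = i
  · subst hj
    exact ⟨s, set_f_same _ _ _ _, hs t ht⟩
  · exact ⟨t, by rw [set_f_ne _ _ _ hj, ht], le_rfl, le_rfl⟩

/-- every condition can be extended to be defined at a given index -/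
theorem exists_ext (p : CC) (i : ℕ) : ∃ q ≤ p, ∃ s, q.f i = some s := by
  cases h : p.f i with
  | some s => exact ⟨p, le_rfl, s, h⟩
  | none => exact ⟨p.set i (0, 1) (by norm_num), p.set_le i _ _ (fun t ht => by
      rw [h] at ht; cases ht), _, set_f_same _ _ _ _⟩

/-- the code of a rational number -/
noncomputable def rc (q : ℚ) : Ordinal.{0} := ((Denumerable.eqv ℚ q : ℕ) : Ordinal)

theorem rc_lt (q : ℚ) : rc q < Ordinal.omega0 := Ordinal.natCast_lt_omega0 _

theorem rc_inj {q q' : ℚ} (h : rc q = rc q') : q = q' := by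
  have : Denumerable.eqv ℚ q = Denumerable.eqv ℚ q' := by
    unfold rc at h; exact_mod_cast h
  exact (Denumerable.eqv ℚ).injective this

theorem rc_surj {α : Ordinal.{0}} (h : α < Ordinal.omega0) : ∃ q, rc q = α := by
  obtain ⟨n, rfl⟩ := Ordinal.lt_omega0.1 h
  exact ⟨(Denumerable.eqv ℚ).symm n, by simp [rc]⟩

/-- name of the set of natural numbers, which also codes the rationals -/
noncomputable def nW : sys.HN := sys.hO Ordinal.omega0

/-- name of a rational number -/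
noncomputable def nQ (q : ℚ) : sys.HN := sys.hO (rc q)

/-- name of the order of the rationals -/
noncomputable def nO : sys.HN :=
  sys.chk (ι := {t : ℚ × ℚ // t.1 < t.2}) (fun t => rc t.1.1) (fun t => rc t.1.2)

theorem mem_nW {X : sys.HN} {p : CC} (h : fmem X.1 nW.1 p) : ∃ q ≤ p, ∃ c, feq X.1 (nQ c).1 q := by
  obtain ⟨q, hq, α, hα, h1⟩ := fmem_oName.1 h p le_rfl
  obtain ⟨c, rfl⟩ := rc_surj hα
  exact ⟨q, hq, c, h1⟩

theorem nQ_mem (c : ℚ) (p : CC) : fmem (nQ c).1 nW.1 p := fmem_oName_of_lt (rc_lt c) p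

theorem nQ_inj {c d : ℚ} {p : CC} (h : feq (nQ c).1 (nQ d).1 p) : c = d :=
  rc_inj (feq_oName_iff.1 h)

theorem R_nO {X Y : sys.HN} {p : CC} (h : sys.R nO X Y p) :
    ∃ q ≤ p, ∃ c d : ℚ, c < d ∧ feq X.1 (nQ c).1 q ∧ feq Y.1 (nQ d).1 q := by
  unfold nO at h
  rw [SymSys.R_chk] at h
  obtain ⟨q, hq, ⟨⟨c, d⟩, hcd⟩, h1, h2⟩ := h p le_rfl
  exact ⟨q, hq, c, d, hcd, h1, h2⟩

theorem R_nO_nQ {c d : ℚ} {p : CC} : sys.R nO (nQ c) (nQ d) p ↔ c < d := by
  unfold nO nQ
  rw [SymSys.R_chk_hO]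
  constructor
  · rintro ⟨⟨⟨a, b⟩, hab⟩, h1, h2⟩
    have e1 := rc_inj h1
    have e2 := rc_inj h2
    simp only at e1 e2 hab
    rwa [e1, e2] at hab
  · intro h
    exact ⟨⟨⟨c, d⟩, h⟩, rfl, rfl⟩

/-- to force a relation between names of rationals -/
theorem R_nO_of {X Y : sys.HN} {c d : ℚ} {p : CC} (h1 : feq X.1 (nQ c).1 p)
    (h2 : feq Y.1 (nQ d).1 p) (h : c < d) : sys.R nO X Y p :=
  SymSys.R_congr _ (feq_refl _ _) (feq_symm h1) (feq_symm h2) (R_nO_nQ.2 h)

theorem forced_DLO (p : CC) : (fDLO sys.FS nW nO).holds p := by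
  refine ⟨?_, ?_, ?_, ?_, ?_, ?_⟩
  · intro X Y q hq h
    rw [SymSys.holds_fRel] at h
    have key : ∀ r ≤ q, ∃ s ≤ r, fmem X.1 nW.1 s ∧ fmem Y.1 nW.1 s := by
      intro r hr
      obtain ⟨s, hs, c, d, _, h1, h2⟩ := R_nO (SymSys.R_mono _ hr h)
      exact ⟨s, hs, fmem_congr_left (feq_symm h1) (nQ_mem c s),
        fmem_congr_left (feq_symm h2) (nQ_mem d s)⟩
    exact ⟨fmem_reg fun r hr => (key r hr).imp fun s hs => ⟨hs.1, hs.2.1⟩,
      fmem_reg fun r hr => (key r hr).imp fun s hs => ⟨hs.1, hs.2.2⟩⟩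
  · intro X q hq h
    rw [SymSys.holds_fRel] at h
    obtain ⟨s, hs, c, d, hcd, h1, h2⟩ := R_nO h
    have := nQ_inj (feq_trans (feq_symm h1) h2)
    subst this
    exact absurd hcd (lt_irrefl _)
  · intro X Y Z q hq h q' hq' h'
    rw [SymSys.holds_fRel] at h h' ⊢
    apply SymSys.R_reg
    intro r hr
    obtain ⟨s, hs, c, d, hcd, h1, h2⟩ := R_nO (SymSys.R_mono _ (hr.trans hq') h)
    obtain ⟨t, ht, c', d', hcd', h3, h4⟩ := R_nO (SymSys.R_mono _ (hs.trans hr) h')
    have e2 : d = c' := nQ_inj (feq_trans (feq_symm (feq_mono ht h2)) h3)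
    subst e2
    exact ⟨t, ht.trans hs, R_nO_of (feq_mono ht h1) h4 (hcd.trans hcd')⟩
  · intro X Y q hq h q' hq' h' r hr
    obtain ⟨s, hs, c, h1⟩ := mem_nW (fmem_mono (hr.trans hq') h)
    obtain ⟨t, ht, d, h2⟩ := mem_nW (fmem_mono (hs.trans hr) h')
    refine ⟨t, ht.trans hs, ?_⟩
    rcases lt_trichotomy c d with h3 | h3 | h3
    · left
      rw [SymSys.holds_fRel]
      exact R_nO_of (feq_mono ht h1) h2 h3
    · right
      intro t' ht'
      refine ⟨t', le_rfl, Or.inl ?_⟩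
      subst h3
      exact feq_trans (feq_mono (ht'.trans ht) h1) (feq_symm (feq_mono ht' h2))
    · right
      intro t' ht'
      refine ⟨t', le_rfl, Or.inr ?_⟩
      rw [SymSys.holds_fRel]
      exact R_nO_of (feq_mono ht' h2) (feq_mono (ht'.trans ht) h1) h3
  · intro X Y q hq h r hr
    rw [SymSys.holds_fRel] at h
    obtain ⟨s, hs, c, d, hcd, h1, h2⟩ := R_nO (SymSys.R_mono _ hr h)
    obtain ⟨e, he1, he2⟩ := exists_between hcd
    refine ⟨s, hs, nQ e, ?_, ?_⟩
    · rw [SymSys.holds_fRel]; exact R_nO_of h1 (feq_refl _ _) he1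
    · rw [SymSys.holds_fRel]; exact R_nO_of (feq_refl _ _) h2 he2
  · intro X q hq h
    constructor
    · intro r hr
      obtain ⟨s, hs, c, h1⟩ := mem_nW (fmem_mono hr h)
      refine ⟨s, hs, nQ (c + 1), ?_⟩
      rw [SymSys.holds_fRel]; exact R_nO_of h1 (feq_refl _ _) (by linarith)
    · intro r hr
      obtain ⟨s, hs, c, h1⟩ := mem_nW (fmem_mono hr h)
      refine ⟨s, hs, nQ (c - 1), ?_⟩
      rw [SymSys.holds_fRel]; exact R_nO_of (feq_refl _ _) h1 (by linarith)

/-- the raw name of the `i`-th generic cut -/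
noncomputable def gen (i : ℕ) : Name CC :=
  Name.mk {t : ℚ × CC // ∃ s, t.2.f i = some s ∧ t.1 < s.1} (fun t => (nQ t.1.1).1)
    (fun t => t.1.2)

theorem act_gen (g : Gp) (i : ℕ) (p : CC) : ((gen i).act g).feq (gen (g i)) p := by
  have aux : ∀ (g : Gp) (i : ℕ) (t : {t : ℚ × CC // ∃ s, t.2.f i = some s ∧ t.1 < s.1}),
      ∃ s, (g • t.1.2).f (g i) = some s ∧ t.1.1 < s.1 := by
    intro g i t
    rw [smul_f]
    simpa using t.2
  rw [feq_def]
  constructor
  · intro t q hq ht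
    exact ⟨q, le_rfl, ⟨(t.1.1, g • t.1.2), aux g i t⟩, ht, sys.supp_oName _ g trivial q⟩
  · intro t q hq ht
    have h2 := aux g⁻¹ (g i) t
    have h3 : g⁻¹ (g i) = i := by simp
    rw [h3] at h2
    refine ⟨q, le_rfl, ⟨(t.1.1, g⁻¹ • t.1.2), h2⟩, ?_, sys.supp_oName _ g trivial q⟩
    show q ≤ g • (g⁻¹ • t.1.2)
    rw [smul_inv_smul]
    exact ht

theorem HS_gen (i : ℕ) : sys.HS (gen i) := by
  rw [SymSys.HS_def]
  refine ⟨⟨Fix {i}, ⟨_, le_rfl⟩, fun g hg q => ?_⟩, fun t => (nQ t.1.1).2⟩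
  have := act_gen g i q
  rwa [hg i (Finset.mem_singleton_self i)] at this

/-- name of the `i`-th generic cut -/
noncomputable def nA (i : ℕ) : sys.HN := ⟨gen i, HS_gen i⟩

/-- membership of a rational in the generic cut -/
theorem nQ_mem_nA {c : ℚ} {i : ℕ} {p : CC} :
    fmem (nQ c).1 (nA i).1 p ↔ ∀ q ≤ p, ∃ r ≤ q, ∃ s, r.f i = some s ∧ c < s.1 := by
  constructor
  · intro h q hq
    obtain ⟨r, hr, ⟨⟨c', p'⟩, s, hs1, hs2⟩, h1, h2⟩ := h q hq
    have e := nQ_inj h2
    subst e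
    obtain ⟨t, ht1, ht2, ht3⟩ := h1 i s hs1
    exact ⟨r, hr, t, ht1, hs2.trans_le ht2⟩
  · intro h q hq
    obtain ⟨r, hr, s, hs1, hs2⟩ := h q hq
    exact ⟨r, hr, ⟨(c, r), s, hs1, hs2⟩, le_rfl, feq_refl _ _⟩

theorem mem_nA_of {c : ℚ} {i : ℕ} {p : CC} {s : ℚ × ℚ} (h : p.f i = some s) (hc : c < s.1) :
    fmem (nQ c).1 (nA i).1 p := by
  rw [nQ_mem_nA]
  intro q hq
  obtain ⟨t, ht1, ht2, ht3⟩ := hq i s h
  exact ⟨q, le_rfl, t, ht1, hc.trans_le ht2⟩

theorem not_mem_nA_of {c : ℚ} {i : ℕ} {p : CC} {s : ℚ × ℚ} (h : p.f i = some s) (hc : s.2 ≤ c) :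
    ¬ fmem (nQ c).1 (nA i).1 p := by
  intro h1
  rw [nQ_mem_nA] at h1
  obtain ⟨r, hr, t, ht1, ht2⟩ := h1 p le_rfl
  obtain ⟨t', ht1', ht2', ht3'⟩ := hr i s h
  rw [ht1] at ht1'
  cases ht1'
  have := r.lt i t ht1
  linarith

theorem mem_nA {X : sys.HN} {i : ℕ} {p : CC} (h : fmem X.1 (nA i).1 p) :
    ∃ q ≤ p, ∃ c s, feq X.1 (nQ c).1 q ∧ q.f i = some s ∧ c < s.1 := by
  obtain ⟨r, hr, ⟨⟨c', p'⟩, s, hs1, hs2⟩, h1, h2⟩ := h p le_rfl
  obtain ⟨t, ht1, ht2, ht3⟩ := h1 i s hs1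
  exact ⟨r, hr, c', t, h2, ht1, hs2.trans_le ht2⟩

theorem nA_ne {i j : ℕ} (hij : i ≠ j) (p : CC) : ¬ feq (nA i).1 (nA j).1 p := by
  intro h
  obtain ⟨q, hq, s, hs⟩ := exists_ext p i
  obtain ⟨r, hr, t, ht⟩ := exists_ext q j
  obtain ⟨s', hs', _, _⟩ := hr i s hs
  -- shrink to disjoint intervals
  have hs1 := r.lt i s' hs'
  have ht1 := r.lt j t ht
  -- choose a rational `c` and make `c` lie in exactly one of the two cuts
  obtain ⟨c, hc1, hc2⟩ := exists_between hs1
  rcases le_or_gt t.2 c with h1 | h1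
  · -- `j`-interval is to the left of `c`; put the `i`-interval to the right of `c`
    obtain ⟨d, hd1, hd2⟩ := exists_between hc2
    have hd3 : s'.1 ≤ d := (hc1.trans hd1).le
    have hset : r.set i (d, s'.2) hd2 ≤ r := r.set_le i _ _ (fun u hu => by
      rw [hs'] at hu
      have hu' := Option.some.inj hu
      subst hu'
      exact ⟨hd3, le_rfl⟩)
    have h2 : fmem (nQ c).1 (nA i).1 (r.set i (d, s'.2) hd2) :=
      mem_nA_of (s := (d, s'.2)) (set_f_same _ _ _ _) hd1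
    have h3 := fmem_congr_right (feq_mono (hset.trans (hr.trans hq)) h) h2
    refine not_mem_nA_of (s := t) ?_ h1 h3
    rw [set_f_ne _ _ _ hij.symm]; exact ht
  · -- `c < t.2`; put the `j`-interval to the right of `c` and the `i`-interval to the left
    have hm : max c t.1 < t.2 := max_lt h1 ht1
    obtain ⟨d, hd1, hd2⟩ := exists_between hm
    have hset1 : r.set j (d, t.2) hd2 ≤ r := r.set_le j _ _ (fun u hu => by
      rw [ht] at hu; cases hu
      exact ⟨((le_max_right _ _).trans_lt hd1).le, le_rfl⟩)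
    have hset2 : (r.set j (d, t.2) hd2).set i (s'.1, c) hc1 ≤ r.set j (d, t.2) hd2 :=
      (r.set j (d, t.2) hd2).set_le i _ _ (fun u hu => by
        rw [set_f_ne _ _ _ hij, hs'] at hu; cases hu
        exact ⟨le_rfl, hc2.le⟩)
    have h2 : fmem (nQ c).1 (nA j).1 ((r.set j (d, t.2) hd2).set i (s'.1, c) hc1) := by
      refine mem_nA_of (s := (d, t.2)) ?_ ((le_max_left _ _).trans_lt hd1)
      rw [set_f_ne _ _ _ hij.symm, set_f_same]
    have h3 := fmem_congr_right
      (feq_symm (feq_mono (hset2.trans (hset1.trans (hr.trans hq))) h)) h2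
    exact not_mem_nA_of (s := (s'.1, c)) (set_f_same _ _ _ _) (le_refl c) h3

theorem HS_nD : sys.HS (Name.mk ℕ gen fun _ => ⊤) := by
  refine sys.HS_mk_top sys.large_top ?_ HS_gen
  intro g _ i q
  exact ⟨g i, act_gen g i q⟩

/-- name of the set of generic cuts -/
noncomputable def nD : sys.HN := ⟨_, HS_nD⟩

theorem mem_nD {X : sys.HN} {p : CC} (h : fmem X.1 nD.1 p) :
    ∃ q ≤ p, ∃ i, feq X.1 (nA i).1 q := by
  obtain ⟨q, hq, i, _, h1⟩ := h p le_rfl
  exact ⟨q, hq, i, h1⟩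

theorem nA_mem (i : ℕ) (p : CC) : fmem (nA i).1 nD.1 p :=
  fun q hq => ⟨q, le_rfl, i, le_top, feq_refl _ _⟩

end CC

end Pool.Agent.H86
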