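import Pool.Agent.H86.Cohen

/-!
# The generic cuts: forced facts
-/

set_option linter.unusedVariables false
set_option linter.unusedSectionVars false

universe u v w

namespace Pool.Agent.H86

open Name

namespace CC

/-- assignment of names -/
def asg (a b c d : sys.HN) : ℕ → sys.HN := fun n => match n with
  | 0 => a
  | 1 => b
  | 2 => c
  | _ => d

theorem not_mem_nA_of' {c : ℚ} {i : ℕ} {p q : CC} {s : ℚ × ℚ} (hq : q ≤ p) (h : p.f i = some s)
    (hc : s.2 ≤ c) : ¬ fmem (nQ c).1 (nA i).1 q := by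
  obtain ⟨t, ht, _, h2⟩ := hq i s h
  exact not_mem_nA_of ht (h2.trans hc)

theorem cut_nA (i : ℕ) (p : CC) : (fCut sys.FS nW nO (nA i)).holds p := by
  refine ⟨?_, ?_, ?_, ?_, ?_⟩
  · intro X q hq h
    show fmem X.1 nW.1 q
    apply fmem_reg
    intro r hr
    obtain ⟨s, hs, c, t, h1, _, _⟩ := mem_nA (fmem_mono hr h)
    exact ⟨s, hs, fmem_congr_left (feq_symm h1) (nQ_mem c s)⟩
  · intro q hq
    obtain ⟨r, hr, s, hs⟩ := exists_ext q i
    exact ⟨r, hr, nQ (s.1 - 1), mem_nA_of hs (by linarith)⟩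
  · intro q hq
    obtain ⟨r, hr, s, hs⟩ := exists_ext q i
    refine ⟨r, hr, nQ s.2, nQ_mem _ _, ?_⟩
    intro r' hr' h
    exact not_mem_nA_of' hr' hs le_rfl h
  · intro X Y q hq h q' hq' h'
    rw [SymSys.holds_fRel] at h'
    show fmem Y.1 (nA i).1 q'
    apply fmem_reg
    intro r hr
    obtain ⟨s, hs, c, t, h1, h2, h3⟩ := mem_nA (fmem_mono (hr.trans hq') h)
    obtain ⟨s', hs', c', d', hcd', h4, h5⟩ := R_nO (SymSys.R_mono _ (hs.trans hr) h')
    have e : c = d' := nQ_inj (feq_trans (feq_symm (feq_mono hs' h1)) h5)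
    subst e
    obtain ⟨t', ht', ht1, ht2⟩ := hs' i t h2
    exact ⟨s', hs'.trans hs, fmem_congr_left (feq_symm h4)
      (mem_nA_of ht' ((hcd'.trans h3).trans_le ht1))⟩
  · intro X q hq h r hr
    obtain ⟨s, hs, c, t, h1, h2, h3⟩ := mem_nA (fmem_mono hr h)
    obtain ⟨e, he1, he2⟩ := exists_between h3
    refine ⟨s, hs, nQ e, mem_nA_of h2 he2, ?_⟩
    rw [SymSys.holds_fRel]
    exact R_nO_of h1 (feq_refl _ _) he1

theorem exists_fresh (p : CC) (e : Finset ℕ) : ∃ i, i ∉ e ∧ p.f i = none := by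
  classical
  obtain ⟨i, hi⟩ := Infinite.exists_notMem_finset (e ∪ p.fin.toFinset)
  refine ⟨i, fun h => hi (Finset.mem_union_left _ h), ?_⟩
  by_contra hc
  exact hi (Finset.mem_union_right _ (by simpa using hc))

theorem forced_dense (p : CC) : (fDense sys.FS nW nO nD).holds p := by
  refine ⟨?_, ?_, ?_⟩
  · intro D q hq h
    apply (fCut sys.FS nW nO D).reg
    intro r hr
    obtain ⟨s, hs, i, h1⟩ := mem_nD (fmem_mono hr h)
    refine ⟨s, hs, ?_⟩
    have := (sys.eval_eq_iff (fCut codeStr 0 1 2 3) (asg nW nO D D) (asg nW nO (nA i) (nA i)) s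
      ?_).2 (cut_nA i s)
    · exact this
    · intro k hk
      match k with
      | 0 => exact feq_refl _ _
      | 1 => exact feq_refl _ _
      | 2 => exact h1
      | k + 3 => exact h1
  · intro X Y q hq h r hr
    rw [SymSys.holds_fRel] at h
    obtain ⟨s, hs, c, d, hcd, h1, h2⟩ := R_nO (SymSys.R_mono _ hr h)
    obtain ⟨i, _, hi⟩ := exists_fresh s ∅
    obtain ⟨e, he1, he2⟩ := exists_between hcd
    have hle : s.set i (e, d) he2 ≤ s := s.set_le i _ _ (fun t ht => by
      rw [hi] at ht; cases ht)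
    refine ⟨s.set i (e, d) he2, hle.trans hs, nA i, nA_mem i _, ?_, ?_⟩
    · exact fmem_congr_left (feq_symm (feq_mono hle h1))
        (mem_nA_of (s := (e, d)) (set_f_same _ _ _ _) he1)
    · intro r' hr' h'
      exact not_mem_nA_of' (s := (e, d)) hr' (set_f_same _ _ _ _) (le_refl d)
        (fmem_congr_left (feq_mono (hr'.trans hle) h2) h')
  · intro D q hq h X q' hq' h' q'' hq'' h''
    obtain ⟨s, hs, i, h1⟩ := mem_nD (fmem_mono (hq''.trans hq') h)
    obtain ⟨t, ht, c, h2⟩ := mem_nW (fmem_mono (hs.trans hq'') h')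
    obtain ⟨u, hu, I, hI⟩ := exists_ext t i
    have hlt := u.lt i I hI
    rcases lt_or_ge c I.2 with h3 | h3
    · obtain ⟨d, hd1, hd2⟩ := exists_between (max_lt h3 hlt)
      have hle : u.set i (d, I.2) hd2 ≤ u := u.set_le i _ _ (fun t ht => by
        rw [hI] at ht
        have ht' := Option.some.inj ht
        subst ht'
        exact ⟨((le_max_right _ _).trans_lt hd1).le, le_rfl⟩)
      have h4 : fmem (nQ c).1 (nA i).1 (u.set i (d, I.2) hd2) :=
        mem_nA_of (s := (d, I.2)) (set_f_same _ _ _ _) ((le_max_left _ _).trans_lt hd1)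
      have h5 : fmem X.1 D.1 (u.set i (d, I.2) hd2) :=
        fmem_congr_left (feq_symm (feq_mono (hle.trans hu) h2))
          (fmem_congr_right (feq_symm (feq_mono (hle.trans (hu.trans ht)) h1)) h4)
      have h6 := (h'' X).1 _ (hle.trans (hu.trans (ht.trans hs))) h5
      rw [SymSys.holds_fRel] at h6
      have h7 := SymSys.R_congr _ (feq_refl _ _) (feq_mono (hle.trans hu) h2)
        (feq_mono (hle.trans hu) h2) h6
      exact absurd (R_nO_nQ.1 h7) (lt_irrefl _)
    · obtain ⟨m, hm1, hm2⟩ := exists_between hlt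
      have hle : u.set i (I.1, m) hm1 ≤ u := u.set_le i _ _ (fun t ht => by
        rw [hI] at ht
        have ht' := Option.some.inj ht
        subst ht'
        exact ⟨le_rfl, hm2.le⟩)
      have h4 : sys.R nO (nQ m) X (u.set i (I.1, m) hm1) :=
        R_nO_of (feq_refl _ _) (feq_mono (hle.trans hu) h2) (hm2.trans_le h3)
      rw [← SymSys.holds_fRel] at h4
      have h5 := (h'' (nQ m)).2 _ (hle.trans (hu.trans (ht.trans hs))) h4
      have h6 := fmem_congr_right (feq_mono (hle.trans (hu.trans ht)) h1) h5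
      exact not_mem_nA_of' (s := (I.1, m)) le_rfl (set_f_same _ _ _ _) (le_refl m) h6

/-- compatibility with a transposed condition -/
theorem compat_swap (q : CC) (i j : ℕ) (hij : i ≠ j) (hj : q.f j = none) :
    ∃ r, r ≤ q ∧ r ≤ (Equiv.swap i j : Gp) • q := by
  classical
  refine ⟨⟨fun k => if k = j then q.f i else q.f k, ?_, ?_⟩, ?_, ?_⟩
  · refine (q.fin.union (Set.finite_singleton j)).subset ?_
    intro k hk
    by_cases hkj : k = j
    · exact Or.inr hkj
    · left
      simpa [hkj] using hk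
  · intro k s hk
    by_cases hkj : k = j
    · rw [if_pos hkj] at hk; exact q.lt i s hk
    · rw [if_neg hkj] at hk; exact q.lt k s hk
  · intro k s hk
    refine ⟨s, ?_, le_rfl, le_rfl⟩
    have hkj : k ≠ j := fun h => by rw [h, hj] at hk; cases hk
    show (if k = j then q.f i else q.f k) = some s
    rw [if_neg hkj]; exact hk
  · intro k s hk
    rw [smul_f] at hk
    refine ⟨s, ?_, le_rfl, le_rfl⟩
    show (if k = j then q.f i else q.f k) = some s
    have e : (Equiv.swap i j : Gp)⁻¹ k = Equiv.swap i j k := by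
      rw [Equiv.swap_inv]
    rw [e] at hk
    by_cases hkj : k = j
    · rw [if_pos hkj]
      subst hkj
      rwa [Equiv.swap_apply_right] at hk
    · rw [if_neg hkj]
      by_cases hki : k = i
      · subst hki
        rw [Equiv.swap_apply_left, hj] at hk
        cases hk
      · rwa [Equiv.swap_apply_of_ne_of_ne hki hkj] at hk

/-- a function from `ω` to `D` only takes values in its support -/
theorem val_mem_supp {g : sys.HN} {e : Finset ℕ} (he : sys.Supp (Fix e) g.1) {q : CC}
    (hf : (fFun sys.FS g).holds q) {c : ℚ} {i : ℕ} (h : sys.R g (nQ c) (nA i) q) : i ∈ e := by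
  by_contra hi
  obtain ⟨j, hj1, hj2⟩ := exists_fresh q (insert i e)
  have hj3 : j ≠ i := fun h => hj1 (by rw [h]; exact Finset.mem_insert_self _ _)
  have hj4 : j ∉ e := fun h => hj1 (Finset.mem_insert_of_mem h)
  set π : Gp := Equiv.swap i j with hπ
  have hfix : π ∈ Fix e := by
    intro k hk
    apply Equiv.swap_apply_of_ne_of_ne
    · rintro rfl; exact hi hk
    · rintro rfl; exact hj4 hk
  obtain ⟨r, hr1, hr2⟩ := compat_swap q i j hj3.symm hj2
  have h1 : sys.R g (nQ c) (nA j) (π • q) := by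
    have h2 := (sys.eval_supp (fRel codeStr 0 1 2 3) (asg g (nQ c) (nA i) g)
      (asg g (nQ c) (nA j) g) (g := π) (p := q) ?_).1 (SymSys.holds_fRel _ |>.2 h)
    · exact (SymSys.holds_fRel _).1 h2
    · intro k hk
      match k with
      | 0 => exact he π hfix _
      | 1 => exact sys.supp_oName _ π trivial _
      | 2 =>
        have h3 := act_gen π i (π • q)
        have h4 : π i = j := Equiv.swap_apply_left i j
        rw [h4] at h3
        exact h3
      | k + 3 => exact he π hfix _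
  have h2 := hf.2 (nQ c) (nA i) (nA j) r hr1 ((SymSys.holds_fRel _).2 (SymSys.R_mono _ hr1 h)) r
    le_rfl ((SymSys.holds_fRel _).2 (SymSys.R_mono _ hr2 h1))
  exact nA_ne hj3.symm r h2

/-- extension defined at all indices in a finite set, with a common bound -/
theorem exists_ext_finset (p : CC) (e : Finset ℕ) :
    ∃ q ≤ p, ∃ B : ℚ, ∀ i ∈ e, ∃ s, q.f i = some s ∧ s.2 ≤ B := by
  classical
  induction e using Finset.induction_on with
  | empty => exact ⟨p, le_rfl, 0, by simp⟩
  | insert a e ha ih =>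
    obtain ⟨q, hq, B, hB⟩ := ih
    obtain ⟨r, hr, s, hs⟩ := exists_ext q a
    refine ⟨r, hr.trans hq, max B s.2, ?_⟩
    intro i hi
    rcases Finset.mem_insert.1 hi with rfl | hi
    · exact ⟨s, hs, le_max_right _ _⟩
    · obtain ⟨t, ht, ht2⟩ := hB i hi
      obtain ⟨t', ht', _, h3⟩ := hr i t ht
      exact ⟨t', ht', (h3.trans ht2).trans (le_max_left _ _)⟩

theorem forced_bdd (p : CC) : (fBdd sys.FS nW nD).holds p := by
  intro g q hq hfun q1 hq1 _ q2 hq2 hran q3 hq3
  obtain ⟨e, he⟩ := exists_fix g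
  obtain ⟨r, hr, B, hB⟩ := exists_ext_finset q3 e
  refine ⟨r, hr, nQ B, nQ_mem _ _, ?_⟩
  intro k d s hs hrel t ht hmem
  have hsq : s ≤ q2 := hs.trans (hr.trans hq3)
  obtain ⟨hk, hd⟩ := hran k d s hsq hrel
  rw [SymSys.holds_fRel] at hrel
  obtain ⟨u, hu, c, h1⟩ := mem_nW (fmem_mono ht hk)
  obtain ⟨v, hv, i, h2⟩ := mem_nD (fmem_mono (hu.trans ht) hd)
  have h3 : sys.R g (nQ c) (nA i) v :=
    SymSys.R_congr _ (feq_refl _ _) (feq_mono hv h1) h2
      (SymSys.R_mono _ (hv.trans (hu.trans ht)) hrel)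
  have hvq : v ≤ q := (hv.trans (hu.trans ht)).trans (hsq.trans (hq2.trans hq1))
  have hi : i ∈ e := val_mem_supp he ((fFun sys.FS g).mono hvq hfun) h3
  obtain ⟨I, hI1, hI2⟩ := hB i hi
  have h4 := fmem_congr_right h2 (fmem_mono (hv.trans hu) hmem)
  exact not_mem_nA_of' ((hv.trans (hu.trans ht)).trans hs) hI1 hI2 h4

end CC

end Pool.Agent.H86
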