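import Pool.Agent.H86.Ord

/-!
# The Levy collapse of the inaccessible `Ordinal.{0}` and its symmetric system
-/

set_option linter.unusedVariables false
set_option linter.unusedSectionVars false

universe u v w

namespace Pool.Agent.H86

/-- index and value type: the ordinals of the lowest universe -/
abbrev O0 : Type 1 := Ordinal.{0}

/-- Conditions of the collapse: finite partial functions `p` from `O0 × ℕ` to `O0`
with `p (α, n) < α`. -/
@[ext] structure Cond : Type 1 where
  f : O0 × ℕ → Option O0
  fin : {x | f x ≠ none}.Finite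
  lt : ∀ x γ, f x = some γ → γ < x.1

namespace Cond

instance : PartialOrder Cond where
  le := fun p q => ∀ x γ, q.f x = some γ → p.f x = some γ
  le_refl := fun p x γ h => h
  le_trans := fun p q r h1 h2 x γ h => h1 x γ (h2 x γ h)
  le_antisymm := fun p q h1 h2 => by
    ext x γ
    exact ⟨h2 x γ, h1 x γ⟩

theorem le_def {p q : Cond} : p ≤ q ↔ ∀ x γ, q.f x = some γ → p.f x = some γ := Iff.rfl

instance : OrderTop Cond where
  top := ⟨fun _ => none, by simp, by simp⟩
  le_top := fun p x γ h => by simp at h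

theorem top_f (x : O0 × ℕ) : (⊤ : Cond).f x = none := rfl

/-- compatibility -/
def Comp (p q : Cond) : Prop := ∃ r : Cond, r ≤ p ∧ r ≤ q

theorem Comp.symm {p q : Cond} (h : Comp p q) : Comp q p := by
  obtain ⟨r, h1, h2⟩ := h; exact ⟨r, h2, h1⟩

/-- union of two conditions, preferring the first -/
noncomputable def un (p q : Cond) : Cond where
  f := fun x => (p.f x).orElse fun _ => q.f x
  fin := by
    refine (p.fin.union q.fin).subset ?_
    intro x hx
    simp only [Set.mem_ofPred_eq, Set.mem_union] at hx ⊢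
    by_contra hc
    push Not at hc
    rw [hc.1, hc.2] at hx
    exact hx rfl
  lt := by
    intro x γ h
    cases hp : p.f x with
    | none => rw [hp] at h; exact q.lt x γ h
    | some a => rw [hp] at h; cases h; exact p.lt x _ hp

theorem un_le_left (p q : Cond) : un p q ≤ p := by
  intro x γ h
  show (p.f x).orElse _ = _
  rw [h]; rfl

theorem un_le_right {p q : Cond} (h : ∀ x a b, p.f x = some a → q.f x = some b → a = b) :
    un p q ≤ q := by
  intro x γ hx
  show (p.f x).orElse _ = _
  cases hp : p.f x with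
  | none => exact hx
  | some a => rw [h x a γ hp hx]; rfl

theorem comp_iff {p q : Cond} :
    Comp p q ↔ ∀ x a b, p.f x = some a → q.f x = some b → a = b := by
  constructor
  · rintro ⟨r, h1, h2⟩ x a b ha hb
    have e1 := h1 x a ha
    have e2 := h2 x b hb
    rw [e1] at e2
    exact Option.some.inj e2
  · intro h
    exact ⟨un p q, un_le_left p q, un_le_right h⟩

open Classical in
/-- restriction to coordinates below `β` -/
noncomputable def res (p : Cond) (β : O0) : Cond where
  f := fun x => if x.1 < β then p.f x else none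
  fin := p.fin.subset fun x hx => by
    simp only [Set.mem_ofPred_eq] at hx ⊢
    intro h; apply hx; simp [h]
  lt := fun x γ h => by
    by_cases hx : x.1 < β
    · simp only [hx, if_true] at h; exact p.lt x γ h
    · simp [hx] at h

theorem res_f_of_lt {p : Cond} {β : O0} {x : O0 × ℕ} (h : x.1 < β) :
    (p.res β).f x = p.f x := by simp [res, h]

theorem res_f_of_not_lt {p : Cond} {β : O0} {x : O0 × ℕ} (h : ¬ x.1 < β) :
    (p.res β).f x = none := by simp [res, h]

theorem le_res (p : Cond) (β : O0) : p ≤ p.res β := by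
  intro x γ h
  by_cases hx : x.1 < β
  · rwa [res_f_of_lt hx] at h
  · rw [res_f_of_not_lt hx] at h; cases h

theorem res_mono {p q : Cond} (h : p ≤ q) (β : O0) : p.res β ≤ q.res β := by
  intro x γ hx
  by_cases hx' : x.1 < β
  · rw [res_f_of_lt hx'] at hx ⊢; exact h x γ hx
  · rw [res_f_of_not_lt hx'] at hx; cases hx

/-- conditions with all coordinates below `β` -/
def Below (β : O0) : Set Cond := {p | ∀ x, p.f x ≠ none → x.1 < β}

theorem res_mem (p : Cond) (β : O0) : p.res β ∈ Below β := by
  intro x hx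
  by_contra h
  exact hx (res_f_of_not_lt h)

theorem res_eq {p : Cond} {β : O0} (h : p ∈ Below β) : p.res β = p := by
  ext x γ
  by_cases hx : x.1 < β
  · rw [res_f_of_lt hx]
  · rw [res_f_of_not_lt hx]
    have : p.f x = none := by
      by_contra hc; exact hx (h x hc)
    rw [this]

theorem Below_mono {β β' : O0} (h : β ≤ β') : Below β ⊆ Below β' :=
  fun p hp x hx => (hp x hx).trans_le h

theorem exists_below (p : Cond) : ∃ β, p ∈ Below β := by
  have h := p.fin
  obtain ⟨B, hB⟩ : BddAbove (Prod.fst '' {x | p.f x ≠ none}) :=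
    (h.image Prod.fst).bddAbove
  refine ⟨B + 1, fun x hx => Order.lt_add_one_iff.2 (hB ⟨x, hx, rfl⟩)⟩

instance small_below (β : O0) : Small.{0} (Below β) := by
  let F : Below β → Set (Set.Iio β × ℕ × Set.Iio β) := fun p =>
    {t | p.1.f (t.1.1, t.2.1) = some t.2.2.1}
  have hF : Function.Injective F := by
    intro p q h
    apply Subtype.ext
    ext x γ
    have aux : ∀ p : Below β, p.1.f x = some γ ↔
        ∃ (h1 : x.1 < β) (h2 : γ < β), (⟨x.1, h1⟩, x.2, ⟨γ, h2⟩) ∈ F p := by
      intro p
      constructor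
      · intro hp
        have h1 : x.1 < β := p.2 x (by rw [hp]; simp)
        exact ⟨h1, (p.1.lt x γ hp).trans h1, hp⟩
      · rintro ⟨h1, h2, h3⟩; exact h3
    rw [aux p, aux q, h]
  exact small_of_injective hF

/-- the group -/
abbrev Gp : Type 1 := O0 → Equiv.Perm ℕ

noncomputable instance : MulAction Gp Cond where
  smul := fun g p => ⟨fun x => p.f (x.1, (g x.1)⁻¹ x.2), by
      refine (p.fin.image (fun x : O0 × ℕ => (x.1, g x.1 x.2))).subset ?_
      intro x hx
      exact ⟨(x.1, (g x.1)⁻¹ x.2), hx, by simp⟩, fun x γ h => p.lt (x.1, (g x.1)⁻¹ x.2) γ h⟩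
  one_smul := fun p => by
    ext x γ
    show p.f (x.1, _) = some γ ↔ _
    simp
  mul_smul := fun g h p => by
    ext x γ
    show p.f (x.1, ((g * h) x.1)⁻¹ x.2) = some γ ↔ p.f (x.1, (h x.1)⁻¹ ((g x.1)⁻¹ x.2)) = some γ
    simp

theorem smul_f (g : Gp) (p : Cond) (x : O0 × ℕ) : (g • p).f x = p.f (x.1, (g x.1)⁻¹ x.2) := rfl

/-- the subgroup of elements that are trivial below `β` -/
def Fix (β : O0) : Subgroup Gp where
  carrier := {g | ∀ α < β, g α = 1}
  one_mem' := fun α _ => rfl
  mul_mem' := fun {a b} ha hb α hα => by simp [ha α hα, hb α hα]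
  inv_mem' := fun {a} ha α hα => by simp [ha α hα]

theorem mem_Fix {β : O0} {g : Gp} : g ∈ Fix β ↔ ∀ α < β, g α = 1 := Iff.rfl

theorem Fix_anti {β β' : O0} (h : β ≤ β') : Fix β' ≤ Fix β :=
  fun g hg α hα => hg α (hα.trans_le h)

/-- the symmetric system -/
noncomputable def sys : SymSys Cond Gp where
  smul_mono := fun g p q h x γ hx => h _ _ hx
  large := fun H => ∃ β, Fix β ≤ H
  large_top := ⟨0, le_top⟩
  large_inf := by
    rintro H K ⟨β, hβ⟩ ⟨β', hβ'⟩
    exact ⟨max β β', le_inf ((Fix_anti (le_max_left _ _)).trans hβ)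
      ((Fix_anti (le_max_right _ _)).trans hβ')⟩
  large_conj := by
    rintro g H ⟨β, hβ⟩
    refine ⟨Fix β, ⟨β, le_rfl⟩, fun k hk => hβ fun α hα => ?_⟩
    show (g α)⁻¹ * k α * g α = 1
    rw [hk α hα]; simp

/-- swapping `[0, N)` and `[N, 2N)` -/
def swf (N n : ℕ) : ℕ := if n < N then n + N else if n < 2 * N then n - N else n

theorem swf_swf (N n : ℕ) : swf N (swf N n) = n := by
  unfold swf
  split_ifs <;> omega

/-- the same as a permutation -/
def swapN (N : ℕ) : Equiv.Perm ℕ where
  toFun := swf N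
  invFun := swf N
  left_inv := swf_swf N
  right_inv := swf_swf N

theorem swapN_inv_lt {N n : ℕ} (h : n < N) : N ≤ (swapN N)⁻¹ n := by
  show N ≤ swf N n
  simp [swf, h]

/-- homogeneity -/
theorem homog (β : O0) (r s : Cond) (h : s ≤ r.res β) : ∃ g ∈ Fix β, Comp (g • r) s := by
  classical
  obtain ⟨N, hN⟩ : ∃ N, ∀ x, (r.f x ≠ none ∨ s.f x ≠ none) → x.2 < N := by
    have h1 : BddAbove (Prod.snd '' ({x | r.f x ≠ none} ∪ {x | s.f x ≠ none})) :=
      ((r.fin.union s.fin).image Prod.snd).bddAbove
    obtain ⟨B, hB⟩ := h1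
    exact ⟨B + 1, fun x hx => Nat.lt_succ_of_le (hB ⟨x, hx, rfl⟩)⟩
  refine ⟨fun α => if α < β then 1 else swapN N, fun α hα => by simp [hα], ?_⟩
  rw [comp_iff]
  intro x a b ha hb
  rw [smul_f] at ha
  by_cases hx : x.1 < β
  · simp only [hx, if_true, inv_one, Equiv.Perm.coe_one, id_eq] at ha
    have h1 := h x a (by rw [res_f_of_lt hx]; exact ha)
    rw [h1] at hb
    exact Option.some.inj hb
  · exfalso
    simp only [hx, if_false] at ha
    have h1 := hN _ (Or.inl (by rw [ha]; simp) : r.f (x.1, (swapN N)⁻¹ x.2) ≠ none ∨ _)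
    have h2 := hN x (Or.inr (by rw [hb]; simp))
    have h3 := swapN_inv_lt h2
    simp only at h1
    omega

/-- The chain condition: antichains are small. -/
theorem antichain_small (A : Set Cond) (hA : ∀ p ∈ A, ∀ q ∈ A, Comp p q → p = q) :
    Small.{0} A := by
  classical
  choose sb hsb using exists_below
  let a : Cond → Cond := fun p => if h : ∃ q ∈ A, Comp q p then h.choose else ⊤
  -- the closure step
  have hstep : ∀ β : O0, ∃ β' : O0, β ≤ β' ∧ ∀ p ∈ Below β, a p ∈ Below β' := by
    intro β
    have : BddAbove (Set.range fun p : Below β => sb (a p.1)) :=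
      Ordinal.bddAbove_of_small
    obtain ⟨B, hB⟩ := this
    refine ⟨max β B, le_max_left _ _, fun p hp => ?_⟩
    exact Below_mono ((hB ⟨⟨p, hp⟩, rfl⟩).trans (le_max_right _ _)) (hsb _)
  choose nx hnx1 hnx2 using hstep
  let b : ℕ → O0 := fun n => nx^[n] 0
  have hb : ∀ n, b (n + 1) = nx (b n) := fun n => Function.iterate_succ_apply' _ _ _
  have hbm : Monotone b := monotone_nat_of_le_succ fun n => by rw [hb]; exact hnx1 _
  obtain ⟨B, hB⟩ : BddAbove (Set.range b) := Ordinal.bddAbove_of_small
  -- use the supremum of the sequence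
  set β := sSup (Set.range b) with hβ
  have hbβ : ∀ n, b n ≤ β := fun n => le_csSup ⟨B, hB⟩ ⟨n, rfl⟩
  have hlt : ∀ γ < β, ∃ n, γ < b n := by
    intro γ hγ
    obtain ⟨_, ⟨n, rfl⟩, hn⟩ := exists_lt_of_lt_csSup (Set.range_nonempty b) hγ
    exact ⟨n, hn⟩
  have hsub : A ⊆ Below β := by
    intro p hp
    -- the restriction of `p` lies below some `b n`
    obtain ⟨n, hn⟩ : ∃ n, p.res β ∈ Below (b n) := by
      have hfin : (Prod.fst '' {x | (p.res β).f x ≠ none}).Finite := (p.res β).fin.image _
      have : ∀ s : Set O0, s.Finite → (∀ γ ∈ s, γ < β) → ∃ n, ∀ γ ∈ s, γ < b n := by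
        intro s hs
        induction s, hs using Set.Finite.induction_on with
        | empty => intro _; exact ⟨0, by simp⟩
        | insert _ _ ih =>
          intro h
          obtain ⟨n, hn⟩ := ih fun γ hγ => h γ (Set.mem_insert_of_mem _ hγ)
          obtain ⟨m, hm⟩ := hlt _ (h _ (Set.mem_insert _ _))
          refine ⟨max m n, ?_⟩
          rintro γ (rfl | hγ)
          · exact hm.trans_le (hbm (le_max_left _ _))
          · exact (hn γ hγ).trans_le (hbm (le_max_right _ _))
      obtain ⟨n, hn⟩ := this _ hfin (by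
        rintro _ ⟨x, hx, rfl⟩; exact res_mem p β x hx)
      exact ⟨n, fun x hx => hn _ ⟨x, hx, rfl⟩⟩
    have hex : ∃ q ∈ A, Comp q (p.res β) := ⟨p, hp, p, le_rfl, le_res p β⟩
    have ha : a (p.res β) = hex.choose := dif_pos hex
    have h1 : a (p.res β) ∈ A := by rw [ha]; exact hex.choose_spec.1
    have h2 : Comp (a (p.res β)) (p.res β) := by rw [ha]; exact hex.choose_spec.2
    have h3 : a (p.res β) ∈ Below β := by
      refine Below_mono (hbβ (n + 1)) ?_
      rw [hb]
      exact hnx2 _ _ hn
    have h4 : Comp (a (p.res β)) p := by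
      rw [comp_iff] at h2 ⊢
      intro x c d hc hd
      have hx : x.1 < β := h3 x (by rw [hc]; simp)
      exact h2 x c d hc (by rw [res_f_of_lt hx]; exact hd)
    rw [← hA _ h1 _ hp h4]
    exact h3
  exact small_subset hsub

end Cond

end Pool.Agent.H86
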