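import Pool.Agent.H86.Narrow

/-!
# The Levy collapse: the ground model collapse is narrow but not uniformly narrow
-/

set_option linter.unusedVariables false
set_option linter.unusedSectionVars false

universe u v w

namespace Pool.Agent.H86

open Name

namespace Cond

/-- coding of conditions by ordinals -/
noncomputable def code (c : Cond) : Ordinal.{1} := Ordinal.typein WellOrderingRel c

/-- the ordinal that codes the collapse -/
noncomputable def Lam : Ordinal.{1} := Ordinal.type (WellOrderingRel : Cond → Cond → Prop)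

theorem code_lt (c : Cond) : code c < Lam := Ordinal.typein_lt_type _ _

theorem code_inj {c d : Cond} (h : code c = code d) : c = d :=
  Ordinal.typein_injective _ h

theorem code_surj {α : Ordinal.{1}} (h : α < Lam) : ∃ c, code c = α :=
  Ordinal.typein_surj _ h

/-- name of the underlying set of the forcing -/
noncomputable def nP : sys.HN := sys.hO Lam

/-- name of the order -/
noncomputable def nR : sys.HN :=
  sys.chk (ι := {t : Cond × Cond // t.1 ≤ t.2}) (fun t => code t.1.1) (fun t => code t.1.2)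

/-- name of the largest condition -/
noncomputable def nT : sys.HN := sys.hO (code ⊤)

/-- name of a condition -/
noncomputable def nC (c : Cond) : sys.HN := sys.hO (code c)

theorem mem_nP {X : sys.HN} {p : Cond} (h : fmem X.1 nP.1 p) :
    ∃ q ≤ p, ∃ c, feq X.1 (nC c).1 q := by
  obtain ⟨q, hq, α, hα, h1⟩ := fmem_oName.1 h p le_rfl
  obtain ⟨c, rfl⟩ := code_surj hα
  exact ⟨q, hq, c, h1⟩

theorem nC_mem (c p : Cond) : fmem (nC c).1 nP.1 p := fmem_oName_of_lt (code_lt c) p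

theorem nC_inj {c d p : Cond} (h : feq (nC c).1 (nC d).1 p) : c = d :=
  code_inj (feq_oName_iff.1 h)

theorem R_nR {X Y : sys.HN} {p : Cond} (h : sys.R nR X Y p) :
    ∃ q ≤ p, ∃ c d, c ≤ d ∧ feq X.1 (nC c).1 q ∧ feq Y.1 (nC d).1 q := by
  unfold nR at h
  rw [SymSys.R_chk] at h
  obtain ⟨q, hq, ⟨⟨c, d⟩, hcd⟩, h1, h2⟩ := h p le_rfl
  exact ⟨q, hq, c, d, hcd, h1, h2⟩

theorem R_nR_nC {c d p : Cond} : sys.R nR (nC c) (nC d) p ↔ c ≤ d := by
  unfold nR nC
  rw [SymSys.R_chk_hO]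
  constructor
  · rintro ⟨⟨⟨a, b⟩, hab⟩, h1, h2⟩
    have e1 := code_inj h1
    have e2 := code_inj h2
    simp only at e1 e2 hab
    rwa [e1, e2] at hab
  · intro h
    exact ⟨⟨⟨c, d⟩, h⟩, rfl, rfl⟩

theorem forced_order (p : Cond) : (fOrder sys.FS nP nR nT).holds p := by
  refine ⟨nC_mem ⊤ p, ?_, ?_, ?_, ?_, ?_⟩
  · intro X Y q hq h
    rw [SymSys.holds_fRel] at h
    have key : ∀ r ≤ q, ∃ s ≤ r, fmem X.1 nP.1 s ∧ fmem Y.1 nP.1 s := by
      intro r hr
      obtain ⟨s, hs, c, d, _, h1, h2⟩ := R_nR (SymSys.R_mono _ hr h)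
      exact ⟨s, hs, fmem_congr_left (feq_symm h1) (nC_mem c s),
        fmem_congr_left (feq_symm h2) (nC_mem d s)⟩
    exact ⟨fmem_reg fun r hr => (key r hr).imp fun s hs => ⟨hs.1, hs.2.1⟩,
      fmem_reg fun r hr => (key r hr).imp fun s hs => ⟨hs.1, hs.2.2⟩⟩
  · intro X q hq h
    rw [SymSys.holds_fRel]
    apply SymSys.R_reg
    intro r hr
    obtain ⟨s, hs, c, h1⟩ := mem_nP (fmem_mono hr h)
    exact ⟨s, hs, SymSys.R_congr _ (feq_refl _ _) (feq_symm h1) (feq_symm h1)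
      (R_nR_nC.2 (le_refl c))⟩
  · intro X Y q hq h q' hq' h'
    rw [SymSys.holds_fRel] at h h'
    refine feq_reg fun r hr => ?_
    obtain ⟨s, hs, c, d, hcd, h1, h2⟩ := R_nR (SymSys.R_mono _ (hr.trans hq') h)
    obtain ⟨t, ht, c', d', hcd', h3, h4⟩ := R_nR (SymSys.R_mono _ (hs.trans hr) h')
    have e1 : c = d' := nC_inj (feq_trans (feq_symm (feq_mono ht h1)) h4)
    have e2 : d = c' := nC_inj (feq_trans (feq_symm (feq_mono ht h2)) h3)
    subst e1 e2
    have e3 : c = d := le_antisymm hcd hcd'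
    subst e3
    exact ⟨s, hs, feq_trans h1 (feq_symm h2)⟩
  · intro X Y Z q hq h q' hq' h'
    rw [SymSys.holds_fRel] at h h' ⊢
    apply SymSys.R_reg
    intro r hr
    obtain ⟨s, hs, c, d, hcd, h1, h2⟩ := R_nR (SymSys.R_mono _ (hr.trans hq') h)
    obtain ⟨t, ht, c', d', hcd', h3, h4⟩ := R_nR (SymSys.R_mono _ (hs.trans hr) h')
    have e2 : d = c' := nC_inj (feq_trans (feq_symm (feq_mono ht h2)) h3)
    subst e2
    exact ⟨t, ht.trans hs, SymSys.R_congr _ (feq_refl _ _) (feq_symm (feq_mono ht h1))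
      (feq_symm h4) (R_nR_nC.2 (hcd.trans hcd'))⟩
  · intro X q hq h
    rw [SymSys.holds_fRel]
    apply SymSys.R_reg
    intro r hr
    obtain ⟨s, hs, c, h1⟩ := mem_nP (fmem_mono hr h)
    exact ⟨s, hs, SymSys.R_congr _ (feq_refl _ _) (feq_symm h1) (feq_refl _ _)
      (R_nR_nC.2 (le_top : c ≤ ⊤))⟩

theorem holds_compat {c d p : Cond} (h : Comp c d) :
    (fCompat sys.FS nP nR (nC c) (nC d)).holds p := by
  obtain ⟨e, h1, h2⟩ := h
  intro q hq
  refine ⟨q, le_rfl, nC e, nC_mem e q, ?_, ?_⟩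
  · rw [SymSys.holds_fRel]; exact R_nR_nC.2 h1
  · rw [SymSys.holds_fRel]; exact R_nR_nC.2 h2

theorem compat_of_holds {X Y : sys.HN} {c d p : Cond} (h1 : feq X.1 (nC c).1 p)
    (h2 : feq Y.1 (nC d).1 p) (h : (fCompat sys.FS nP nR X Y).holds p) : Comp c d := by
  obtain ⟨q, hq, Z, _, h3, h4⟩ := h p le_rfl
  rw [SymSys.holds_fRel] at h3 h4
  obtain ⟨r, hr, a, b, hab, h5, h6⟩ := R_nR h3
  obtain ⟨s, hs, a', b', hab', h7, h8⟩ := R_nR (SymSys.R_mono _ hr h4)
  have e1 : a = a' := nC_inj (feq_trans (feq_symm (feq_mono hs h5)) h7)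
  have e2 : b = c := nC_inj (feq_trans (feq_symm h6) (feq_mono (hr.trans hq) h1))
  have e3 : b' = d := nC_inj (feq_trans (feq_symm h8) (feq_mono (hs.trans (hr.trans hq)) h2))
  subst e1 e2 e3
  exact ⟨a, hab, hab'⟩

/-- Restriction of forcing conditions to a support. -/
theorem holds_res {β : O0} (φ : Fml) (f : ℕ → sys.HN)
    (hf : ∀ i, sys.Supp (Fix β) (f i).1) {r : Cond} (h : (φ.eval sys.FS f).holds r) :
    (φ.eval sys.FS f).holds (r.res β) := by
  apply (φ.eval sys.FS f).reg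
  intro s hs
  obtain ⟨g, hg, t, ht1, ht2⟩ := homog β r s hs
  refine ⟨t, ht2, (φ.eval sys.FS f).mono ht1 ?_⟩
  exact (sys.eval_supp φ f f (fun i _ => hf i g hg _)).1 h

/-- assignment of four names -/
def asg4 (a b c d : sys.HN) : ℕ → sys.HN
  | 0 => a
  | 1 => b
  | 2 => c
  | _ => d

theorem fVal_res {β : O0} {F i x y : sys.HN} (h1 : sys.Supp (Fix β) F.1)
    (h2 : sys.Supp (Fix β) i.1) (h3 : sys.Supp (Fix β) x.1) (h4 : sys.Supp (Fix β) y.1)
    {r : Cond} (h : (fVal sys.FS F i x y).holds r) : (fVal sys.FS F i x y).holds (r.res β) := by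
  have := holds_res (fVal codeStr 0 1 2 3 4) (asg4 F i x y) (β := β) (r := r) ?_ h
  · exact this
  · intro i
    match i with
    | 0 => exact h1
    | 1 => exact h2
    | 2 => exact h3
    | (n + 3) => exact h4

theorem supp_hO (α : Ordinal.{1}) (β : O0) : sys.Supp (Fix β) (sys.hO α).1 :=
  fun g _ q => sys.supp_oName α g trivial q

/-- every name has a support of the form `Fix β` -/
theorem exists_fix (X : sys.HN) : ∃ β, sys.Supp (Fix β) X.1 := by
  obtain ⟨H, ⟨β, hβ⟩, h⟩ := X.2.sym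
  exact ⟨β, h.mono hβ⟩

end Cond

end Pool.Agent.H86
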