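import Pool.Agent.H86.Forced

/-!
# Forced narrowness
-/

set_option linter.unusedVariables false
set_option linter.unusedSectionVars false

universe u v w

namespace Pool.Agent.H86

open Name

namespace SymSys

variable {Q : Type u} [Preorder Q] [OrderTop Q] {G : Type u} [Group G] [MulAction G Q]
variable (S : SymSys Q G)

theorem fVal_congr {F i x y i' x' y' : S.HN} {p : Q} (h1 : feq i.1 i'.1 p)
    (h2 : feq x.1 x'.1 p) (h3 : feq y.1 y'.1 p) (h : (fVal S.FS F i x y).holds p) :
    (fVal S.FS F i' x' y').holds p := by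
  intro q hq
  obtain ⟨r, hr, f, a1, a2⟩ := h q hq
  rw [S.holds_fRel] at a1 a2
  refine ⟨r, hr, f, ?_, ?_⟩
  · rw [S.holds_fRel]
    exact S.R_congr (feq_refl _ _) (feq_mono (hr.trans hq) h1) (feq_refl _ _) a1
  · rw [S.holds_fRel]
    exact S.R_congr (feq_refl _ _) (feq_mono (hr.trans hq) h2) (feq_mono (hr.trans hq) h3) a2

theorem seq_val {P R F μ i x y : S.HN} {q : Q} (h : (fSeq S.FS P R F μ).holds q)
    (hv : (fVal S.FS F i x y).holds q) :
    fmem i.1 μ.1 q ∧ fmem x.1 P.1 q ∧ (fOrd S.FS y).holds q := by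
  have key : ∀ r ≤ q, ∃ s ≤ r, fmem i.1 μ.1 s ∧ fmem x.1 P.1 s ∧ (fOrd S.FS y).holds s := by
    intro r hr
    obtain ⟨s, hs, f, h1, h2⟩ := hv r hr
    refine ⟨s, hs, ?_, ?_⟩
    · exact (h.2.1 i).2 s (hs.trans hr) fun t ht => ⟨t, le_rfl, f, (fRel S.FS F i f).mono ht h1⟩
    · exact (h.2.2 i f s (hs.trans hr) h1).2.1 x y s le_rfl h2
  refine ⟨fmem_reg fun r hr => ?_, fmem_reg fun r hr => ?_, (fOrd S.FS y).reg fun r hr => ?_⟩
  · obtain ⟨s, hs, h1, h2, h3⟩ := key r hr
    exact ⟨s, hs, h1⟩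
  · obtain ⟨s, hs, h1, h2, h3⟩ := key r hr
    exact ⟨s, hs, h2⟩
  · obtain ⟨s, hs, h1, h2, h3⟩ := key r hr
    exact ⟨s, hs, h3⟩

theorem seq_val_eq {P R F μ i x y x' y' : S.HN} {q : Q} (h : (fSeq S.FS P R F μ).holds q)
    (hv : (fVal S.FS F i x y).holds q) (hv' : (fVal S.FS F i x' y').holds q)
    (hc : (fCompat S.FS P R x x').holds q) : feq y.1 y'.1 q := by
  apply feq_reg
  intro r hr
  obtain ⟨s, hs, f, h1, h2⟩ := hv r hr
  obtain ⟨t, ht, f', h3, h4⟩ := hv' s (hs.trans hr)
  have hts : t ≤ q := ht.trans (hs.trans hr)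
  refine ⟨t, ht.trans hs, ?_⟩
  have e : feq f.1 f'.1 t :=
    h.1.2 i f f' t hts ((fRel S.FS F i f).mono ht h1) t le_rfl h3
  have h5 : (fRel S.FS f x' y').holds t := by
    rw [S.holds_fRel] at h4 ⊢
    exact S.R_congr (feq_symm e) (feq_refl _ _) (feq_refl _ _) h4
  exact (h.2.2 i f t hts ((fRel S.FS F i f).mono ht h1)).2.2 x y x' y' t le_rfl
    ((fRel S.FS f x y).mono ht h2) t le_rfl h5 t le_rfl ((fCompat S.FS P R x x').mono hts hc)

end SymSys

/-- A set of ordinals that is the union of `μ` many small sets, with `μ` not small, injects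
into `μ`. -/
theorem exists_inj_large (μ : Ordinal.{1}) (hμ : ¬ Small.{0} (Set.Iio μ))
    (A : Ordinal.{1} → Set Ordinal.{1}) (hA : ∀ i, Small.{0} (A i))
    (K : Type 1) (val : K → Ordinal.{1}) (hval : Function.Injective val)
    (hK : ∀ k, ∃ i < μ, val k ∈ A i) :
    ∃ j : K → Ordinal.{1}, Function.Injective j ∧ ∀ k, j k < μ := by
  classical
  choose ix hix1 hix2 using hK
  -- injection of `K` into a sigma type
  let f : K → Σ i : μ.ToType, ULift.{1} (Shrink.{0} (A (Ordinal.ToType.toOrd i).1)) := fun k =>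
    ⟨Ordinal.ToType.mk ⟨ix k, hix1 k⟩, ⟨equivShrink _ ⟨val k, by
      simpa [Ordinal.ToType.toOrd] using hix2 k⟩⟩⟩
  have hf : Function.Injective f := by
    intro k k' h
    have hval' : ∀ k, ((equivShrink (A (Ordinal.ToType.toOrd (f k).1).1)).symm (f k).2.down).1 =
        val k := by
      intro k
      simp [f]
    apply hval
    rw [← hval' k, ← hval' k', h]
  have hc : (Cardinal.univ.{0, 1} : Cardinal.{1}) ≤ Cardinal.mk μ.ToType := by
    by_contra hlt
    rw [not_le, Cardinal.lt_univ] at hlt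
    obtain ⟨c, hc⟩ := hlt
    apply hμ
    have h1 : Cardinal.mk (ULift.{1} c.out) = Cardinal.mk μ.ToType := by
      rw [hc, Cardinal.mk_uLift, Cardinal.mk_out]
    obtain ⟨e⟩ := Cardinal.eq.1 h1
    have : Small.{0} μ.ToType := ⟨c.out, ⟨e.symm.trans Equiv.ulift⟩⟩
    exact small_map (Ordinal.ToType.mk (o := μ)).toEquiv
  have hle : Cardinal.mk K ≤ Cardinal.mk μ.ToType := by
    refine (Cardinal.mk_le_of_injective hf).trans ?_
    rw [Cardinal.mk_sigma]
    calc Cardinal.sum (fun i : μ.ToType =>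
          Cardinal.mk (ULift.{1} (Shrink.{0} (A (Ordinal.ToType.toOrd i).1))))
        ≤ Cardinal.sum (fun _ : μ.ToType => (Cardinal.univ.{0, 1} : Cardinal.{1})) := by
          apply Cardinal.sum_le_sum
          intro i
          rw [Cardinal.mk_uLift]
          exact (Cardinal.lift_lt_univ _).le
      _ = Cardinal.mk μ.ToType * Cardinal.univ.{0, 1} := Cardinal.sum_const' _ _
      _ ≤ Cardinal.mk μ.ToType * Cardinal.mk μ.ToType := by gcongr
      _ = Cardinal.mk μ.ToType := Cardinal.mul_eq_self (Cardinal.aleph0_lt_univ.le.trans hc)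
  obtain ⟨j⟩ := Cardinal.le_def _ _ |>.1 hle
  refine ⟨fun k => (Ordinal.ToType.toOrd (j k)).1, fun k k' h => ?_, fun k =>
    (Ordinal.ToType.toOrd (j k)).2⟩
  exact j.injective ((Ordinal.ToType.mk (o := μ)).symm.injective (Subtype.ext h))

namespace Cond

/-- The generic injection name. -/
theorem exists_small_name (K : Type) (val : K → Ordinal.{1}) (hval : Function.Injective val) :
    ∃ h : sys.HN, ∀ p : Cond, (fFun sys.FS h).holds p ∧ (fInj sys.FS h).holds p ∧
      (∀ k, ∀ q ≤ p, ∃ r ≤ q, ∃ η, sys.R h (sys.hO (val k)) (sys.hO η) r) ∧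
      (∀ Y Z q, sys.R h Y Z q → fmem Z.1 (oName Cond Ordinal.omega0) q) := by
  classical
  let e : K → O0 := fun k => Ordinal.typein WellOrderingRel k
  let α : O0 := Ordinal.type (WellOrderingRel : K → K → Prop)
  have he : ∀ k, e k < α := fun k => Ordinal.typein_lt_type _ _
  have hei : Function.Injective e := Ordinal.typein_injective _
  let pr : K → ℕ → Cond → Prop := fun k n c =>
    c.f (α, n) = some (e k) ∧ ∀ m < n, ∃ δ, c.f (α, m) = some δ ∧ δ ≠ e k
  have hprm : ∀ k n c d, d ≤ c → pr k n c → pr k n d := by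
    rintro k n c d hdc ⟨h1, h2⟩
    refine ⟨hdc _ _ h1, fun m hm => ?_⟩
    obtain ⟨δ, h3, h4⟩ := h2 m hm
    exact ⟨δ, hdc _ _ h3, h4⟩
  let ix : Type 1 := {t : (K × ℕ) × Cond // pr t.1.1 t.1.2 t.2}
  let a : ix → sys.HN := fun t => sys.hO (val t.1.1.1)
  let b : ix → sys.HN := fun t => sys.hO (t.1.1.2 : Ordinal.{1})
  let c : ix → Cond := fun t => t.1.2
  have hsupp : sys.Supp (Fix (α + 1)) (relN ix (fun i => (a i).1) (fun i => (b i).1) c) := by
    apply sys.supp_relN
    rintro g hg ⟨⟨⟨k, n⟩, d⟩, hd⟩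
    have hgα : g α = 1 := hg α (Order.lt_add_one_iff.2 le_rfl)
    have hf : ∀ m, (g • d).f (α, m) = d.f (α, m) := by
      intro m
      rw [smul_f]; simp [hgα]
    refine ⟨⟨⟨⟨k, n⟩, g • d⟩, ?_, ?_⟩, ?_, ?_, ?_⟩
    · show (g • d).f (α, n) = _
      rw [hf]; exact hd.1
    · intro m hm
      show ∃ δ, (g • d).f (α, m) = _ ∧ _
      rw [hf]; exact hd.2 m hm
    · exact fun q => sys.supp_oName _ g trivial q
    · exact fun q => sys.supp_oName _ g trivial q
    · exact le_rfl
  have hHS : sys.HS (relN ix (fun i => (a i).1) (fun i => (b i).1) c) :=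
    sys.HS_relN (fun i => (a i).2) (fun i => (b i).2) ⟨_, ⟨_, le_rfl⟩, hsupp⟩
  refine ⟨⟨_, hHS⟩, fun p => ⟨?_, ?_, ?_, ?_⟩⟩
  · apply sys.fFun_relN
    rintro ⟨⟨⟨k, n⟩, d⟩, hd⟩ ⟨⟨⟨k', n'⟩, d'⟩, hd'⟩ r _ hr hr' hk
    have e1 : k = k' := hval (feq_oName_iff.1 hk)
    subst e1
    have h1 := hprm _ _ _ _ hr hd
    have h2 := hprm _ _ _ _ hr' hd'
    simp only at h1 h2
    have e2 : n = n' := by
      rcases lt_trichotomy n n' with h | h | h
      · obtain ⟨δ, h3, h4⟩ := h2.2 n h
        rw [h1.1] at h3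
        exact (h4 (Option.some.inj h3).symm).elim
      · exact h
      · obtain ⟨δ, h3, h4⟩ := h1.2 n' h
        rw [h2.1] at h3
        exact (h4 (Option.some.inj h3).symm).elim
    subst e2
    exact feq_refl _ _
  · apply sys.fInj_relN
    rintro ⟨⟨⟨k, n⟩, d⟩, hd⟩ ⟨⟨⟨k', n'⟩, d'⟩, hd'⟩ r _ hr hr' hk
    have e1 : n = n' := by
      have := feq_oName_iff.1 hk
      exact_mod_cast this
    subst e1
    have h1 := hprm _ _ _ _ hr hd
    have h2 := hprm _ _ _ _ hr' hd'
    simp only at h1 h2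
    have h3 := h1.1.symm.trans h2.1
    have e2 : k = k' := hei (Option.some.inj h3)
    subst e2
    exact feq_refl _ _
  · intro k q hq
    -- extend `q`
    obtain ⟨N, hN⟩ : ∃ N, ∀ x, q.f x ≠ none → x.2 < N := by
      have h1 : BddAbove (Prod.snd '' {x | q.f x ≠ none}) := (q.fin.image Prod.snd).bddAbove
      obtain ⟨B, hB⟩ := h1
      exact ⟨B + 1, fun x hx => Nat.lt_succ_of_le (hB ⟨x, hx, rfl⟩)⟩
    let fill : Cond :=
      { f := fun x => if x.1 = α ∧ x.2 ≤ N then some (e k) else none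
        fin := by
          refine ((Set.finite_Iic N).image fun n => ((α, n) : O0 × ℕ)).subset ?_
          intro x hx
          simp only [ne_eq, ite_eq_right_iff, reduceCtorEq, imp_false, not_not,
            Set.mem_ofPred_eq] at hx
          exact ⟨x.2, hx.2, by rw [← hx.1]⟩
        lt := by
          intro x γ h
          by_cases hx : x.1 = α ∧ x.2 ≤ N
          · rw [if_pos hx] at h
            cases h
            rw [hx.1]; exact he k
          · rw [if_neg hx] at h; cases h }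
    set r := un q fill with hr
    have hrq : r ≤ q := un_le_left _ _
    have hrN : r.f (α, N) = some (e k) := by
      have h1 : q.f (α, N) = none := by
        by_contra hc
        exact absurd (hN _ hc) (lt_irrefl _)
      show (q.f (α, N)).orElse _ = _
      rw [h1]
      show (if (α = α ∧ N ≤ N) then some (e k) else none) = _
      simp
    have hex : ∃ n, r.f (α, n) = some (e k) := ⟨N, hrN⟩
    let n := Nat.find hex
    have hn : r.f (α, n) = some (e k) := Nat.find_spec hex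
    have hnN : n ≤ N := Nat.find_min' hex hrN
    have hpr : pr k n r := by
      refine ⟨hn, fun m hm => ?_⟩
      have h1 : r.f (α, m) ≠ some (e k) := Nat.find_min hex hm
      have h2 : r.f (α, m) ≠ none := by
        intro h3
        have h4 : (q.f (α, m)).orElse (fun _ => fill.f (α, m)) = none := h3
        cases hq' : q.f (α, m) with
        | some δ => rw [hq'] at h4; cases h4
        | none =>
          rw [hq'] at h4
          have h5 : (if (α = α ∧ m ≤ N) then some (e k) else none) = none := h4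
          rw [if_pos ⟨rfl, (hm.trans_le hnN).le⟩] at h5
          cases h5
      obtain ⟨δ, hδ⟩ := Option.ne_none_iff_exists'.1 h2
      exact ⟨δ, hδ, fun h3 => h1 (by rw [hδ, h3])⟩
    refine ⟨r, hrq, (n : Ordinal.{1}), ?_⟩
    rw [sys.R_relN]
    intro s hs
    exact ⟨s, le_rfl, ⟨⟨⟨k, n⟩, r⟩, hpr⟩, hs, feq_refl _ _, feq_refl _ _⟩
  · intro Y Z q h
    rw [sys.R_relN] at h
    apply fmem_reg
    intro s hs
    obtain ⟨t, ht, i, h1, h2, h3⟩ := h s hs
    exact ⟨t, ht, fmem_congr_left (feq_symm h3)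
      (fmem_oName_of_lt (Ordinal.natCast_lt_omega0 _) t)⟩

end Cond

end Pool.Agent.H86
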