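import Pool.Agent.H86.Forced2

/-!
# Forced narrowness and forced failure of uniform narrowness
-/

set_option linter.unusedVariables false
set_option linter.unusedSectionVars false

universe u v w

namespace Pool.Agent.H86

open Name

namespace Cond

theorem forced_narrow (p : Cond) :
    (fNarrowW sys.FS nP nR (sys.hO Ordinal.omega0)).holds p := by
  classical
  intro μ p0 hp0 hμ F p1 hp1 hF q hq
  obtain ⟨q1, hq1, μ', hμ'⟩ := sys.decide_ord μ q ((fOrd sys.FS μ).mono (hq.trans hp1) hμ)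
  have hF1 : (fSeq sys.FS nP nR F μ).holds q1 :=
    (fSeq sys.FS nP nR F μ).mono (hq1.trans hq) hF
  obtain ⟨β, hβF, hβq⟩ : ∃ β, sys.Supp (Fix β) F.1 ∧ q1 ∈ Below β := by
    obtain ⟨β1, h1⟩ := exists_fix F
    obtain ⟨β2, h2⟩ := exists_below q1
    exact ⟨max β1 β2, h1.mono (Fix_anti (le_max_left _ _)), Below_mono (le_max_right _ _) h2⟩
  let T : Ordinal.{1} → Ordinal.{1} → Cond → Cond → Prop := fun i ξ c r =>
    (fVal sys.FS F (sys.hO i) (nC c) (sys.hO ξ)).holds r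
  have V1 : ∀ i ξ c r, r ≤ q1 → T i ξ c r → i < μ' := by
    intro i ξ c r hr h
    have h1 := (sys.seq_val ((fSeq sys.FS nP nR F μ).mono hr hF1) h).1
    exact fmem_oName_iff.1 (fmem_congr_right (feq_mono hr hμ') h1)
  have V2 : ∀ i ξ η c d r, r ≤ q1 → T i ξ c r → T i η d r → Comp c d → ξ = η := by
    intro i ξ η c d r hr h h' hcd
    have h1 := sys.seq_val_eq ((fSeq sys.FS nP nR F μ).mono hr hF1) h h' (holds_compat hcd)
    exact feq_oName_iff.1 h1
  have V3 : ∀ i x y : sys.HN, ∀ r ≤ q1, (fVal sys.FS F i x y).holds r →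
      ∃ s ≤ r, ∃ i' ξ c, feq y.1 (sys.hO ξ).1 s ∧ T i' ξ c s := by
    intro i x y r hr h
    obtain ⟨h1, h2, h3⟩ := sys.seq_val ((fSeq sys.FS nP nR F μ).mono hr hF1) h
    obtain ⟨s1, hs1, i', _, hi'⟩ := fmem_oName.1 (fmem_congr_right (feq_mono hr hμ') h1) r le_rfl
    obtain ⟨s2, hs2, c, hc⟩ := mem_nP (fmem_mono hs1 h2)
    obtain ⟨s3, hs3, ξ, hξ⟩ := sys.decide_ord y s2 ((fOrd sys.FS y).mono (hs2.trans hs1) h3)
    refine ⟨s3, hs3.trans (hs2.trans hs1), i', ξ, c, hξ, ?_⟩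
    exact sys.fVal_congr (i' := sys.hO i') (x' := nC c) (y' := sys.hO ξ)
      (feq_mono (hs3.trans hs2) hi') (feq_mono hs3 hc) hξ
      ((fVal sys.FS F i x y).mono (hs3.trans (hs2.trans hs1)) h)
  let A : Ordinal.{1} → Set Ordinal.{1} := fun i => {ξ | ∃ c r, r ≤ q1 ∧ T i ξ c r}
  have hA : ∀ i, Small.{0} (A i) := by
    intro i
    choose cc rr h1 h2 using fun ξ : A i => ξ.2
    let g : A i → Below β := fun ξ => ⟨(rr ξ).res β, res_mem _ _⟩
    have hres : ∀ ξ : A i, T i ξ.1 (cc ξ) ((rr ξ).res β) := fun ξ =>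
      fVal_res hβF (supp_hO _ _) (supp_hO _ _) (supp_hO _ _) (h2 ξ)
    have hresle : ∀ ξ : A i, (rr ξ).res β ≤ q1 := fun ξ => by
      have := res_mono (h1 ξ) β
      rwa [res_eq hβq] at this
    have hfib : ∀ s : Below β, Small.{0} {ξ : A i // g ξ = s} := by
      intro s
      let B : Set Cond := {c | ∃ ξ : A i, g ξ = s ∧ cc ξ = c}
      have hB : Small.{0} B := by
        apply antichain_small
        rintro _ ⟨ξ, hξ, rfl⟩ _ ⟨η, hη, rfl⟩ hcomp
        have e1 : (rr ξ).res β = (rr η).res β := by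
          have := hξ.trans hη.symm
          exact congrArg Subtype.val this
        have h3 := hres η
        rw [← e1] at h3
        have := V2 i ξ.1 η.1 _ _ _ (hresle ξ) (hres ξ) h3 hcomp
        rw [Subtype.ext this]
      refine small_of_injective (β := B) (f := fun ξ => ⟨cc ξ.1, ξ.1, ξ.2, rfl⟩) ?_
      rintro ⟨ξ, hξ⟩ ⟨η, hη⟩ h
      have h' : cc ξ = cc η := congrArg Subtype.val h
      have e1 : (rr ξ).res β = (rr η).res β := by
        have := hξ.trans hη.symm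
        exact congrArg Subtype.val this
      have h3 := hres η
      rw [← e1] at h3
      have := V2 i ξ.1 η.1 _ _ _ (hresle ξ) (hres ξ) h3 (by rw [h']; exact ⟨_, le_rfl, le_rfl⟩)
      exact Subtype.ext (Subtype.ext this)
    exact small_map (Equiv.sigmaFiberEquiv g).symm
  let Rall : Set Ordinal.{1} := {ξ | ∃ i < μ', ξ ∈ A i}
  -- a suitable injection name
  have main : ∃ h : sys.HN, (fFun sys.FS h).holds q1 ∧ (fInj sys.FS h).holds q1 ∧
      (∀ ξ ∈ Rall, ∀ r ≤ q1, ∃ s ≤ r, ∃ η, sys.R h (sys.hO ξ) (sys.hO η) s) ∧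
      (∀ Y Z r, sys.R h Y Z r →
        fmem Z.1 (oName Cond Ordinal.omega0) r ∨ fmem Z.1 (oName Cond μ') r) := by
    by_cases hs : Small.{0} (Set.Iio μ')
    · have hR : Small.{0} Rall := by
        have e : Rall = ⋃ i : Set.Iio μ', A i.1 := by
          ext ξ
          simp only [Rall, Set.mem_iUnion, Subtype.exists, Set.mem_Iio, exists_prop]
          exact Iff.rfl
        rw [e]
        infer_instance
      obtain ⟨h, hh⟩ := exists_small_name (Shrink.{0} Rall)
        (fun k => ((equivShrink Rall).symm k).1)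
        (fun k k' hk => (equivShrink Rall).symm.injective (Subtype.ext hk))
      obtain ⟨h1, h2, h3, h4⟩ := hh q1
      refine ⟨h, h1, h2, fun ξ hξ r hr => ?_, fun Y Z r hr => Or.inl (h4 Y Z r hr)⟩
      obtain ⟨s, hs, η, h5⟩ := h3 (equivShrink Rall ⟨ξ, hξ⟩) r hr
      refine ⟨s, hs, η, ?_⟩
      simpa using h5
    · have hR : Small.{1} Rall := by
        have e : Rall = ⋃ i : Set.Iio μ', A i.1 := by
          ext ξ
          simp only [Rall, Set.mem_iUnion, Subtype.exists, Set.mem_Iio, exists_prop]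
          exact Iff.rfl
        rw [e]
        have : ∀ i : Set.Iio μ', Small.{1} (A i.1) := fun i => by
          have := hA i.1
          exact small_lift _
        infer_instance
      obtain ⟨j, hj1, hj2⟩ := exists_inj_large μ' hs A hA (Shrink.{1} Rall)
        (fun k => ((equivShrink Rall).symm k).1)
        (fun k k' hk => (equivShrink Rall).symm.injective (Subtype.ext hk))
        (fun k => ((equivShrink Rall).symm k).2)
      refine ⟨sys.chk (fun k : Shrink.{1} Rall => ((equivShrink Rall).symm k).1) j, ?_, ?_, ?_, ?_⟩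
      · apply sys.fFun_chk
        intro k k' hk
        have : k = k' := (equivShrink Rall).symm.injective (Subtype.ext hk)
        rw [this]
      · apply sys.fInj_chk
        intro k k' hk
        have : k = k' := hj1 hk
        rw [this]
      · intro ξ hξ r hr
        refine ⟨r, le_rfl, j (equivShrink Rall ⟨ξ, hξ⟩), ?_⟩
        rw [sys.R_chk_hO]
        exact ⟨equivShrink Rall ⟨ξ, hξ⟩, by simp, rfl⟩
      · intro Y Z r h
        right
        rw [sys.R_chk] at h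
        apply fmem_reg
        intro s hs
        obtain ⟨t, ht, k, h1, h2⟩ := h s hs
        exact ⟨t, ht, fmem_congr_left (feq_symm h2) (fmem_oName_of_lt (hj2 k) t)⟩
  obtain ⟨h, h1, h2, h3, h4⟩ := main
  refine ⟨q1, hq1, h, h1, h2, ?_, ?_⟩
  · intro i x y r hr hv s hs
    obtain ⟨t, ht, i', ξ, c, e, hT⟩ := V3 i x y s (hs.trans hr) ((fVal sys.FS F i x y).mono hs hv)
    have htq : t ≤ q1 := ht.trans (hs.trans hr)
    obtain ⟨t', ht', η, hη⟩ := h3 ξ ⟨i', V1 _ _ _ _ htq hT, c, t, htq, hT⟩ t htq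
    refine ⟨t', ht'.trans ht, sys.hO η, ?_⟩
    rw [sys.holds_fRel]
    exact sys.R_congr (feq_refl _ _) (feq_symm (feq_mono ht' e)) (feq_refl _ _) hη
  · intro y z r hr hv s hs
    rw [sys.holds_fRel] at hv
    refine ⟨s, le_rfl, ?_⟩
    rcases h4 y z s (SymSys.R_mono _ hs hv) with h5 | h5
    · exact Or.inl h5
    · exact Or.inr (fmem_congr_right (feq_symm (feq_mono (hs.trans hr) hμ')) h5)

/-- name of the canonical homomorphism onto `α` -/
noncomputable def nF (α : O0) : sys.HN :=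
  sys.chk (ι := {t : Cond × O0 // t.1.f (α, 0) = some t.2})
    (fun t => code t.1.1) (fun t => Ordinal.lift.{1, 0} t.1.2)

theorem R_nF {α : O0} {X Y : sys.HN} {p : Cond} (h : sys.R (nF α) X Y p) :
    ∃ q ≤ p, ∃ c ξ, c.f (α, 0) = some ξ ∧ feq X.1 (nC c).1 q ∧
      feq Y.1 (sys.hO (Ordinal.lift.{1, 0} ξ)).1 q := by
  unfold nF at h
  rw [SymSys.R_chk] at h
  obtain ⟨q, hq, ⟨⟨c, ξ⟩, hcd⟩, h1, h2⟩ := h p le_rfl
  exact ⟨q, hq, c, ξ, hcd, h1, h2⟩

theorem R_nF_nC {α ξ : O0} {c p : Cond} (h : c.f (α, 0) = some ξ) :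
    sys.R (nF α) (nC c) (sys.hO (Ordinal.lift.{1, 0} ξ)) p := by
  unfold nF nC
  rw [SymSys.R_chk_hO]
  exact ⟨⟨⟨c, ξ⟩, h⟩, rfl, rfl⟩

theorem nF_phom (α : O0) (p : Cond) : (fPHom sys.FS nP nR (nF α)).holds p := by
  have key : ∀ X Y X' Y' : sys.HN, ∀ q : Cond, sys.R (nF α) X Y q → sys.R (nF α) X' Y' q →
      ((fCompat sys.FS nP nR X X').holds q ∨ feq X.1 X'.1 q) → feq Y.1 Y'.1 q := by
    intro X Y X' Y' q h1 h2 h3
    refine feq_reg fun r hr => ?_
    obtain ⟨s, hs, c, ξ, hc, e1, e2⟩ := R_nF (SymSys.R_mono _ hr h1)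
    obtain ⟨t, ht, c', ξ', hc', e1', e2'⟩ := R_nF (SymSys.R_mono _ (hs.trans hr) h2)
    have hcomp : Comp c c' := by
      rcases h3 with h3 | h3
      · exact compat_of_holds (feq_mono ht e1) e1'
          ((fCompat sys.FS nP nR X X').mono (ht.trans (hs.trans hr)) h3)
      · have : c = c' := nC_inj (feq_trans (feq_symm (feq_mono ht e1))
          (feq_trans (feq_mono (ht.trans (hs.trans hr)) h3) e1'))
        rw [this]; exact ⟨_, le_rfl, le_rfl⟩
    rw [comp_iff] at hcomp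
    have e : ξ = ξ' := hcomp _ _ _ hc hc'
    subst e
    exact ⟨t, ht.trans hs, feq_trans (feq_mono ht e2) (feq_symm e2')⟩
  refine ⟨?_, ?_, ?_⟩
  · unfold nF
    apply sys.fFun_chk
    rintro ⟨⟨c, ξ⟩, h⟩ ⟨⟨c', ξ'⟩, h'⟩ hk
    have e : c = c' := code_inj hk
    subst e
    have h2 := h.symm.trans h'
    have e : ξ = ξ' := Option.some.inj h2
    subst e
    rfl
  · intro X Y q hq h
    rw [SymSys.holds_fRel] at h
    refine ⟨fmem_reg fun r hr => ?_, (fOrd sys.FS Y).reg fun r hr => ?_⟩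
    · obtain ⟨s, hs, c, ξ, hc, e1, e2⟩ := R_nF (SymSys.R_mono _ hr h)
      exact ⟨s, hs, fmem_congr_left (feq_symm e1) (nC_mem c s)⟩
    · obtain ⟨s, hs, c, ξ, hc, e1, e2⟩ := R_nF (SymSys.R_mono _ hr h)
      refine ⟨s, hs, ?_⟩
      have h1 := sys.fOrd_hO (Ordinal.lift.{1, 0} ξ) s
      have := (sys.eval_eq_iff (fOrd codeStr 0 1) (asg4 Y Y Y Y)
        (asg4 (sys.hO (Ordinal.lift.{1, 0} ξ)) (sys.hO (Ordinal.lift.{1, 0} ξ))
          (sys.hO (Ordinal.lift.{1, 0} ξ)) (sys.hO (Ordinal.lift.{1, 0} ξ))) s (by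
          intro i hi
          match i with
          | 0 => exact e2
          | 1 => exact e2
          | 2 => exact e2
          | (n + 3) => exact e2)).2 h1
      exact this
  · intro X Y X' Y' q hq h1 q' hq' h2 q'' hq'' h3
    rw [SymSys.holds_fRel] at h1 h2
    exact key X Y X' Y' q'' (SymSys.R_mono _ (hq''.trans hq') h1) (SymSys.R_mono _ hq'' h2)
      (Or.inl h3)

theorem exists_cond (α ξ : O0) (h : ξ < α) : ∃ c : Cond, c.f (α, 0) = some ξ := by
  classical
  refine ⟨⟨fun x => if x = (α, 0) then some ξ else none, ?_, ?_⟩, by simp⟩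
  · refine (Set.finite_singleton ((α, 0) : O0 × ℕ)).subset ?_
    intro x hx
    by_contra hc
    apply hx
    simp only [Set.mem_singleton_iff] at hc
    simp [hc]
  · intro x γ hx
    by_cases h1 : x = (α, 0)
    · rw [if_pos h1] at hx
      cases hx
      rw [h1]; exact h
    · rw [if_neg h1] at hx; cases hx

theorem nF_range (α : O0) (p : Cond) :
    (sys.FS.ex fun α' => sys.FS.and (fOrd sys.FS α')
      (sys.FS.all fun y => sys.FS.iff (sys.FS.mem y α')
        (sys.FS.ex fun x => fRel sys.FS (nF α) x y))).holds p := by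
  intro q hq
  refine ⟨q, le_rfl, sys.hO (Ordinal.lift.{1, 0} α), sys.fOrd_hO _ q, fun Y => ⟨?_, ?_⟩⟩
  · intro r hr h s hs
    obtain ⟨t, ht, β, hβ, e⟩ := fmem_oName.1 h s hs
    obtain ⟨ξ, rfl⟩ := Ordinal.lt_lift_iff.1 hβ |>.imp fun ξ hξ => hξ.2
    have hξ : ξ < α := by simpa using hβ
    obtain ⟨c, hc⟩ := exists_cond α ξ hξ
    refine ⟨t, ht, nC c, ?_⟩
    rw [SymSys.holds_fRel]
    exact SymSys.R_congr _ (feq_refl _ _) (feq_refl _ _) (feq_symm e) (R_nF_nC hc)
  · intro r hr h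
    apply fmem_reg
    intro s hs
    obtain ⟨t, ht, X, hX⟩ := h s hs
    rw [SymSys.holds_fRel] at hX
    obtain ⟨t', ht', c, ξ, hc, e1, e2⟩ := R_nF hX
    refine ⟨t', ht'.trans ht, fmem_congr_left (feq_symm e2) ?_⟩
    exact fmem_oName_of_lt (by simpa using c.lt _ _ hc) t'

theorem forced_not_unif (p : Cond) :
    ((fUnif sys.FS nP nR (sys.hO Ordinal.omega0)).imp Om.bot).holds p := by
  classical
  intro p0 hp0 h
  obtain ⟨q, hq, G, hG1, hG2⟩ := h p0 le_rfl
  obtain ⟨β, hβG, hβq⟩ : ∃ β, sys.Supp (Fix β) G.1 ∧ q ∈ Below β := by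
    obtain ⟨β1, h1⟩ := exists_fix G
    obtain ⟨β2, h2⟩ := exists_below q
    exact ⟨max β1 β2, h1.mono (Fix_anti (le_max_left _ _)), Below_mono (le_max_right _ _) h2⟩
  -- a large ordinal
  let α : O0 := (Order.succ (Cardinal.mk (Shrink.{0} (Below β) × ℕ))).ord
  have hmain : ∀ ξ : Set.Iio α, ∃ (r : Below β) (n : ℕ), r.1 ≤ q ∧
      (fVal sys.FS G (nF α) (sys.hO (Ordinal.lift.{1, 0} ξ.1)) (sys.hO (n : Ordinal.{1}))).holds
        r.1 := by
    rintro ⟨ξ, hξ⟩
    obtain ⟨q1, hq1, g, h1, h2, h3, h4, h5⟩ :=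
      hG2 (nF α) q le_rfl (nF_phom α q) q le_rfl (nF_range α q) q le_rfl
    have hex : (sys.FS.ex fun z => fRel sys.FS g (sys.hO (Ordinal.lift.{1, 0} ξ)) z).holds q1 := by
      refine (h4 _).2 q1 le_rfl ?_
      intro s hs
      obtain ⟨c, hc⟩ := exists_cond α ξ hξ
      refine ⟨s, le_rfl, nC c, ?_⟩
      rw [SymSys.holds_fRel]
      exact R_nF_nC hc
    obtain ⟨q2, hq2, Z, hZ⟩ := hex q1 le_rfl
    have hZω : fmem Z.1 (oName Cond Ordinal.omega0) q2 := h5 _ Z q2 hq2 hZ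
    obtain ⟨q3, hq3, η, hη, e⟩ := fmem_oName.1 hZω q2 le_rfl
    obtain ⟨n, rfl⟩ := Ordinal.lt_omega0.1 hη
    refine ⟨⟨q3.res β, res_mem _ _⟩, n, ?_, ?_⟩
    · have := res_mono (hq3.trans (hq2.trans hq1)) β
      rwa [res_eq hβq] at this
    · refine fVal_res hβG (sys.supp_chk _ _ _) (supp_hO _ _) (supp_hO _ _) ?_
      intro s hs
      refine ⟨s, le_rfl, g, (fRel sys.FS G (nF α) g).mono (hs.trans (hq3.trans hq2)) h1, ?_⟩
      rw [SymSys.holds_fRel] at hZ ⊢
      exact SymSys.R_congr _ (feq_refl _ _) (feq_refl _ _) (feq_mono hs e)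
        (SymSys.R_mono _ (hs.trans hq3) hZ)
  choose rr nn h1 h2 using hmain
  have hinj : Function.Injective fun ξ : Set.Iio α => (equivShrink (Below β) (rr ξ), nn ξ) := by
    intro ξ η h
    simp only [Prod.mk.injEq, EmbeddingLike.apply_eq_iff_eq] at h
    obtain ⟨e1, e2⟩ := h
    have a1 := h2 ξ
    have a2 := h2 η
    rw [← e1, ← e2] at a2
    obtain ⟨s, hs, g, b1, b2⟩ := a1 _ le_rfl
    obtain ⟨t, ht, g', b3, b4⟩ := a2 s hs
    have htq : t ≤ q := ht.trans (hs.trans (h1 ξ))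
    obtain ⟨t', ht', g'', c1, c2, c3, c4, c5⟩ :=
      hG2 (nF α) t htq (nF_phom α t) t le_rfl (nF_range α t) t le_rfl
    have e3 : feq g.1 g''.1 t' := hG1.2 (nF α) g g'' t' (ht'.trans htq)
      ((fRel sys.FS G (nF α) g).mono (ht'.trans ht) b1) t' le_rfl c1
    have e4 : feq g'.1 g''.1 t' := hG1.2 (nF α) g' g'' t' (ht'.trans htq)
      ((fRel sys.FS G (nF α) g').mono ht' b3) t' le_rfl c1
    have d1 : (fRel sys.FS g'' (sys.hO (Ordinal.lift.{1, 0} ξ.1))
        (sys.hO (nn ξ : Ordinal.{1}))).holds t' := by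
      rw [SymSys.holds_fRel] at b2 ⊢
      exact SymSys.R_congr _ e3 (feq_refl _ _) (feq_refl _ _) (SymSys.R_mono _ (ht'.trans ht) b2)
    have d2 : (fRel sys.FS g'' (sys.hO (Ordinal.lift.{1, 0} η.1))
        (sys.hO (nn ξ : Ordinal.{1}))).holds t' := by
      rw [SymSys.holds_fRel] at b4 ⊢
      exact SymSys.R_congr _ e4 (feq_refl _ _) (feq_refl _ _) (SymSys.R_mono _ ht' b4)
    have e5 := c3 _ _ _ t' le_rfl d1 t' le_rfl d2
    have e6 := feq_oName_iff.1 e5
    exact Subtype.ext (Ordinal.lift_inj.1 e6)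
  have hcard : Cardinal.lift.{1, 0} (Order.succ (Cardinal.mk (Shrink.{0} (Below β) × ℕ))) ≤
      Cardinal.lift.{1, 0} (Cardinal.mk (Shrink.{0} (Below β) × ℕ)) := by
    have := Cardinal.mk_le_of_injective (α := α.ToType) (β := Shrink.{0} (Below β) × ℕ)
      (f := fun k => (equivShrink (Below β) (rr (Ordinal.ToType.toOrd k)),
        nn (Ordinal.ToType.toOrd k))) (fun k k' hk =>
          (Ordinal.ToType.mk (o := α)).symm.injective (hinj hk))
    rw [Cardinal.mk_toType, Cardinal.card_ord] at this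
    exact Cardinal.lift_le.2 this
  rw [Cardinal.lift_le] at hcard
  exact absurd (Order.lt_succ (Cardinal.mk (Shrink.{0} (Below β) × ℕ))) (not_lt.2 hcard)

end Cond

end Pool.Agent.H86
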