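import Mathlib

/-!
# First-order formulas of set theory and logic-valued structures

`Fml` is the type of first-order formulas in the language `{∈, =}` with variables named by
natural numbers.  `LogicStr N Ω` is an abstract `Ω`-valued structure; formulas are evaluated in
such a structure by `Fml.eval`.  For `Ω = Prop` this is ordinary satisfaction.
-/

universe u v w

namespace Pool.Agent.H86

/-- First-order formulas in the language of set theory, with variables named by numbers. -/
inductive Fml : Type
  | mem (i j : ℕ) : Fml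
  | eq (i j : ℕ) : Fml
  | bot : Fml
  | imp (φ ψ : Fml) : Fml
  | and (φ ψ : Fml) : Fml
  | or (φ ψ : Fml) : Fml
  | iff (φ ψ : Fml) : Fml
  | all (k : ℕ) (φ : Fml) : Fml
  | ex (k : ℕ) (φ : Fml) : Fml

/-- A logic-valued structure: universe `N`, truth values `Ω`. -/
structure LogicStr (N : Type v) (Ω : Type w) where
  mem : N → N → Ω
  eq : N → N → Ω
  bot : Ω
  imp : Ω → Ω → Ω
  and : Ω → Ω → Ω
  or : Ω → Ω → Ω
  iff : Ω → Ω → Ω
  all : (N → Ω) → Ω
  ex : (N → Ω) → Ω

/-- Update of an assignment. -/
def upd {N : Type v} (f : ℕ → N) (k : ℕ) (x : N) : ℕ → N := fun j => if j = k then x else f j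

@[simp] theorem upd_same {N : Type v} (f : ℕ → N) (k : ℕ) (x : N) : upd f k x k = x := by
  simp [upd]

theorem upd_ne {N : Type v} (f : ℕ → N) {k j : ℕ} (x : N) (h : j ≠ k) : upd f k x j = f j := by
  simp [upd, h]

/-- Evaluation of formulas. -/
def Fml.eval {N : Type v} {Ω : Type w} (S : LogicStr N Ω) : Fml → (ℕ → N) → Ω
  | .mem i j, v => S.mem (v i) (v j)
  | .eq i j, v => S.eq (v i) (v j)
  | .bot, _ => S.bot
  | .imp φ ψ, v => S.imp (φ.eval S v) (ψ.eval S v)
  | .and φ ψ, v => S.and (φ.eval S v) (ψ.eval S v)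
  | .or φ ψ, v => S.or (φ.eval S v) (ψ.eval S v)
  | .iff φ ψ, v => S.iff (φ.eval S v) (ψ.eval S v)
  | .all k φ, v => S.all fun x => φ.eval S (upd v k x)
  | .ex k φ, v => S.ex fun x => φ.eval S (upd v k x)

/-- Ordinary two-valued structures. -/
def propStr {M : Type v} (E : M → M → Prop) : LogicStr M Prop where
  mem := E
  eq := fun x y => x = y
  bot := False
  imp := fun a b => a → b
  and := fun a b => a ∧ b
  or := fun a b => a ∨ b
  iff := fun a b => a ↔ b
  all := fun f => ∀ x, f x
  ex := fun f => ∃ x, f x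

/-- A bound such that the evaluation only depends on variables below it. -/
def Fml.bd : Fml → ℕ
  | .mem i j => max i j + 1
  | .eq i j => max i j + 1
  | .bot => 0
  | .imp φ ψ => max φ.bd ψ.bd
  | .and φ ψ => max φ.bd ψ.bd
  | .or φ ψ => max φ.bd ψ.bd
  | .iff φ ψ => max φ.bd ψ.bd
  | .all _ φ => φ.bd
  | .ex _ φ => φ.bd

theorem Fml.eval_congr {N : Type v} {Ω : Type w} (S : LogicStr N Ω) (φ : Fml) :
    ∀ (f g : ℕ → N), (∀ i < φ.bd, f i = g i) → φ.eval S f = φ.eval S g := by
  induction φ with
  | mem i j =>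
    intro f g h
    simp only [Fml.eval]
    rw [h i (by simp [Fml.bd]), h j (by simp [Fml.bd])]
  | eq i j =>
    intro f g h
    simp only [Fml.eval]
    rw [h i (by simp [Fml.bd]), h j (by simp [Fml.bd])]
  | bot => intro f g h; rfl
  | imp φ ψ ih1 ih2 =>
    intro f g h
    simp only [Fml.eval]
    rw [ih1 f g (fun i hi => h i (lt_of_lt_of_le hi (le_max_left _ _))),
      ih2 f g (fun i hi => h i (lt_of_lt_of_le hi (le_max_right _ _)))]
  | and φ ψ ih1 ih2 =>
    intro f g h
    simp only [Fml.eval]
    rw [ih1 f g (fun i hi => h i (lt_of_lt_of_le hi (le_max_left _ _))),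
      ih2 f g (fun i hi => h i (lt_of_lt_of_le hi (le_max_right _ _)))]
  | or φ ψ ih1 ih2 =>
    intro f g h
    simp only [Fml.eval]
    rw [ih1 f g (fun i hi => h i (lt_of_lt_of_le hi (le_max_left _ _))),
      ih2 f g (fun i hi => h i (lt_of_lt_of_le hi (le_max_right _ _)))]
  | iff φ ψ ih1 ih2 =>
    intro f g h
    simp only [Fml.eval]
    rw [ih1 f g (fun i hi => h i (lt_of_lt_of_le hi (le_max_left _ _))),
      ih2 f g (fun i hi => h i (lt_of_lt_of_le hi (le_max_right _ _)))]
  | all k φ ih =>
    intro f g h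
    simp only [Fml.eval]
    congr 1
    funext x
    apply ih
    intro i hi
    by_cases hk : i = k
    · subst hk; simp
    · rw [upd_ne _ _ hk, upd_ne _ _ hk, h i hi]
  | ex k φ ih =>
    intro f g h
    simp only [Fml.eval]
    congr 1
    funext x
    apply ih
    intro i hi
    by_cases hk : i = k
    · subst hk; simp
    · rw [upd_ne _ _ hk, upd_ne _ _ hk, h i hi]

/-- The structure that compiles polymorphic formulas to `Fml`; a truth value is a
function that takes the next fresh variable and returns a formula. -/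
def codeStr : LogicStr ℕ (ℕ → Fml) where
  mem := fun i j _ => .mem i j
  eq := fun i j _ => .eq i j
  bot := fun _ => .bot
  imp := fun a b d => .imp (a d) (b d)
  and := fun a b d => .and (a d) (b d)
  or := fun a b d => .or (a d) (b d)
  iff := fun a b d => .iff (a d) (b d)
  all := fun f d => .all d (f d (d + 1))
  ex := fun f d => .ex d (f d (d + 1))

/-- Test: a simple formula in polymorphic form -/
def tSub {N : Type v} {Ω : Type w} (S : LogicStr N Ω) (x y : N) : Ω :=
  S.all fun z => S.imp (S.mem z x) (S.mem z y)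

example {N : Type v} {Ω : Type w} (S : LogicStr N Ω) (f : ℕ → N) :
    (tSub codeStr 0 1 2).eval S f = tSub S (f 0) (f 1) := rfl

example {M : Type v} (E : M → M → Prop) (x y : M) :
    tSub (propStr E) x y ↔ ∀ z, E z x → E z y := Iff.rfl

end Pool.Agent.H86
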