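import Pool.Agent.H86.Logic

/-!
# Names over a forcing order and the forcing relation for equality and membership
-/

set_option linter.unusedVariables false
set_option linter.unusedSectionVars false

universe u v w

namespace Pool.Agent.H86

/-- Names over the forcing order `Q`: a name is a small family of pairs (name, condition). -/
inductive Name (Q : Type u) : Type (u + 1)
  | mk (ι : Type u) (x : ι → Name Q) (p : ι → Q) : Name Q

namespace Name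

variable {Q : Type u}

/-- Index type of a name. -/
def ι : Name Q → Type u
  | ⟨ι, _, _⟩ => ι

/-- Elements of a name. -/
def el : (X : Name Q) → X.ι → Name Q
  | ⟨_, x, _⟩ => x

/-- Conditions of a name. -/
def cd : (X : Name Q) → X.ι → Q
  | ⟨_, _, p⟩ => p

@[simp] theorem mk_ι (ι : Type u) (x : ι → Name Q) (p : ι → Q) : (mk ι x p).ι = ι := rfl
@[simp] theorem mk_el (ι : Type u) (x : ι → Name Q) (p : ι → Q) : (mk ι x p).el = x := rfl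
@[simp] theorem mk_cd (ι : Type u) (x : ι → Name Q) (p : ι → Q) : (mk ι x p).cd = p := rfl

@[elab_as_elim]
theorem ind {C : Name Q → Prop} (h : ∀ X : Name Q, (∀ i, C (X.el i)) → C X) : ∀ X, C X := by
  intro X
  induction X with
  | mk ι x p ih => exact h _ ih

variable [Preorder Q]

/-- Forcing equality. -/
def feq : Name Q → Name Q → Q → Prop
  | ⟨ι, x, p⟩, ⟨κ, y, r⟩ => fun q =>
    (∀ i : ι, ∀ q' ≤ q, q' ≤ p i → ∃ q'' ≤ q', ∃ j : κ, q'' ≤ r j ∧ feq (x i) (y j) q'') ∧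
    (∀ j : κ, ∀ q' ≤ q, q' ≤ r j → ∃ q'' ≤ q', ∃ i : ι, q'' ≤ p i ∧ feq (x i) (y j) q'')

/-- Forcing membership. -/
def fmem (X Y : Name Q) (q : Q) : Prop :=
  ∀ q' ≤ q, ∃ q'' ≤ q', ∃ j : Y.ι, q'' ≤ Y.cd j ∧ feq X (Y.el j) q''

theorem feq_def (X Y : Name Q) (q : Q) :
    feq X Y q ↔
    (∀ i : X.ι, ∀ q' ≤ q, q' ≤ X.cd i →
      ∃ q'' ≤ q', ∃ j : Y.ι, q'' ≤ Y.cd j ∧ feq (X.el i) (Y.el j) q'') ∧
    (∀ j : Y.ι, ∀ q' ≤ q, q' ≤ Y.cd j →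
      ∃ q'' ≤ q', ∃ i : X.ι, q'' ≤ X.cd i ∧ feq (X.el i) (Y.el j) q'') := by
  cases X; cases Y
  rw [feq]; rfl

theorem feq_mono {X Y : Name Q} {q r : Q} (h : r ≤ q) (hf : feq X Y q) : feq X Y r := by
  rw [feq_def] at hf ⊢
  exact ⟨fun i q' hq' => hf.1 i q' (hq'.trans h), fun j q' hq' => hf.2 j q' (hq'.trans h)⟩

theorem feq_reg {X Y : Name Q} {q : Q} (h : ∀ q' ≤ q, ∃ q'' ≤ q', feq X Y q'') : feq X Y q := by
  rw [feq_def]
  refine ⟨fun i q' hq' hi => ?_, fun j q' hq' hj => ?_⟩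
  · obtain ⟨q1, h1, h2⟩ := h q' hq'
    rw [feq_def] at h2
    obtain ⟨q2, h3, j, h4⟩ := h2.1 i q1 le_rfl (h1.trans hi)
    exact ⟨q2, h3.trans h1, j, h4⟩
  · obtain ⟨q1, h1, h2⟩ := h q' hq'
    rw [feq_def] at h2
    obtain ⟨q2, h3, j, h4⟩ := h2.2 j q1 le_rfl (h1.trans hj)
    exact ⟨q2, h3.trans h1, j, h4⟩

theorem fmem_mono {X Y : Name Q} {q r : Q} (h : r ≤ q) (hf : fmem X Y q) : fmem X Y r :=
  fun q' hq' => hf q' (hq'.trans h)

theorem fmem_reg {X Y : Name Q} {q : Q} (h : ∀ q' ≤ q, ∃ q'' ≤ q', fmem X Y q'') :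
    fmem X Y q := by
  intro q' hq'
  obtain ⟨q1, h1, h2⟩ := h q' hq'
  obtain ⟨q2, h3, j, h4⟩ := h2 q1 le_rfl
  exact ⟨q2, h3.trans h1, j, h4⟩

theorem feq_refl (X : Name Q) : ∀ q, feq X X q := by
  induction X using ind with
  | h X ih =>
    intro q
    rw [feq_def]
    exact ⟨fun i q' _ hi => ⟨q', le_rfl, i, hi, ih i q'⟩,
      fun i q' _ hi => ⟨q', le_rfl, i, hi, ih i q'⟩⟩

theorem feq_symm : ∀ {X Y : Name Q} {q : Q}, feq X Y q → feq Y X q := by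
  intro X
  induction X using ind with
  | h X ih =>
    intro Y q h
    rw [feq_def] at h ⊢
    refine ⟨fun j q' hq' hj => ?_, fun i q' hq' hi => ?_⟩
    · obtain ⟨q2, h3, i, h4, h5⟩ := h.2 j q' hq' hj
      exact ⟨q2, h3, i, h4, ih i h5⟩
    · obtain ⟨q2, h3, i, h4, h5⟩ := h.1 i q' hq' hi
      exact ⟨q2, h3, i, h4, ih _ h5⟩

theorem feq_trans : ∀ {X Y Z : Name Q} {q : Q}, feq X Y q → feq Y Z q → feq X Z q := by
  intro X
  induction X using ind with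
  | h X ih =>
    intro Y Z q h1 h2
    rw [feq_def] at h1 h2 ⊢
    refine ⟨fun i q' hq' hi => ?_, fun k q' hq' hk => ?_⟩
    · obtain ⟨q1, a1, j, a2, a3⟩ := h1.1 i q' hq' hi
      obtain ⟨q2, b1, k, b2, b3⟩ := h2.1 j q1 (a1.trans hq') a2
      exact ⟨q2, b1.trans a1, k, b2, ih i (feq_mono b1 a3) b3⟩
    · obtain ⟨q1, a1, j, a2, a3⟩ := h2.2 k q' hq' hk
      obtain ⟨q2, b1, i, b2, b3⟩ := h1.2 j q1 (a1.trans hq') a2
      exact ⟨q2, b1.trans a1, i, b2, ih i b3 (feq_mono b1 a3)⟩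

theorem fmem_congr_left {X X' Y : Name Q} {q : Q} (h : feq X X' q) (hm : fmem X Y q) :
    fmem X' Y q := by
  intro q' hq'
  obtain ⟨q1, a1, j, a2, a3⟩ := hm q' hq'
  exact ⟨q1, a1, j, a2, feq_trans (feq_symm (feq_mono (a1.trans hq') h)) a3⟩

theorem fmem_el {X : Name Q} {i : X.ι} {q : Q} (h : q ≤ X.cd i) : fmem (X.el i) X q :=
  fun q' hq' => ⟨q', le_rfl, i, hq'.trans h, feq_refl _ _⟩

theorem feq_iff_mem (X Y : Name Q) (q : Q) :
    feq X Y q ↔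
    (∀ i : X.ι, ∀ q' ≤ q, q' ≤ X.cd i → fmem (X.el i) Y q') ∧
    (∀ j : Y.ι, ∀ q' ≤ q, q' ≤ Y.cd j → fmem (Y.el j) X q') := by
  rw [feq_def]
  constructor
  · rintro ⟨h1, h2⟩
    refine ⟨fun i q' hq' hi q1 hq1 => h1 i q1 (hq1.trans hq') (hq1.trans hi),
      fun j q' hq' hj q1 hq1 => ?_⟩
    obtain ⟨q2, a1, i, a2, a3⟩ := h2 j q1 (hq1.trans hq') (hq1.trans hj)
    exact ⟨q2, a1, i, a2, feq_symm a3⟩
  · rintro ⟨h1, h2⟩
    refine ⟨fun i q' hq' hi => h1 i q' hq' hi q' le_rfl, fun j q' hq' hj => ?_⟩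
    obtain ⟨q2, a1, i, a2, a3⟩ := h2 j q' hq' hj q' le_rfl
    exact ⟨q2, a1, i, a2, feq_symm a3⟩

theorem fmem_congr_right {X Y Y' : Name Q} {q : Q} (h : feq Y Y' q) (hm : fmem X Y q) :
    fmem X Y' q := by
  intro q' hq'
  obtain ⟨q1, a1, j, a2, a3⟩ := hm q' hq'
  rw [feq_iff_mem] at h
  have := h.1 j q1 (a1.trans hq') a2
  exact fmem_congr_left (feq_symm a3) this q1 le_rfl |>.imp fun q2 ⟨b1, b2⟩ => ⟨b1.trans a1, b2⟩

theorem not_fmem_self (X : Name Q) : ∀ q, ¬ fmem X X q := by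
  induction X using ind with
  | h X ih =>
    intro q h
    obtain ⟨q1, a1, j, a2, a3⟩ := h q le_rfl
    have h1 : fmem (X.el j) X q1 := fmem_el a2
    exact ih j q1 (fmem_congr_right a3 h1)

/-- Sub-name of a name given by a family of sets of conditions. -/
def sub (X : Name Q) (A : X.ι → Q → Prop) : Name Q :=
  mk {iq : X.ι × Q // iq.2 ≤ X.cd iq.1 ∧ A iq.1 iq.2} (fun iq => X.el iq.1.1) (fun iq => iq.1.2)

theorem fmem_sub {X : Name Q} {A : X.ι → Q → Prop} (hA : ∀ i p q, q ≤ p → A i p → A i q)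
    {Z : Name Q} {q : Q} :
    fmem Z (X.sub A) q ↔
      ∀ q' ≤ q, ∃ q'' ≤ q', ∃ i : X.ι, q'' ≤ X.cd i ∧ A i q'' ∧ feq Z (X.el i) q'' := by
  constructor
  · intro h q' hq'
    obtain ⟨q1, a1, ⟨⟨i, r⟩, hr1, hr2⟩, a2, a3⟩ := h q' hq'
    exact ⟨q1, a1, i, le_trans a2 hr1, hA i _ _ a2 hr2, a3⟩
  · intro h q' hq'
    obtain ⟨q1, a1, i, a2, a3, a4⟩ := h q' hq'
    exact ⟨q1, a1, ⟨⟨i, q1⟩, a2, a3⟩, le_rfl, a4⟩

/-- Unordered pair of names. -/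
def upair [OrderTop Q] (X Y : Name Q) : Name Q :=
  mk (ULift.{u} Bool) (fun b => cond b.down X Y) (fun _ => ⊤)

theorem fmem_upair [OrderTop Q] {X Y Z : Name Q} {q : Q} :
    fmem Z (upair X Y) q ↔ ∀ q' ≤ q, ∃ q'' ≤ q', feq Z X q'' ∨ feq Z Y q'' := by
  constructor
  · intro h q' hq'
    obtain ⟨q1, a1, ⟨b⟩, a2, a3⟩ := h q' hq'
    cases b
    · exact ⟨q1, a1, Or.inr a3⟩
    · exact ⟨q1, a1, Or.inl a3⟩
  · intro h q' hq'
    obtain ⟨q1, a1, a2 | a2⟩ := h q' hq'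
    · exact ⟨q1, a1, ⟨true⟩, le_top, a2⟩
    · exact ⟨q1, a1, ⟨false⟩, le_top, a2⟩

/-- Kuratowski ordered pair of names. -/
def opair [OrderTop Q] (X Y : Name Q) : Name Q := upair (upair X X) (upair X Y)

/-- Union of a name. -/
def sUnion (X : Name Q) : Name Q :=
  mk {t : (Σ i : X.ι, (X.el i).ι) × Q // t.2 ≤ X.cd t.1.1 ∧ t.2 ≤ (X.el t.1.1).cd t.1.2}
    (fun t => (X.el t.1.1.1).el t.1.1.2) (fun t => t.1.2)

theorem fmem_sUnion {X Z : Name Q} {q : Q} :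
    fmem Z X.sUnion q ↔ ∀ q' ≤ q, ∃ q'' ≤ q', ∃ i : X.ι, q'' ≤ X.cd i ∧ fmem Z (X.el i) q'' := by
  constructor
  · intro h q' hq'
    obtain ⟨q1, a1, ⟨⟨⟨i, j⟩, r⟩, hr1, hr2⟩, a2, a3⟩ := h q' hq'
    refine ⟨q1, a1, i, le_trans a2 hr1, ?_⟩
    exact fmem_congr_left (feq_symm a3) (fmem_el (le_trans a2 hr2))
  · intro h q' hq'
    obtain ⟨q1, a1, i, a2, a3⟩ := h q' hq'
    obtain ⟨q2, b1, j, b2, b3⟩ := a3 q1 le_rfl
    exact ⟨q2, b1.trans a1, ⟨⟨⟨i, j⟩, q2⟩, b1.trans a2, b2⟩, le_rfl, b3⟩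

end Name

/-- Truth values: downward closed regular sets of conditions. -/
structure Om (Q : Type u) [Preorder Q] where
  /-- the set of conditions -/
  holds : Q → Prop
  mono : ∀ {p q : Q}, q ≤ p → holds p → holds q
  reg : ∀ {p : Q}, (∀ q ≤ p, ∃ r ≤ q, holds r) → holds p

end Pool.Agent.H86
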