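import Pool.Agent.H86.Rel

/-!
# Names of ordinals can be decided
-/

set_option linter.unusedVariables false
set_option linter.unusedSectionVars false

universe u v w

namespace Pool.Agent.H86

namespace SymSys

variable {Q : Type u} [Preorder Q] [OrderTop Q] {G : Type u} [Group G] [MulAction G Q]
variable (S : SymSys Q G)

open Name

theorem fOrd_el {X Y : S.HN} {p q : Q} (h : (fOrd S.FS X).holds p) (hq : q ≤ p)
    (hY : fmem Y.1 X.1 q) : (fOrd S.FS Y).holds q := by
  refine ⟨h.2 Y q hq hY, fun Z r hr hZ => ?_⟩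
  exact h.2 Z r (hr.trans hq) (h.1 Y q hq hY Z r hr hZ)

theorem fOrd_hO (α : Ordinal.{u}) (p : Q) : (fOrd S.FS (S.hO α)).holds p := by
  have htr : ∀ (α : Ordinal.{u}) (p : Q), (fTrans S.FS (S.hO α)).holds p := by
    intro α p Y q hq hY Z r hr hZ
    apply fmem_reg
    intro s hs
    obtain ⟨t, ht, β, hβ, h1⟩ := fmem_oName.1 hY s (hs.trans hr)
    have h2 : fmem Z.1 (oName Q β) t := fmem_congr_right h1 (fmem_mono (ht.trans hs) hZ)
    obtain ⟨t', ht', γ, hγ, h3⟩ := fmem_oName.1 h2 t le_rfl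
    exact ⟨t', ht'.trans ht, fmem_congr_left (feq_symm h3)
      (fmem_oName_of_lt (hγ.trans hβ) t')⟩
  refine ⟨htr α p, fun Y q hq hY => ?_⟩
  intro Z r hr hZ W s hs hW
  apply fmem_reg
  intro t ht
  obtain ⟨t', ht', β, hβ, h1⟩ := fmem_oName.1 hY t (ht.trans (hs.trans hr))
  have h2 : fmem Z.1 (oName Q β) t' := fmem_congr_right h1 (fmem_mono (ht'.trans (ht.trans hs)) hZ)
  have h3 := htr β t' Z t' le_rfl h2 W t' le_rfl (fmem_mono (ht'.trans ht) hW)
  exact ⟨t', ht', fmem_congr_right (feq_symm h1) h3⟩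

/-- Every name forced to be an ordinal can be decided to be a ground model ordinal. -/
theorem decide_ord (X : S.HN) (p : Q) (h : (fOrd S.FS X).holds p) :
    ∃ q ≤ p, ∃ α : Ordinal.{u}, feq X.1 (oName Q α) q := by
  classical
  have main : ∀ (X : Name Q) (hX : S.HS X) (p : Q), (fOrd S.FS ⟨X, hX⟩).holds p →
      ∃ q ≤ p, ∃ α : Ordinal.{u}, feq X (oName Q α) q := by
    intro X
    induction X using ind with
    | h X ih =>
      intro hX p h
      let a : X.ι × Q → Ordinal.{u} := fun t =>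
        if h : ∃ α, feq (X.el t.1) (oName Q α) t.2 then h.choose else 0
      obtain ⟨B, hB⟩ : BddAbove (Set.range a) := Ordinal.bddAbove_of_small
      have hγ : ∃ α : Ordinal.{u}, ∃ q ≤ p, ∀ r ≤ q, ¬ fmem (oName Q α) X r := by
        refine ⟨B + 1, p, le_rfl, fun r hr hm => ?_⟩
        obtain ⟨s, hs, i, h1, h2⟩ := hm r le_rfl
        have h3 : ∃ α, feq (X.el i) (oName Q α) s := ⟨_, feq_symm h2⟩
        have h4 : a (i, s) = h3.choose := dif_pos h3
        have h5 := h3.choose_spec
        rw [← h4] at h5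
        have h6 : B + 1 = a (i, s) := feq_oName_iff.1 (feq_trans h2 h5)
        have h7 : a (i, s) ≤ B := hB ⟨_, rfl⟩
        rw [← h6] at h7
        exact absurd (Order.lt_add_one_iff.2 le_rfl : B < B + 1) (not_lt.2 h7)
      obtain ⟨α, hα, hmin⟩ := WellFounded.has_min (wellFounded_lt (α := Ordinal.{u}))
        {α | ∃ q ≤ p, ∀ r ≤ q, ¬ fmem (oName Q α) X r} hγ
      obtain ⟨s, hs, hs2⟩ := hα
      have hlt : ∀ β < α, fmem (oName Q β) X p := by
        intro β hβ
        apply fmem_reg
        intro q hq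
        by_contra hc
        push Not at hc
        exact hmin β ⟨q, hq, hc⟩ hβ
      refine ⟨s, hs, α, ?_⟩
      rw [feq_iff_mem]
      constructor
      · intro i q' hq' hi
        rw [fmem_oName]
        intro q hq
        have h1 : fmem (X.el i) X q := fmem_el (hq.trans hi)
        have h2 : (fOrd S.FS ⟨X.el i, hX.el i⟩).holds q :=
          S.fOrd_el (X := ⟨X, hX⟩) (Y := ⟨X.el i, hX.el i⟩) h (hq.trans (hq'.trans hs)) h1
        obtain ⟨r, hr, β, hβ⟩ := ih i (hX.el i) q h2
        refine ⟨r, hr, β, ?_, hβ⟩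
        by_contra hc
        rcases (not_lt.1 hc).eq_or_lt with rfl | h3
        · exact hs2 r (hr.trans (hq.trans hq')) (fmem_congr_left hβ (fmem_mono hr h1))
        · refine hs2 r (hr.trans (hq.trans hq')) ?_
          exact h.1 ⟨X.el i, hX.el i⟩ r (hr.trans (hq.trans (hq'.trans hs))) (fmem_mono hr h1)
            (S.hO α) r le_rfl (fmem_congr_right (feq_symm hβ) (fmem_oName_of_lt h3 r))
      · intro j q' hq' hj
        have : ∀ (j : (oName Q α).ι), ∃ β < α, (oName Q α).el j = oName Q β := by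
          rw [oName]
          intro j
          exact ⟨_, (Ordinal.ToType.toOrd j).2, rfl⟩
        obtain ⟨β, hβ, e⟩ := this j
        rw [e]
        exact fmem_mono (hq'.trans hs) (hlt β hβ)
  exact main X.1 X.2 p h

end SymSys

end Pool.Agent.H86
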