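import Pool.Agent.H86.Names

/-!
# Symmetric systems, hereditarily symmetric names and the forcing relation for formulas
-/

set_option linter.unusedVariables false
set_option linter.unusedSectionVars false

universe u v w

namespace Pool.Agent.H86

section Om

variable {Q : Type u} [Preorder Q]

namespace Om

def bot : Om Q where
  holds := fun _ => False
  mono := fun _ h => h
  reg := fun {p} h => by obtain ⟨r, _, h'⟩ := h p le_rfl; exact h'

def imp (a b : Om Q) : Om Q where
  holds := fun p => ∀ q ≤ p, a.holds q → b.holds q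
  mono := fun h hp q hq => hp q (hq.trans h)
  reg := fun {p} h q hq ha => b.reg fun r hr => by
    obtain ⟨s, hs, h'⟩ := h r (hr.trans hq)
    exact ⟨s, hs, h' s le_rfl (a.mono (hs.trans hr) ha)⟩

def and (a b : Om Q) : Om Q where
  holds := fun p => a.holds p ∧ b.holds p
  mono := fun h hp => ⟨a.mono h hp.1, b.mono h hp.2⟩
  reg := fun {p} h => ⟨a.reg fun q hq => (h q hq).imp fun r hr => ⟨hr.1, hr.2.1⟩,
    b.reg fun q hq => (h q hq).imp fun r hr => ⟨hr.1, hr.2.2⟩⟩

def or (a b : Om Q) : Om Q where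
  holds := fun p => ∀ q ≤ p, ∃ r ≤ q, a.holds r ∨ b.holds r
  mono := fun h hp q hq => hp q (hq.trans h)
  reg := fun {p} h q hq => by
    obtain ⟨r, hr, h'⟩ := h q hq
    obtain ⟨s, hs, h''⟩ := h' r le_rfl
    exact ⟨s, hs.trans hr, h''⟩

def iff (a b : Om Q) : Om Q := (a.imp b).and (b.imp a)

def all {N : Type v} (f : N → Om Q) : Om Q where
  holds := fun p => ∀ x, (f x).holds p
  mono := fun h hp x => (f x).mono h (hp x)
  reg := fun {p} h x => (f x).reg fun q hq => (h q hq).imp fun r hr => ⟨hr.1, hr.2 x⟩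

def ex {N : Type v} (f : N → Om Q) : Om Q where
  holds := fun p => ∀ q ≤ p, ∃ r ≤ q, ∃ x, (f x).holds r
  mono := fun h hp q hq => hp q (hq.trans h)
  reg := fun {p} h q hq => by
    obtain ⟨r, hr, h'⟩ := h q hq
    obtain ⟨s, hs, h''⟩ := h' r le_rfl
    exact ⟨s, hs.trans hr, h''⟩

/-- membership truth value -/
def memv (X Y : Name Q) : Om Q := ⟨Name.fmem X Y, Name.fmem_mono, Name.fmem_reg⟩

/-- equality truth value -/
def eqv (X Y : Name Q) : Om Q := ⟨Name.feq X Y, Name.feq_mono, Name.feq_reg⟩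

/-- If not forced then some extension forces the negation. -/
theorem exists_not {a : Om Q} {p : Q} (h : ¬ a.holds p) : ∃ q ≤ p, (a.imp bot).holds q := by
  by_contra hc
  push Not at hc
  apply h
  apply a.reg
  intro q hq
  by_contra hr
  push Not at hr
  exact hc q hq fun r hr1 hr2 => hr r hr1 hr2

end Om

end Om

/-- A symmetric system: a group acting on a forcing order and a normal filter of subgroups. -/
structure SymSys (Q : Type u) [Preorder Q] [OrderTop Q] (G : Type u) [Group G] [MulAction G Q]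
    where
  smul_mono : ∀ (g : G) {p q : Q}, p ≤ q → g • p ≤ g • q
  large : Subgroup G → Prop
  large_top : large ⊤
  large_inf : ∀ H K, large H → large K → large (H ⊓ K)
  large_conj : ∀ (g : G) (H : Subgroup G), large H →
    ∃ K, large K ∧ ∀ k ∈ K, g⁻¹ * k * g ∈ H

variable {Q : Type u} [Preorder Q] [OrderTop Q] {G : Type u} [Group G] [MulAction G Q]

/-- The action on names. -/
def Name.act (g : G) : Name Q → Name Q
  | ⟨ι, x, p⟩ => ⟨ι, fun i => Name.act g (x i), fun i => g • p i⟩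

namespace Name

@[simp] theorem act_one (X : Name Q) : act (1 : G) X = X := by
  induction X with
  | mk ι x p ih => simp [act, ih]

theorem act_mul (g h : G) (X : Name Q) : act (g * h) X = act g (act h X) := by
  induction X with
  | mk ι x p ih => simp [act, ih, mul_smul]

@[simp] theorem act_inv_act (g : G) (X : Name Q) : act g⁻¹ (act g X) = X := by
  rw [← act_mul]; simp

@[simp] theorem act_act_inv (g : G) (X : Name Q) : act g (act g⁻¹ X) = X := by
  rw [← act_mul]; simp

end Name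

namespace SymSys

variable (S : SymSys Q G)

include S in
theorem smul_le_iff (g : G) {p q : Q} : g • p ≤ g • q ↔ p ≤ q :=
  ⟨fun h => by simpa using S.smul_mono g⁻¹ h, fun h => S.smul_mono g h⟩

include S in
theorem smul_le (g : G) {p q : Q} : g • p ≤ q ↔ p ≤ g⁻¹ • q := by
  rw [← S.smul_le_iff g⁻¹]; simp

include S in
theorem le_smul (g : G) {p q : Q} : p ≤ g • q ↔ g⁻¹ • p ≤ q := by
  rw [← S.smul_le_iff g⁻¹]; simp

include S in
theorem feq_act_aux (g : G) : ∀ {X Y : Name Q} {q : Q}, X.feq Y q →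
    (X.act g).feq (Y.act g) (g • q) := by
  intro X
  induction X with
  | mk ι x p ih =>
    intro Y q h
    cases Y with
    | mk κ y r =>
      rw [Name.feq_def] at h ⊢
      constructor
      · intro i q' hq' hi
        obtain ⟨q2, a1, j, a2, a3⟩ := h.1 i (g⁻¹ • q')
          ((S.smul_le g⁻¹).2 (by simpa using hq'))
          ((S.smul_le g⁻¹).2 (by rw [inv_inv]; exact hi))
        refine ⟨g • q2, (S.smul_le g).2 a1, j, S.smul_mono g a2, ih i a3⟩
      · intro i q' hq' hi
        obtain ⟨q2, a1, j, a2, a3⟩ := h.2 i (g⁻¹ • q')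
          ((S.smul_le g⁻¹).2 (by simpa using hq'))
          ((S.smul_le g⁻¹).2 (by rw [inv_inv]; exact hi))
        refine ⟨g • q2, (S.smul_le g).2 a1, j, S.smul_mono g a2, ih j a3⟩

include S in
theorem feq_act (g : G) {X Y : Name Q} {q : Q} :
    (X.act g).feq (Y.act g) (g • q) ↔ X.feq Y q :=
  ⟨fun h => by simpa using S.feq_act_aux g⁻¹ h, S.feq_act_aux g⟩

include S in
theorem fmem_act_aux (g : G) {X Y : Name Q} {q : Q} (h : X.fmem Y q) :
    (X.act g).fmem (Y.act g) (g • q) := by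
  cases Y with
  | mk κ y r =>
    intro q' hq'
    obtain ⟨q2, a1, j, a2, a3⟩ := h (g⁻¹ • q') ((S.smul_le g⁻¹).2 (by simpa using hq'))
    exact ⟨g • q2, (S.smul_le g).2 a1, j, S.smul_mono g a2, S.feq_act_aux g a3⟩

include S in
theorem fmem_act (g : G) {X Y : Name Q} {q : Q} :
    (X.act g).fmem (Y.act g) (g • q) ↔ X.fmem Y q :=
  ⟨fun h => by simpa using S.fmem_act_aux g⁻¹ h, S.fmem_act_aux g⟩

/-- `H` supports the name `X`. -/
def Supp (_S : SymSys Q G) (H : Subgroup G) (X : Name Q) : Prop :=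
  ∀ g ∈ H, ∀ q, (X.act g).feq X q

/-- Symmetric names. -/
def Sym (X : Name Q) : Prop := ∃ H, S.large H ∧ S.Supp H X

/-- Hereditarily symmetric names. -/
def HS : Name Q → Prop
  | ⟨ι, x, p⟩ => S.Sym ⟨ι, x, p⟩ ∧ ∀ i, HS (x i)

theorem HS_def (X : Name Q) : S.HS X ↔ S.Sym X ∧ ∀ i, S.HS (X.el i) := by
  cases X; rw [HS]; rfl

theorem HS.sym {S : SymSys Q G} {X : Name Q} (h : S.HS X) : S.Sym X := ((S.HS_def X).1 h).1

theorem HS.el {S : SymSys Q G} {X : Name Q} (h : S.HS X) (i : X.ι) : S.HS (X.el i) :=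
  ((S.HS_def X).1 h).2 i

theorem Sym.act {S : SymSys Q G} {X : Name Q} (g : G) (h : S.Sym X) : S.Sym (X.act g) := by
  obtain ⟨H, hH, hs⟩ := h
  obtain ⟨K, hK, hk⟩ := S.large_conj g H hH
  refine ⟨K, hK, fun k hkK q => ?_⟩
  have h1 := hs _ (hk k hkK) (g⁻¹ • q)
  have h2 := S.feq_act_aux g h1
  rw [← Name.act_mul] at h2
  simp only [smul_inv_smul, mul_assoc, mul_inv_cancel_left] at h2
  rwa [Name.act_mul] at h2

theorem HS.act {S : SymSys Q G} {X : Name Q} (g : G) (h : S.HS X) : S.HS (X.act g) := by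
  induction X with
  | mk ι x p ih =>
    rw [HS_def]
    refine ⟨h.sym.act g, fun i => ih i (h.el i)⟩

/-- Criterion for support. -/
theorem supp_of_sub {H : Subgroup G} {X : Name Q}
    (h : ∀ g ∈ H, ∀ i, ((X.el i).act g).fmem X (g • X.cd i)) : S.Supp H X := by
  have key : ∀ g ∈ H, ∀ q, ∀ Z : Name Q, Z.fmem (X.act g) q → Z.fmem X q := by
    intro g hg q Z hZ
    cases X with
    | mk ι x p =>
      apply Name.fmem_reg
      intro q1 hq1
      obtain ⟨q2, a1, i, a2, a3⟩ := hZ q1 hq1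
      exact ⟨q2, a1, Name.fmem_congr_left (Name.feq_symm a3) (Name.fmem_mono a2 (h g hg i))⟩
  intro g hg q
  rw [Name.feq_iff_mem]
  refine ⟨fun i q' _ hi => key g hg q' _ (Name.fmem_el hi), fun i q' _ hi => ?_⟩
  have h1 : ((X.el i).act g⁻¹).fmem (X.act g⁻¹) (g⁻¹ • q') :=
    S.fmem_act_aux _ (Name.fmem_el hi)
  have h2 := key g⁻¹ (H.inv_mem hg) _ _ h1
  have h3 := S.fmem_act_aux g h2
  simpa using h3

theorem Supp.mono {S : SymSys Q G} {H K : Subgroup G} {X : Name Q} (hKH : K ≤ H)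
    (h : S.Supp H X) : S.Supp K X := fun g hg => h g (hKH hg)

/-- The type of hereditarily symmetric names. -/
abbrev HN : Type (u + 1) := {X : Name Q // S.HS X}

/-- Action on the type of hereditarily symmetric names. -/
def hact (g : G) (X : S.HN) : S.HN := ⟨X.1.act g, X.2.act g⟩

/-- The forcing interpretation. -/
def FS : LogicStr S.HN (Om Q) where
  mem := fun X Y => Om.memv X.1 Y.1
  eq := fun X Y => Om.eqv X.1 Y.1
  bot := Om.bot
  imp := Om.imp
  and := Om.and
  or := Om.or
  iff := Om.iff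
  all := Om.all
  ex := Om.ex

theorem hact_upd (g : G) (f : ℕ → S.HN) (k : ℕ) (x : S.HN) :
    (fun i => S.hact g (upd f k x i)) = upd (fun i => S.hact g (f i)) k (S.hact g x) := by
  funext j
  by_cases hj : j = k <;> simp [upd, hj]

@[simp] theorem hact_hact_inv (g : G) (x : S.HN) : S.hact g (S.hact g⁻¹ x) = x :=
  Subtype.ext (by simp [hact])

@[simp] theorem hact_inv_hact (g : G) (x : S.HN) : S.hact g⁻¹ (S.hact g x) = x :=
  Subtype.ext (by simp [hact])

theorem eval_act_iff (g : G) (φ : Fml) : ∀ (f : ℕ → S.HN) (p : Q),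
    (φ.eval S.FS (fun i => S.hact g (f i))).holds (g • p) ↔ (φ.eval S.FS f).holds p := by
  have himp : ∀ (a b a' b' : Om Q) (_ : ∀ p, a'.holds (g • p) ↔ a.holds p)
      (_ : ∀ p, b'.holds (g • p) ↔ b.holds p) (p : Q),
      (a'.imp b').holds (g • p) ↔ (a.imp b).holds p := by
    intro a b a' b' ha hb p
    constructor
    · intro h q hq haq
      rw [← hb]
      exact h _ (S.smul_mono g hq) ((ha q).2 haq)
    · intro h q hq haq
      have h1 := h (g⁻¹ • q) ((S.smul_le g⁻¹).2 (by simpa using hq))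
        (by rw [← ha]; simpa using haq)
      rw [← hb] at h1
      simpa using h1
  have hor : ∀ (a b a' b' : Om Q) (_ : ∀ p, a'.holds (g • p) ↔ a.holds p)
      (_ : ∀ p, b'.holds (g • p) ↔ b.holds p) (p : Q),
      (a'.or b').holds (g • p) ↔ (a.or b).holds p := by
    intro a b a' b' ha hb p
    constructor
    · intro h q hq
      obtain ⟨r, hr, h'⟩ := h _ (S.smul_mono g hq)
      refine ⟨g⁻¹ • r, (S.smul_le g⁻¹).2 (by simpa using hr), ?_⟩
      rw [← ha, ← hb]; simpa using h'
    · intro h q hq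
      obtain ⟨r, hr, h'⟩ := h (g⁻¹ • q) ((S.smul_le g⁻¹).2 (by simpa using hq))
      refine ⟨g • r, (S.smul_le g).2 hr, ?_⟩
      rw [ha, hb]; exact h'
  induction φ with
  | mem i j => intro f p; exact S.fmem_act g
  | eq i j => intro f p; exact S.feq_act g
  | bot => intro f p; exact Iff.rfl
  | imp φ ψ ih1 ih2 => intro f p; exact himp _ _ _ _ (ih1 f) (ih2 f) p
  | and φ ψ ih1 ih2 => intro f p; exact and_congr (ih1 f p) (ih2 f p)
  | or φ ψ ih1 ih2 => intro f p; exact hor _ _ _ _ (ih1 f) (ih2 f) p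
  | iff φ ψ ih1 ih2 =>
    intro f p
    exact and_congr (himp _ _ _ _ (ih1 f) (ih2 f) p) (himp _ _ _ _ (ih2 f) (ih1 f) p)
  | all k φ ih =>
    intro f p
    constructor
    · intro h x
      have h1 := h (S.hact g x)
      rw [← ih, S.hact_upd]
      exact h1
    · intro h x
      have h1 := h (S.hact g⁻¹ x)
      rw [← ih, S.hact_upd] at h1
      simpa using h1
  | ex k φ ih =>
    intro f p
    constructor
    · intro h q hq
      obtain ⟨r, hr, x, hx⟩ := h _ (S.smul_mono g hq)
      refine ⟨g⁻¹ • r, (S.smul_le g⁻¹).2 (by simpa using hr), S.hact g⁻¹ x, ?_⟩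
      rw [← ih, S.hact_upd]
      simpa using hx
    · intro h q hq
      obtain ⟨r, hr, x, hx⟩ := h (g⁻¹ • q) ((S.smul_le g⁻¹).2 (by simpa using hq))
      refine ⟨g • r, (S.smul_le g).2 hr, S.hact g x, ?_⟩
      rw [← ih, S.hact_upd] at hx
      exact hx

/-- Forced equalities can be substituted in formulas. -/
theorem eval_eq_iff (φ : Fml) : ∀ (f f' : ℕ → S.HN) (p : Q)
    (_ : ∀ i < φ.bd, (f i).1.feq (f' i).1 p),
    (φ.eval S.FS f).holds p ↔ (φ.eval S.FS f').holds p := by
  induction φ with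
  | mem i j =>
    intro f f' p h
    have hi := h i (by simp [Fml.bd])
    have hj := h j (by simp [Fml.bd])
    constructor
    · intro h1
      exact Name.fmem_congr_left hi (Name.fmem_congr_right hj h1)
    · intro h1
      exact Name.fmem_congr_left (Name.feq_symm hi) (Name.fmem_congr_right (Name.feq_symm hj) h1)
  | eq i j =>
    intro f f' p h
    have hi := h i (by simp [Fml.bd])
    have hj := h j (by simp [Fml.bd])
    constructor
    · intro h1
      exact Name.feq_trans (Name.feq_symm hi) (Name.feq_trans h1 hj)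
    · intro h1
      exact Name.feq_trans hi (Name.feq_trans h1 (Name.feq_symm hj))
  | bot => intro f f' p h; exact Iff.rfl
  | imp φ ψ ih1 ih2 =>
    intro f f' p h
    have h1 : ∀ q ≤ p, ((φ.eval S.FS f).holds q ↔ (φ.eval S.FS f').holds q) := fun q hq =>
      ih1 f f' q fun i hi => Name.feq_mono hq (h i (lt_of_lt_of_le hi (le_max_left _ _)))
    have h2 : ∀ q ≤ p, ((ψ.eval S.FS f).holds q ↔ (ψ.eval S.FS f').holds q) := fun q hq =>
      ih2 f f' q fun i hi => Name.feq_mono hq (h i (lt_of_lt_of_le hi (le_max_right _ _)))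
    exact ⟨fun h3 q hq hq' => (h2 q hq).1 (h3 q hq ((h1 q hq).2 hq')),
      fun h3 q hq hq' => (h2 q hq).2 (h3 q hq ((h1 q hq).1 hq'))⟩
  | and φ ψ ih1 ih2 =>
    intro f f' p h
    exact and_congr (ih1 f f' p fun i hi => h i (lt_of_lt_of_le hi (le_max_left _ _)))
      (ih2 f f' p fun i hi => h i (lt_of_lt_of_le hi (le_max_right _ _)))
  | or φ ψ ih1 ih2 =>
    intro f f' p h
    have h1 : ∀ q ≤ p, ((φ.eval S.FS f).holds q ↔ (φ.eval S.FS f').holds q) := fun q hq =>
      ih1 f f' q fun i hi => Name.feq_mono hq (h i (lt_of_lt_of_le hi (le_max_left _ _)))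
    have h2 : ∀ q ≤ p, ((ψ.eval S.FS f).holds q ↔ (ψ.eval S.FS f').holds q) := fun q hq =>
      ih2 f f' q fun i hi => Name.feq_mono hq (h i (lt_of_lt_of_le hi (le_max_right _ _)))
    constructor
    · intro h3 q hq
      obtain ⟨r, hr, h4⟩ := h3 q hq
      exact ⟨r, hr, h4.imp (h1 r (hr.trans hq)).1 (h2 r (hr.trans hq)).1⟩
    · intro h3 q hq
      obtain ⟨r, hr, h4⟩ := h3 q hq
      exact ⟨r, hr, h4.imp (h1 r (hr.trans hq)).2 (h2 r (hr.trans hq)).2⟩
  | iff φ ψ ih1 ih2 =>
    intro f f' p h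
    have h1 : ∀ q ≤ p, ((φ.eval S.FS f).holds q ↔ (φ.eval S.FS f').holds q) := fun q hq =>
      ih1 f f' q fun i hi => Name.feq_mono hq (h i (lt_of_lt_of_le hi (le_max_left _ _)))
    have h2 : ∀ q ≤ p, ((ψ.eval S.FS f).holds q ↔ (ψ.eval S.FS f').holds q) := fun q hq =>
      ih2 f f' q fun i hi => Name.feq_mono hq (h i (lt_of_lt_of_le hi (le_max_right _ _)))
    exact and_congr
      ⟨fun h3 q hq hq' => (h2 q hq).1 (h3 q hq ((h1 q hq).2 hq')),
        fun h3 q hq hq' => (h2 q hq).2 (h3 q hq ((h1 q hq).1 hq'))⟩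
      ⟨fun h3 q hq hq' => (h1 q hq).1 (h3 q hq ((h2 q hq).2 hq')),
        fun h3 q hq hq' => (h1 q hq).2 (h3 q hq ((h2 q hq).1 hq'))⟩
  | all k φ ih =>
    intro f f' p h
    refine forall_congr' fun x => ih _ _ _ fun i hi => ?_
    by_cases hk : i = k
    · subst hk; simpa using Name.feq_refl _ _
    · rw [upd_ne _ _ hk, upd_ne _ _ hk]; exact h i hi
  | ex k φ ih =>
    intro f f' p h
    have h1 : ∀ x, ∀ q ≤ p, ((φ.eval S.FS (upd f k x)).holds q ↔
        (φ.eval S.FS (upd f' k x)).holds q) := fun x q hq =>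
      ih _ _ _ fun i hi => by
        by_cases hk : i = k
        · subst hk; simpa using Name.feq_refl _ _
        · rw [upd_ne _ _ hk, upd_ne _ _ hk]; exact Name.feq_mono hq (h i hi)
    constructor
    · intro h3 q hq
      obtain ⟨r, hr, x, h4⟩ := h3 q hq
      exact ⟨r, hr, x, (h1 x r (hr.trans hq)).1 h4⟩
    · intro h3 q hq
      obtain ⟨r, hr, x, h4⟩ := h3 q hq
      exact ⟨r, hr, x, (h1 x r (hr.trans hq)).2 h4⟩

/-- Finitely many names have a common support. -/
theorem exists_supp (f : ℕ → S.HN) (n : ℕ) :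
    ∃ H, S.large H ∧ ∀ i < n, S.Supp H (f i).1 := by
  induction n with
  | zero => exact ⟨⊤, S.large_top, fun i hi => absurd hi (by omega)⟩
  | succ n ih =>
    obtain ⟨H, hH, h1⟩ := ih
    obtain ⟨K, hK, h2⟩ := (f n).2.sym
    refine ⟨H ⊓ K, S.large_inf _ _ hH hK, fun i hi => ?_⟩
    rcases Nat.lt_succ_iff_lt_or_eq.1 hi with h | rfl
    · exact (h1 i h).mono inf_le_left
    · exact Supp.mono inf_le_right h2

/-- Moving a formula by an element that fixes the parameters other than those listed. -/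
theorem eval_supp (φ : Fml) (f f' : ℕ → S.HN) {g : G} {p : Q}
    (h : ∀ i < φ.bd, ((f i).1.act g).feq (f' i).1 (g • p)) :
    (φ.eval S.FS f).holds p ↔ (φ.eval S.FS f').holds (g • p) := by
  rw [← S.eval_act_iff g φ f p]
  exact S.eval_eq_iff φ _ _ _ fun i hi => h i hi

end SymSys

end Pool.Agent.H86
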