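import Pool.Agent.H86.Henkin
import Pool.Agent.H86.Model

/-!
# The ZF statements are forced
-/

set_option linter.unusedVariables false
set_option linter.unusedSectionVars false

universe u v w

namespace Pool.Agent.H86

section Formulas

variable {N : Type v} {Ω : Type w} (L : LogicStr N Ω)

def fExt : Ω := L.all fun x => L.all fun y =>
  L.imp (L.all fun z => L.iff (L.mem z x) (L.mem z y)) (L.eq x y)

def fFound : Ω := L.all fun x => L.imp (L.ex fun y => L.mem y x)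
  (L.ex fun y => L.and (L.mem y x) (L.all fun z => L.imp (L.mem z x) (L.imp (L.mem z y) L.bot)))

def fPair : Ω := L.all fun x => L.all fun y => L.ex fun z => L.all fun w =>
  L.iff (L.mem w z) (L.or (L.eq w x) (L.eq w y))

def fUnion : Ω := L.all fun x => L.ex fun u => L.all fun z =>
  L.iff (L.mem z u) (L.ex fun y => L.and (L.mem y x) (L.mem z y))

def fPower : Ω := L.all fun x => L.ex fun p => L.all fun z =>
  L.iff (L.mem z p) (L.all fun w => L.imp (L.mem w z) (L.mem w x))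

def fInf : Ω := L.ex fun x => L.and
  (L.ex fun e => L.and (L.mem e x) (L.all fun z => L.imp (L.mem z e) L.bot))
  (L.all fun y => L.imp (L.mem y x) (L.ex fun s => L.and (L.mem s x)
    (L.all fun z => L.iff (L.mem z s) (L.or (L.mem z y) (L.eq z y)))))

/-- separation for the predicate `P` -/
def fSep (P : N → Ω) : Ω := L.all fun a => L.ex fun b => L.all fun x =>
  L.iff (L.mem x b) (L.and (L.mem x a) (P x))

/-- collection for the relation `P` -/
def fColl (P : N → N → Ω) : Ω := L.all fun a =>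
  L.imp (L.all fun x => L.imp (L.mem x a) (L.ex fun y => P x y))
    (L.ex fun b => L.all fun x => L.imp (L.mem x a) (L.ex fun y => L.and (L.mem y b) (P x y)))

end Formulas

/-- the separation instance as a formula -/
def cSep (φ : Fml) : Fml :=
  let n := max φ.bd 1
  .all n (.ex (n + 1) (.all 0 (.iff (.mem 0 (n + 1)) (.and (.mem 0 n) φ))))

/-- the collection instance as a formula -/
def cColl (φ : Fml) : Fml :=
  let n := max φ.bd 2
  .all n (.imp (.all 0 (.imp (.mem 0 n) (.ex 1 φ)))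
    (.ex (n + 1) (.all 0 (.imp (.mem 0 n) (.ex 1 (.and (.mem 1 (n + 1)) φ))))))

theorem eval_cSep {N : Type v} {Ω : Type w} (L : LogicStr N Ω) (φ : Fml) (f : ℕ → N) :
    (cSep φ).eval L f = fSep L fun x => φ.eval L (upd f 0 x) := by
  have h0 : ∀ a b x, φ.eval L (upd (upd (upd f (max φ.bd 1) a) (max φ.bd 1 + 1) b) 0 x) =
      φ.eval L (upd f 0 x) := by
    intro a b x
    apply Fml.eval_congr
    intro i hi
    by_cases h : i = 0
    · subst h; simp
    · rw [upd_ne _ _ h, upd_ne _ _ h, upd_ne, upd_ne]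
      · have := le_max_left φ.bd 1; omega
      · have := le_max_left φ.bd 1; omega
  have hn : max φ.bd 1 ≠ 0 := by have := le_max_right φ.bd 1; omega
  have e1 : (0 : ℕ) ≠ max φ.bd 1 + 1 := by omega
  simp only [cSep, Fml.eval, fSep, h0]
  congr 1; funext a; congr 1; funext b; congr 1; funext x
  simp [upd, hn]

theorem eval_cColl {N : Type v} {Ω : Type w} (L : LogicStr N Ω) (φ : Fml) (f : ℕ → N) :
    (cColl φ).eval L f = fColl L fun x y => φ.eval L (upd (upd f 0 x) 1 y) := by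
  have h0 : ∀ a b x y, φ.eval L (upd (upd (upd (upd f (max φ.bd 2) a) (max φ.bd 2 + 1) b) 0 x) 1 y)
      = φ.eval L (upd (upd f 0 x) 1 y) := by
    intro a b x y
    apply Fml.eval_congr
    intro i hi
    by_cases h : i = 1
    · subst h; simp
    rw [upd_ne _ _ h, upd_ne _ _ h]
    by_cases h : i = 0
    · subst h; simp
    · rw [upd_ne _ _ h, upd_ne _ _ h, upd_ne, upd_ne]
      · have := le_max_left φ.bd 2; omega
      · have := le_max_left φ.bd 2; omega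
  have h1 : ∀ a x y, φ.eval L (upd (upd (upd f (max φ.bd 2) a) 0 x) 1 y)
      = φ.eval L (upd (upd f 0 x) 1 y) := by
    intro a x y
    apply Fml.eval_congr
    intro i hi
    by_cases h : i = 1
    · subst h; simp
    rw [upd_ne _ _ h, upd_ne _ _ h]
    by_cases h : i = 0
    · subst h; simp
    · rw [upd_ne _ _ h, upd_ne _ _ h, upd_ne]
      · have := le_max_left φ.bd 2; omega
  have hn : max φ.bd 2 ≠ 0 := by have := le_max_right φ.bd 2; omega
  have hn1 : max φ.bd 2 ≠ 1 := by have := le_max_right φ.bd 2; omega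
  simp only [cColl, Fml.eval, fColl, h0, h1]
  congr 1; funext a
  congr 1
  · congr 1; funext x; simp [upd, hn]
  · congr 1; funext b; congr 1; funext x
    congr 1
    · simp [upd, hn]
    · congr 1; funext y; simp [upd, hn]

namespace SymSys

variable {Q : Type u} [Preorder Q] [OrderTop Q] {G : Type u} [Group G] [MulAction G Q]
variable (S : SymSys Q G)

open Name

theorem forced_ext (p : Q) : (fExt S.FS).holds p := by
  intro X Y q hq h
  show feq X.1 Y.1 q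
  rw [feq_iff_mem]
  refine ⟨fun i q' hq' hi => ?_, fun i q' hq' hi => ?_⟩
  · exact (h ⟨_, X.2.el i⟩).1 q' hq' (fmem_el hi)
  · exact (h ⟨_, Y.2.el i⟩).2 q' hq' (fmem_el hi)

theorem forced_found (p : Q) : (fFound S.FS).holds p := by
  intro X q hq h
  have key : ∀ Y : Name Q, S.HS Y → ∀ r, fmem Y X.1 r → ∃ s ≤ r, ∃ Z : S.HN,
      (S.FS.and (S.FS.mem Z X)
        (S.FS.all fun z => S.FS.imp (S.FS.mem z X) (S.FS.imp (S.FS.mem z Z) S.FS.bot))).holds s := by
    intro Y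
    induction Y using ind with
    | h Y ih =>
      intro hY r hr
      by_cases hc : (S.FS.all fun z =>
          S.FS.imp (S.FS.mem z X) (S.FS.imp (S.FS.mem z ⟨Y, hY⟩) S.FS.bot)).holds r
      · exact ⟨r, le_rfl, ⟨Y, hY⟩, hr, hc⟩
      · have hc' : ∃ z : S.HN, ¬ (S.FS.imp (S.FS.mem z X)
            (S.FS.imp (S.FS.mem z ⟨Y, hY⟩) S.FS.bot)).holds r := by
          by_contra h'
          push Not at h'
          exact hc h'
        obtain ⟨z, hz⟩ := hc'
        have hz' : ∃ s ≤ r, fmem z.1 X.1 s ∧ fmem z.1 Y s := by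
          by_contra h'
          push Not at h'
          apply hz
          intro s hs hs1 t ht hs2
          exact (h' t (ht.trans hs) (fmem_mono ht hs1) hs2).elim
        obtain ⟨s, hs, h1, h2⟩ := hz'
        obtain ⟨t, ht, i, h3, h4⟩ := h2 s le_rfl
        obtain ⟨t', ht', Z, hZ⟩ := ih i (hY.el i) t (fmem_congr_left h4 (fmem_mono ht h1))
        exact ⟨t', ht'.trans (ht.trans hs), Z, hZ⟩
  intro q' hq'
  obtain ⟨r, hr, Y, hY⟩ := h q' hq'
  obtain ⟨s, hs, Z, hZ⟩ := key Y.1 Y.2 r hY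
  exact ⟨s, hs.trans hr, Z, hZ⟩

/-- names all of whose conditions are top and whose elements are supported by `H` -/
theorem supp_top {H : Subgroup G} {ι : Type u} {x : ι → Name Q}
    (h : ∀ g ∈ H, ∀ i, ∀ q, ∃ j, ((x i).act g).feq (x j) q) :
    S.Supp H (Name.mk ι x fun _ => ⊤) := by
  apply S.supp_of_sub
  intro g hg i
  show ((x i).act g).fmem _ _
  intro q' hq'
  obtain ⟨j, hj⟩ := h g hg i q'
  exact ⟨q', le_rfl, j, le_top, hj⟩

theorem HS_mk_top {H : Subgroup G} (hH : S.large H) {ι : Type u} {x : ι → Name Q}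
    (h : ∀ g ∈ H, ∀ i, ∀ q, ∃ j, ((x i).act g).feq (x j) q) (hx : ∀ i, S.HS (x i)) :
    S.HS (Name.mk ι x fun _ => ⊤) := by
  rw [HS_def]
  exact ⟨⟨H, hH, S.supp_top h⟩, hx⟩

theorem HS_upair {X Y : Name Q} (hX : S.HS X) (hY : S.HS Y) : S.HS (upair X Y) := by
  obtain ⟨H, hH, h1⟩ := hX.sym
  obtain ⟨K, hK, h2⟩ := hY.sym
  refine S.HS_mk_top (S.large_inf _ _ hH hK) ?_ ?_
  · rintro g hg ⟨b⟩ q
    refine ⟨⟨b⟩, ?_⟩
    cases b
    · exact h2 g hg.2 q
    · exact h1 g hg.1 q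
  · rintro ⟨b⟩
    cases b
    · exact hY
    · exact hX

/-- unordered pair of hereditarily symmetric names -/
def hupair (X Y : S.HN) : S.HN := ⟨upair X.1 Y.1, S.HS_upair X.2 Y.2⟩

/-- ordered pair of hereditarily symmetric names -/
def hopair (X Y : S.HN) : S.HN := S.hupair (S.hupair X X) (S.hupair X Y)

theorem forced_pair (p : Q) : (fPair S.FS).holds p := by
  intro X Y q hq
  refine ⟨q, le_rfl, S.hupair X Y, fun Z => ⟨fun r hr h => ?_, fun r hr h => ?_⟩⟩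
  · exact fmem_upair.1 h
  · exact fmem_upair.2 h

theorem supp_sUnion {H : Subgroup G} {X : Name Q} (h : S.Supp H X) : S.Supp H X.sUnion := by
  apply S.supp_of_sub
  rintro g hg ⟨⟨⟨i, j⟩, r⟩, hr1, hr2⟩
  show (((X.el i).el j).act g).fmem X.sUnion (g • r)
  rw [fmem_sUnion]
  have h1 : ((X.el i).act g).fmem (X.act g) (g • r) := S.fmem_act_aux g (fmem_el hr1)
  have h2 : ((X.el i).act g).fmem X (g • r) := fmem_congr_right (h g hg _) h1
  have h3 : (((X.el i).el j).act g).fmem ((X.el i).act g) (g • r) :=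
    S.fmem_act_aux g (fmem_el hr2)
  intro q' hq'
  obtain ⟨q2, a1, k, a2, a3⟩ := h2 q' hq'
  exact ⟨q2, a1, k, a2, fmem_congr_right a3 (fmem_mono (a1.trans hq') h3)⟩

theorem HS_sUnion {X : Name Q} (hX : S.HS X) : S.HS X.sUnion := by
  obtain ⟨H, hH, h1⟩ := hX.sym
  rw [HS_def]
  refine ⟨⟨H, hH, S.supp_sUnion h1⟩, ?_⟩
  rintro ⟨⟨⟨i, j⟩, r⟩, hr1, hr2⟩
  exact (hX.el i).el j

theorem forced_union (p : Q) : (fUnion S.FS).holds p := by
  intro X q hq
  refine ⟨q, le_rfl, ⟨_, S.HS_sUnion X.2⟩, fun Z => ⟨fun r hr h => ?_, fun r hr h => ?_⟩⟩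
  · intro s hs
    obtain ⟨t, ht, i, h1, h2⟩ := fmem_sUnion.1 h s hs
    exact ⟨t, ht, ⟨_, X.2.el i⟩, fmem_el h1, h2⟩
  · refine fmem_sUnion.2 fun s hs => ?_
    obtain ⟨t, ht, Y, h1, h2⟩ := h s hs
    obtain ⟨t', ht', i, h3, h4⟩ := h1 t le_rfl
    exact ⟨t', ht'.trans ht, i, h3, fmem_congr_right h4 (fmem_mono ht' h2)⟩

/-- Criterion for sub-names to be supported. -/
theorem supp_sub {H : Subgroup G} {X : Name Q} (hX : S.Supp H X) {A : X.ι → Q → Prop}
    (hA : ∀ i p q, q ≤ p → A i p → A i q)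
    (h : ∀ g ∈ H, ∀ i j q, A i q → ((X.el i).act g).feq (X.el j) (g • q) → A j (g • q)) :
    S.Supp H (X.sub A) := by
  apply S.supp_of_sub
  rintro g hg ⟨⟨i, r⟩, hr1, hr2⟩
  show ((X.el i).act g).fmem (X.sub A) (g • r)
  rw [fmem_sub hA]
  have h1 : ((X.el i).act g).fmem (X.act g) (g • r) := S.fmem_act_aux g (fmem_el hr1)
  have h2 : ((X.el i).act g).fmem X (g • r) := fmem_congr_right (hX g hg _) h1
  intro q' hq'
  obtain ⟨q2, a1, k, a2, a3⟩ := h2 q' hq'
  refine ⟨q2, a1, k, a2, ?_, a3⟩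
  have h4 : g⁻¹ • q2 ≤ r := (S.smul_le g⁻¹).2 (by simpa using a1.trans hq')
  have h5 := h g hg i k (g⁻¹ • q2) (hA i _ _ h4 hr2) (by simpa using a3)
  simpa using h5

theorem HS_sub {X : Name Q} (hX : S.HS X) {A : X.ι → Q → Prop} (h : S.Sym (X.sub A)) :
    S.HS (X.sub A) := by
  rw [HS_def]
  exact ⟨h, fun i => hX.el _⟩

theorem exists_sep (φ : Fml) (f : ℕ → S.HN) (X : S.HN) :
    ∃ Y : S.HN, ∀ (Z : S.HN) (p : Q),
      fmem Z.1 Y.1 p ↔ fmem Z.1 X.1 p ∧ (φ.eval S.FS (upd f 0 Z)).holds p := by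
  set A : X.1.ι → Q → Prop := fun i q => (φ.eval S.FS (upd f 0 ⟨X.1.el i, X.2.el i⟩)).holds q
  have hA : ∀ i p q, q ≤ p → A i p → A i q := fun i p q h => (φ.eval S.FS _).mono h
  obtain ⟨H, hH, h1⟩ := S.exists_supp f φ.bd
  obtain ⟨K, hK, h2⟩ := X.2.sym
  have hsupp : S.Supp (H ⊓ K) (X.1.sub A) := by
    refine S.supp_sub (h2.mono inf_le_right) hA ?_
    intro g hg i j q hq he
    have := (S.eval_supp φ (upd f 0 ⟨X.1.el i, X.2.el i⟩) (upd f 0 ⟨X.1.el j, X.2.el j⟩)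
      (g := g) (p := q) ?_).1 hq
    · exact this
    · intro k hk
      by_cases h0 : k = 0
      · subst h0; simpa using he
      · rw [upd_ne _ _ h0, upd_ne _ _ h0]
        exact h1 k hk g hg.1 _
  refine ⟨⟨X.1.sub A, S.HS_sub X.2 ⟨_, S.large_inf _ _ hH hK, hsupp⟩⟩, fun Z p => ?_⟩
  show fmem Z.1 (X.1.sub A) p ↔ _
  rw [fmem_sub hA]
  have hcong : ∀ i r, feq Z.1 (X.1.el i) r →
      (A i r ↔ (φ.eval S.FS (upd f 0 Z)).holds r) := by
    intro i r hr
    apply S.eval_eq_iff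
    intro k hk
    by_cases h0 : k = 0
    · subst h0; simpa using feq_symm hr
    · rw [upd_ne _ _ h0, upd_ne _ _ h0]; exact feq_refl _ _
  constructor
  · intro h
    refine ⟨fun q' hq' => ?_, (φ.eval S.FS _).reg fun q' hq' => ?_⟩
    · obtain ⟨q2, a1, i, a2, a3, a4⟩ := h q' hq'
      exact ⟨q2, a1, i, a2, a4⟩
    · obtain ⟨q2, a1, i, a2, a3, a4⟩ := h q' hq'
      exact ⟨q2, a1, (hcong i q2 a4).1 a3⟩
  · rintro ⟨h3, h4⟩ q' hq'
    obtain ⟨q2, a1, i, a2, a3⟩ := h3 q' hq'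
    exact ⟨q2, a1, i, a2, (hcong i q2 a3).2 ((φ.eval S.FS _).mono (a1.trans hq') h4), a3⟩

theorem forced_sep (φ : Fml) (f : ℕ → S.HN) (p : Q) : ((cSep φ).eval S.FS f).holds p := by
  rw [eval_cSep]
  intro X q hq
  obtain ⟨Y, hY⟩ := S.exists_sep φ f X
  exact ⟨q, le_rfl, Y, fun Z => ⟨fun r hr h => (hY Z r).1 h, fun r hr h => (hY Z r).2 h⟩⟩

/-- powerset name -/
def pow (X : Name Q) : Name Q :=
  Name.mk {A : X.ι → Q → Prop // (∀ i p q, q ≤ p → A i p → A i q) ∧ S.HS (X.sub A)}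
    (fun A => X.sub A.1) (fun _ => ⊤)

theorem fmem_pow {X : S.HN} (Z : S.HN) (p : Q) :
    fmem Z.1 (S.pow X.1) p ↔ ∀ W : S.HN, ∀ q ≤ p, fmem W.1 Z.1 q → fmem W.1 X.1 q := by
  constructor
  · intro h W q hq hW
    apply fmem_reg
    intro q' hq'
    obtain ⟨q2, a1, ⟨A, hA, _⟩, a2, a3⟩ := h q' (hq'.trans hq)
    refine ⟨q2, a1, ?_⟩
    have h1 : fmem W.1 (X.1.sub A) q2 := fmem_congr_right a3 (fmem_mono (a1.trans hq') hW)
    rw [fmem_sub hA] at h1
    intro r hr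
    obtain ⟨r', hr', i, b1, b2, b3⟩ := h1 r hr
    exact ⟨r', hr', i, b1, b3⟩
  · intro h
    set A : X.1.ι → Q → Prop := fun i r => fmem (X.1.el i) Z.1 r
    have hA : ∀ i p q, q ≤ p → A i p → A i q := fun i p q hqp => fmem_mono hqp
    obtain ⟨H, hH, h1⟩ := Z.2.sym
    obtain ⟨K, hK, h2⟩ := X.2.sym
    have hsupp : S.Supp (H ⊓ K) (X.1.sub A) := by
      refine S.supp_sub (h2.mono inf_le_right) hA ?_
      intro g hg i j q hq he
      exact fmem_congr_left he (fmem_congr_right (h1 g hg.1 _) (S.fmem_act_aux g hq))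
    have hHS : S.HS (X.1.sub A) := S.HS_sub X.2 ⟨_, S.large_inf _ _ hH hK, hsupp⟩
    intro q' hq'
    refine ⟨q', le_rfl, ⟨A, hA, hHS⟩, le_top, ?_⟩
    show feq Z.1 (X.1.sub A) q'
    rw [feq_iff_mem]
    constructor
    · intro i q1 hq1 hi
      rw [fmem_sub hA]
      have h3 := h ⟨_, Z.2.el i⟩ q1 (hq1.trans hq') (fmem_el hi)
      intro r hr
      obtain ⟨r', hr', j, b1, b2⟩ := h3 r hr
      exact ⟨r', hr', j, b1, fmem_congr_left b2 (fmem_el (hr'.trans (hr.trans hi))), b2⟩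
    · rintro ⟨⟨i, r⟩, hr1, hr2⟩ q1 hq1 hi
      exact fmem_mono hi hr2

theorem HS_pow {X : Name Q} (hX : S.HS X) : S.HS (S.pow X) := by
  obtain ⟨H, hH, h1⟩ := hX.sym
  rw [HS_def]
  refine ⟨⟨H, hH, ?_⟩, fun A => A.2.2⟩
  apply S.supp_of_sub
  rintro g hg ⟨A, hA, hHS⟩
  show ((X.sub A).act g).fmem _ (g • (⊤ : Q))
  refine (S.fmem_pow (X := ⟨X, hX⟩) ⟨_, hHS.act g⟩ (g • (⊤ : Q))).2 ?_
  intro W q hq hW
  have h2 : (W.1.act g⁻¹).fmem (X.sub A) (g⁻¹ • q) := by
    have := S.fmem_act_aux g⁻¹ hW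
    simpa using this
  have h3 : (W.1.act g⁻¹).fmem X (g⁻¹ • q) := by
    rw [fmem_sub hA] at h2
    intro r hr
    obtain ⟨r', hr', i, b1, b2, b3⟩ := h2 r hr
    exact ⟨r', hr', i, b1, b3⟩
  have h4 := S.fmem_act_aux g h3
  simp only [act_act_inv, smul_inv_smul] at h4
  exact fmem_congr_right (h1 g hg q) h4

theorem forced_power (p : Q) : (fPower S.FS).holds p := by
  intro X q hq
  refine ⟨q, le_rfl, ⟨_, S.HS_pow X.2⟩, fun Z => ⟨fun r hr h => ?_, fun r hr h => ?_⟩⟩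
  · exact (S.fmem_pow (X := X) Z r).1 h
  · exact (S.fmem_pow (X := X) Z r).2 h

theorem exists_coll (φ : Fml) (f : ℕ → S.HN) (X : S.HN) :
    ∃ Y : S.HN, ∀ (Z : S.HN) (p : Q), fmem Z.1 X.1 p →
      (S.FS.ex fun y => φ.eval S.FS (upd (upd f 0 Z) 1 y)).holds p →
      (S.FS.ex fun y => S.FS.and (S.FS.mem y Y) (φ.eval S.FS (upd (upd f 0 Z) 1 y))).holds p := by
  classical
  have hch : ∀ (i : X.1.ι) (q : Q), ∃ y : S.HN,
      (∃ y' : S.HN, (φ.eval S.FS (upd (upd f 0 ⟨X.1.el i, X.2.el i⟩) 1 y')).holds q) →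
      (φ.eval S.FS (upd (upd f 0 ⟨X.1.el i, X.2.el i⟩) 1 y)).holds q := by
    intro i q
    by_cases h : ∃ y' : S.HN,
        (φ.eval S.FS (upd (upd f 0 ⟨X.1.el i, X.2.el i⟩) 1 y')).holds q
    · exact ⟨h.choose, fun _ => h.choose_spec⟩
    · exact ⟨f 0, fun h' => (h h').elim⟩
  choose F hF using hch
  have hHS : S.HS (Name.mk ((X.1.ι × Q) × G) (fun t => (F t.1.1 t.1.2).1.act t.2) fun _ => ⊤) := by
    refine S.HS_mk_top S.large_top ?_ ?_
    · rintro g _ ⟨⟨i, r⟩, h⟩ q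
      refine ⟨⟨⟨i, r⟩, g * h⟩, ?_⟩
      show feq (((F i r).1.act h).act g) ((F i r).1.act (g * h)) q
      rw [act_mul]
      exact feq_refl _ _
    · rintro ⟨⟨i, r⟩, h⟩
      exact (F i r).2.act h
  refine ⟨⟨_, hHS⟩, ?_⟩
  intro Z p hZ hp q hq
  obtain ⟨q1, a1, i, a2, a3⟩ := hZ q hq
  obtain ⟨r, hr, y, hy⟩ := hp q1 (a1.trans hq)
  have hcong : ∀ y : S.HN, (φ.eval S.FS (upd (upd f 0 Z) 1 y)).holds r ↔
      (φ.eval S.FS (upd (upd f 0 ⟨X.1.el i, X.2.el i⟩) 1 y)).holds r := by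
    intro y
    apply S.eval_eq_iff
    intro k hk
    by_cases h1 : k = 1
    · subst h1; simpa using feq_refl _ _
    rw [upd_ne _ _ h1, upd_ne _ _ h1]
    by_cases h0 : k = 0
    · subst h0; simpa using feq_mono hr a3
    · rw [upd_ne _ _ h0, upd_ne _ _ h0]; exact feq_refl _ _
  refine ⟨r, hr.trans a1, F i r, ?_, ?_⟩
  · show fmem (F i r).1 _ r
    intro s hs
    refine ⟨s, le_rfl, ⟨⟨i, r⟩, 1⟩, le_top, ?_⟩
    show feq _ ((F i r).1.act 1) s
    rw [act_one]; exact feq_refl _ _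
  · rw [hcong]
    exact hF i r ⟨y, (hcong y).1 hy⟩

theorem forced_coll (φ : Fml) (f : ℕ → S.HN) (p : Q) : ((cColl φ).eval S.FS f).holds p := by
  rw [eval_cColl]
  intro X q hq h
  obtain ⟨Y, hY⟩ := S.exists_coll φ f X
  refine fun r hr => ⟨r, le_rfl, Y, fun Z s hs hZ => hY Z s hZ ?_⟩
  exact h Z s (hs.trans hr) hZ

end SymSys

end Pool.Agent.H86
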